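import Pool.Agent.OLD.Basic

/-!
# Double counting identities
-/

set_option autoImplicit false

namespace Pool.Agent.OLD

open Finset

variable {V : Type*} [Fintype V] [DecidableEq V] {G : SimpleGraph V} [DecidableRel G.Adj]

theorem sum_cnt (hG : G.IsRegularOfDegree 3) (D : Finset V) : ∑ l, cnt G D l = 3 * D.card := by
  have h : ∀ l, cnt G D l = ∑ v ∈ D, if G.Adj l v then 1 else 0 := by
    intro l
    unfold cnt
    rw [← Finset.sum_filter, Finset.sum_const, smul_eq_mul, mul_one]
    congr 1
    ext v
    simp [and_comm]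
  rw [Finset.sum_congr rfl (fun l _ => h l), Finset.sum_comm]
  have h2 : ∀ v ∈ D, (∑ l, if G.Adj l v then 1 else 0) = 3 := by
    intro v _
    rw [← card_lines hG v, Finset.card_filter]
  rw [Finset.sum_congr rfl h2, Finset.sum_const, smul_eq_mul, mul_comm]

theorem three_card (hG : G.IsRegularOfDegree 3) {D : Finset V} (hD : Valid G D) :
    3 * D.card = h1 G D + 2 * hc G D := by
  rw [← sum_cnt hG D]
  unfold h1 hc
  rw [Finset.card_filter, Finset.card_filter, Finset.mul_sum, ← Finset.sum_add_distrib]
  refine Finset.sum_congr rfl fun l _ => ?_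
  have := hD.cnt_le hG l
  have h3 : cnt G D l = 0 ∨ cnt G D l = 1 ∨ cnt G D l = 2 := by omega
  rcases h3 with h | h | h <;> simp [h]

open scoped Classical in
theorem card_S1 (hG : G.IsRegularOfDegree 3) {D : Finset V} (hD : Valid G D) :
    (Finset.univ.filter fun z => S1 G D z).card = hc G D := by
  unfold hc
  apply le_antisymm
  · refine Finset.card_le_card_of_forall_subsingleton (fun z l => Hv G D l z) ?_ ?_
    · intro z hz
      simp only [Finset.mem_filter, Finset.mem_univ, true_and] at hz
      obtain ⟨hz, l, hl⟩ := hz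
      exact ⟨l, by simpa using hl.cnt_eq hG hz, hl⟩
    · intro l hl z hz z' hz'
      have h1 : z ∉ D := hD.notMem hz.2
      have h2 : z' ∉ D := hD.notMem hz'.2
      by_contra hne
      exact h1 (hz'.2.2 z hz.2.1 hne)
  · refine Finset.card_le_card_of_forall_subsingleton (fun l z => Hv G D l z) ?_ ?_
    · intro l hl
      simp only [Finset.mem_filter, Finset.mem_univ, true_and] at hl
      obtain ⟨s, hs, hl⟩ := exists_hv_of_cnt hG hl
      refine ⟨s, ?_, hl⟩
      simp only [Finset.mem_filter, Finset.mem_univ, true_and]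
      exact ⟨hs, l, hl⟩
    · intro z hz l hl l' hl'
      exact hD.uniq z l l' hl.2 hl'.2

theorem card_split (hG : G.IsRegularOfDegree 3) {D : Finset V} (hD : Valid G D) :
    Fintype.card V = D.card + (S0s G D).card + hc G D := by
  classical
  rw [← card_S1 hG hD]
  unfold S0s
  rw [← Finset.card_univ, ← Finset.card_union_of_disjoint, ← Finset.card_union_of_disjoint]
  · congr 1
    ext x
    simp only [Finset.mem_univ, Finset.mem_union, Finset.mem_filter, true_and, true_iff]
    by_cases hx : x ∈ D
    · exact Or.inl (Or.inl hx)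
    · by_cases h : ∃ l, Hv G D l x
      · exact Or.inr ⟨hx, h⟩
      · push Not at h
        exact Or.inl (Or.inr ⟨hx, h⟩)
  · rw [Finset.disjoint_left]
    intro x hx hx'
    simp only [Finset.mem_union, Finset.mem_filter, Finset.mem_univ, true_and] at hx hx'
    rcases hx with hx | hx
    · exact hx'.1 hx
    · obtain ⟨l, hl⟩ := hx'.2
      exact hx.2 l hl
  · rw [Finset.disjoint_left]
    intro x hx hx'
    simp only [Finset.mem_filter, Finset.mem_univ, true_and] at hx'
    exact hx'.1 hx

theorem card_two' {P : V → Prop} [DecidablePred P] {x z : V} (hxz : x ≠ z)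
    (h : ∀ w, P w → w = x ∨ w = z) :
    (Finset.univ.filter P).card = (if P x then 1 else 0) + (if P z then 1 else 0) := by
  have h1 : Finset.univ.filter P = ({x, z} : Finset V).filter P := by
    ext w
    simp only [Finset.mem_filter, Finset.mem_univ, true_and, Finset.mem_insert,
      Finset.mem_singleton]
    constructor
    · intro hw; exact ⟨h w hw, hw⟩
    · rintro ⟨-, hw⟩; exact hw
  rw [h1, Finset.filter_insert, Finset.filter_singleton]
  by_cases h2 : P x <;> by_cases h3 : P z <;> simp [h2, h3, hxz]

open scoped Classical in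
/-- the identity for one light line -/
theorem light_identity (hG : G.IsRegularOfDegree 3) {D : Finset V} {l : V}
    (hc1 : cnt G D l = 1) :
    2 = (Finset.univ.filter fun x => S0 G D x ∧ G.Adj l x).card +
      (Finset.univ.filter fun x => S0 G D x ∧ BLine G D x l).card +
        2 * (if ∃ x, S1 G D x ∧ BLine G D x l then 1 else 0) := by
  obtain ⟨y, hyD, hly⟩ := exists_mem_of_cnt_one hc1
  obtain ⟨x, z, hxy, hzy, hzx, hlx, hlz, he⟩ := line_eq hG hly
  have hxD : x ∉ D := fun h => hxy (cnt_one_unique hc1 h hyD hlx hly)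
  have hzD : z ∉ D := fun h => hzy (cnt_one_unique hc1 h hyD hlz hly)
  have hall : ∀ w, G.Adj l w → w = y ∨ w = x ∨ w = z := by
    intro w hw
    have hw' : w ∈ G.neighborFinset l := by simpa using hw
    rw [he] at hw'
    simpa using hw'
  have hall' : ∀ w, G.Adj l w → w ∉ D → w = x ∨ w = z := by
    intro w hw hwD
    rcases hall w hw with h | h
    · exact absurd (h ▸ hyD) hwD
    · exact h
  have hBx : BLine G D x l ↔ S1 G D z := by
    constructor
    · rintro ⟨-, -, -, w, hw, hwx, hS⟩
      rcases hall' w hw hS.1 with h | h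
      · exact absurd h hwx
      · rwa [← h]
    · intro h
      exact ⟨hlx, hxD, hc1, z, hlz, hzx, h⟩
  have hBz : BLine G D z l ↔ S1 G D x := by
    constructor
    · rintro ⟨-, -, -, w, hw, hwx, hS⟩
      rcases hall' w hw hS.1 with h | h
      · rwa [← h]
      · exact absurd h hwx
    · intro h
      exact ⟨hlz, hzD, hc1, x, hlx, hzx.symm, h⟩
  have hEx : (∃ w, S1 G D w ∧ BLine G D w l) ↔ (S1 G D x ∧ S1 G D z) := by
    constructor
    · rintro ⟨w, hw, hB⟩
      rcases hall' w hB.1 hw.1 with h | h
      · subst h; exact ⟨hw, hBx.mp hB⟩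
      · subst h; exact ⟨hBz.mp hB, hw⟩
    · rintro ⟨h, h'⟩
      exact ⟨x, h, hBx.mpr h'⟩
  have hSx : S0 G D x ↔ ¬ S1 G D x := by
    constructor
    · rintro h ⟨-, l', hl'⟩; exact h.2 l' hl'
    · intro h
      exact ⟨hxD, fun l' hl' => h ⟨hxD, l', hl'⟩⟩
  have hSz : S0 G D z ↔ ¬ S1 G D z := by
    constructor
    · rintro h ⟨-, l', hl'⟩; exact h.2 l' hl'
    · intro h
      exact ⟨hzD, fun l' hl' => h ⟨hzD, l', hl'⟩⟩
  rw [card_two' (P := fun w => S0 G D w ∧ G.Adj l w) hzx.symm
      (fun w hw => hall' w hw.2 hw.1.1),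
    card_two' (P := fun w => S0 G D w ∧ BLine G D w l) hzx.symm
      (fun w hw => hall' w hw.2.1 hw.1.1)]
  simp only [hBx, hBz, hEx, hSx, hSz, hlx, hlz, and_true]
  by_cases h1 : S1 G D x <;> by_cases h2 : S1 G D z <;> simp [h1, h2]

theorem two_h1 (hG : G.IsRegularOfDegree 3) (D : Finset V) :
    2 * h1 G D = ∑ x ∈ S0s G D, (anum G D x + bnum G D x) + ∑ x ∈ S0s G D, bnum G D x +
      2 * s11 G D := by
  classical
  have hA : ∑ x ∈ S0s G D, (anum G D x + bnum G D x) =
      ∑ l ∈ (Finset.univ.filter fun l => cnt G D l = 1),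
        (Finset.univ.filter fun x => S0 G D x ∧ G.Adj l x).card := by
    have e1 : ∀ x ∈ S0s G D, anum G D x + bnum G D x =
        ∑ l ∈ (Finset.univ.filter fun l => cnt G D l = 1), if G.Adj l x then 1 else 0 := by
      intro x hx
      unfold S0s at hx
      simp only [Finset.mem_filter, Finset.mem_univ, true_and] at hx
      rw [← Finset.card_filter, Finset.filter_filter]
      unfold anum bnum
      rw [← Finset.card_union_of_disjoint]
      · congr 1
        ext l
        simp only [Finset.mem_union, Finset.mem_filter, Finset.mem_univ, true_and]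
        constructor
        · rintro (h | h)
          · exact ⟨h.2.1, h.1⟩
          · exact ⟨h.2.2.1, h.1⟩
        · rintro ⟨h, h'⟩
          by_cases hb : BLine G D x l
          · exact Or.inr hb
          · exact Or.inl ⟨h', h, hb⟩
      · rw [Finset.disjoint_filter]
        rintro l - h h'
        exact h.2.2 h'
    rw [Finset.sum_congr rfl e1, Finset.sum_comm]
    refine Finset.sum_congr rfl fun l _ => ?_
    rw [← Finset.card_filter]
    unfold S0s
    rw [Finset.filter_filter]
  have hB : ∑ x ∈ S0s G D, bnum G D x =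
      ∑ l ∈ (Finset.univ.filter fun l => cnt G D l = 1),
        (Finset.univ.filter fun x => S0 G D x ∧ BLine G D x l).card := by
    have e1 : ∀ x ∈ S0s G D, bnum G D x =
        ∑ l ∈ (Finset.univ.filter fun l => cnt G D l = 1), if BLine G D x l then 1 else 0 := by
      intro x _
      rw [← Finset.card_filter, Finset.filter_filter]
      unfold bnum
      congr 1
      ext l
      simp only [Finset.mem_filter, Finset.mem_univ, true_and]
      exact ⟨fun h => ⟨h.2.2.1, h⟩, fun h => h.2⟩
    rw [Finset.sum_congr rfl e1, Finset.sum_comm]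
    refine Finset.sum_congr rfl fun l _ => ?_
    rw [← Finset.card_filter]
    unfold S0s
    rw [Finset.filter_filter]
  have hS : s11 G D = ∑ l ∈ (Finset.univ.filter fun l => cnt G D l = 1),
      (if ∃ x, S1 G D x ∧ BLine G D x l then 1 else 0) := by
    rw [← Finset.card_filter, Finset.filter_filter]
    unfold s11
    congr 1
    ext l
    simp only [Finset.mem_filter, Finset.mem_univ, true_and]
    constructor
    · rintro ⟨x, hx, h⟩
      exact ⟨h.2.2.1, x, hx, h⟩
    · rintro ⟨-, h⟩; exact h
  rw [hA, hB, hS, Finset.mul_sum, ← Finset.sum_add_distrib, ← Finset.sum_add_distrib]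
  unfold h1
  rw [Finset.card_eq_sum_ones, Finset.mul_sum]
  refine Finset.sum_congr rfl fun l hl => ?_
  simp only [Finset.mem_filter, Finset.mem_univ, true_and] at hl
  rw [mul_one]
  exact light_identity hG hl

theorem three_S0 (hG : G.IsRegularOfDegree 3) (D : Finset V) :
    3 * (S0s G D).card = ∑ x ∈ S0s G D, (anum G D x + bnum G D x + tnum G D x) := by
  classical
  rw [Finset.card_eq_sum_ones, Finset.mul_sum]
  refine Finset.sum_congr rfl fun x hx => ?_
  unfold S0s at hx
  simp only [Finset.mem_filter, Finset.mem_univ, true_and] at hx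
  rw [anum_add_bnum_add_tnum hG hx, mul_one]

/-- the identity `30 |D| - 12 n = 2 h1 + 4 s11 - 2 A - 4 T` -/
theorem identity1 (hG : G.IsRegularOfDegree 3) {D : Finset V} (hD : Valid G D) :
    30 * D.card + 2 * ∑ x ∈ S0s G D, (anum G D x + 2 * tnum G D x) =
      12 * Fintype.card V + 2 * h1 G D + 4 * s11 G D := by
  have e1 := three_card hG hD
  have e2 := card_split hG hD
  have e3 := two_h1 hG D
  have e4 := three_S0 hG D
  simp only [Finset.sum_add_distrib, ← Finset.mul_sum] at e3 e4 ⊢
  omega

/-- the identity `10 |D| - 4 n = 2 h1 - 4 |S0|` -/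
theorem identity2 (hG : G.IsRegularOfDegree 3) {D : Finset V} (hD : Valid G D) :
    10 * D.card + 4 * (S0s G D).card = 4 * Fintype.card V + 2 * h1 G D := by
  have e1 := three_card hG hD
  have e2 := card_split hG hD
  omega

end Pool.Agent.OLD
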