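import Pool.Agent.OLD.Defs

/-!
# The expected number of points near short cycles (module OLD/Near)
-/

set_option autoImplicit false
set_option linter.unusedVariables false

namespace Pool.Agent.OLD

namespace NearM

open scoped Classical in
/-- points reachable by a walk of length at most `k` -/
noncomputable def ballN {n : ℕ} (H : SimpleGraph (Fin n)) (v : Fin n) : ℕ → Finset (Fin n)
  | 0 => {v}
  | k + 1 => ballN H v k ∪ (ballN H v k).biUnion fun w => H.neighborFinset w

open scoped Classical in
theorem card_ballN {n : ℕ} {H : SimpleGraph (Fin n)}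
    (hH : ∀ v, H.degree v = 3) (v : Fin n) (k : ℕ) : (ballN H v k).card ≤ 4 ^ k := by
  induction k with
  | zero => simp [ballN]
  | succ k ih =>
    have h1 : ((ballN H v k).biUnion fun w => H.neighborFinset w).card ≤
        (ballN H v k).card * 3 := by
      refine Finset.card_biUnion_le_card_mul _ _ _ fun w _ => ?_
      have := hH w
      rw [← SimpleGraph.card_neighborFinset_eq_degree] at this
      refine le_of_eq ?_
      convert this
    calc (ballN H v (k + 1)).card ≤ (ballN H v k).card +
          ((ballN H v k).biUnion fun w => H.neighborFinset w).card := by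
          rw [ballN]; exact Finset.card_union_le (ballN H v k) _
      _ ≤ 4 ^ k + 4 ^ k * 3 := by
          have := Nat.mul_le_mul_right 3 ih
          omega
      _ = 4 ^ (k + 1) := by ring

theorem ballN_mono {n : ℕ} (H : SimpleGraph (Fin n)) (v : Fin n) {j k : ℕ} (h : j ≤ k) :
    ballN H v j ⊆ ballN H v k := by
  induction h with
  | refl => exact Finset.Subset.refl _
  | step h ih =>
    refine ih.trans ?_
    conv_rhs => unfold ballN
    exact Finset.subset_union_left

theorem mem_ballN {n : ℕ} (H : SimpleGraph (Fin n)) {x v : Fin n} (p : H.Walk x v) :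
    x ∈ ballN H v p.length := by
  classical
  induction p with
  | nil => simp [ballN]
  | cons h p ih =>
    rw [SimpleGraph.Walk.length_cons]
    unfold ballN
    refine Finset.mem_union_right _ ?_
    rw [Finset.mem_biUnion]
    exact ⟨_, ih, by rw [SimpleGraph.mem_neighborFinset]; exact h.symm⟩

/-- closed injective sequences of length `k + 1` in `H` -/
def IsCyc {n : ℕ} (H : SimpleGraph (Fin n)) (k : ℕ) (f : Fin (k + 1) → Fin n) : Prop :=
  Function.Injective f ∧ ∀ i, H.Adj (f i) (f (i + 1))

theorem exists_cyc {n : ℕ} (H : SimpleGraph (Fin n)) {u : Fin n} (c : H.Walk u u)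
    (hc : c.IsCycle) (hl : c.length ≤ 20) :
    ∃ k, 2 ≤ k ∧ k < 20 ∧ ∃ f : Fin (k + 1) → Fin n, IsCyc H k f ∧ f 0 = u := by
  have h3 := hc.three_le_length
  obtain ⟨k, hk⟩ : ∃ k, c.length = k + 1 := ⟨c.length - 1, by omega⟩
  refine ⟨k, by omega, by omega, fun i => c.getVert i.val, ⟨?_, ?_⟩, by simp⟩
  · intro i j hij
    have := hc.getVert_injOn' (by simp only [Set.mem_ofPred_eq]; omega)
      (by simp only [Set.mem_ofPred_eq]; omega) hij
    exact Fin.ext this
  · intro i
    have h1 := c.adj_getVert_succ (i := i.val) (by omega)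
    by_cases hi : i.val + 1 < k + 1
    · have : (i + 1).val = i.val + 1 := by
        rw [Fin.val_add_one_of_lt]
        rw [Fin.lt_def]; simp; omega
      show H.Adj _ (c.getVert (i + 1).val)
      rw [this]; exact h1
    · have hi' : i.val = k := by omega
      have : (i + 1) = 0 := by
        have : i = Fin.last k := Fin.ext hi'
        rw [this]; simp
      show H.Adj _ (c.getVert (i + 1).val)
      rw [this]
      have h2 : c.getVert (i.val + 1) = u := by
        rw [hi', ← hk]; exact c.getVert_length
      rw [h2] at h1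
      simpa using h1

open scoped Classical in
theorem card_near_le {n : ℕ} {H : SimpleGraph (Fin n)} (hH : ∀ v, H.degree v = 3) :
    (Finset.univ.filter fun x => NearShort H x).card ≤
      4 ^ 10 * ∑ k ∈ Finset.Ico 2 20, (Finset.univ.filter fun f : Fin (k + 1) → Fin n =>
        IsCyc H k f).card := by
  have hsub : (Finset.univ.filter fun x => NearShort H x) ⊆
      (Finset.Ico 2 20).biUnion fun k => (Finset.univ.filter fun f : Fin (k + 1) → Fin n =>
        IsCyc H k f).biUnion fun f => ballN H (f 0) 10 := by
    intro x hx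
    rw [Finset.mem_filter] at hx
    obtain ⟨u, c, p, hc, hl, hp⟩ := hx.2
    obtain ⟨k, hk1, hk2, f, hf, hf0⟩ := exists_cyc H c hc hl
    rw [Finset.mem_biUnion]
    refine ⟨k, by rw [Finset.mem_Ico]; omega, ?_⟩
    rw [Finset.mem_biUnion]
    refine ⟨f, by rw [Finset.mem_filter]; exact ⟨Finset.mem_univ _, hf⟩, ?_⟩
    rw [hf0]
    exact ballN_mono H u hp (mem_ballN H p)
  refine (Finset.card_le_card hsub).trans ?_
  refine Finset.card_biUnion_le.trans ?_
  rw [Finset.mul_sum]
  refine Finset.sum_le_sum fun k _ => ?_
  rw [mul_comm]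
  exact Finset.card_biUnion_le_card_mul _ _ _ fun f _ => card_ballN hH _ _

/-- the edges of a closed sequence -/
def edg {n : ℕ} (k : ℕ) (f : Fin (k + 1) → Fin n) : Finset (Sym2 (Fin n)) :=
  Finset.univ.image fun i => s(f i, f (i + 1))

theorem card_edg {n k : ℕ} (hk : 2 ≤ k) {f : Fin (k + 1) → Fin n} (hf : Function.Injective f) :
    (edg k f).card = k + 1 := by
  unfold edg
  rw [Finset.card_image_of_injective, Finset.card_univ, Fintype.card_fin]
  intro i j hij
  simp only [Sym2.eq_iff] at hij
  rcases hij with h | h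
  · exact hf h.1
  · exfalso
    have h1 : i = j + 1 := hf h.1
    have h2 : i + 1 = j := hf h.2
    have h3 : j + 1 + 1 = j := by rw [← h1]; exact h2
    have h4 : (1 : Fin (k + 1)) + 1 = 0 := by
      have : j + (1 + 1) = j + 0 := by rw [← add_assoc]; simpa using h3
      exact add_left_cancel this
    obtain ⟨m, rfl⟩ : ∃ m, k = m + 2 := ⟨k - 2, by omega⟩
    have h5 := congrArg Fin.val h4
    rw [Fin.val_add] at h5
    simp at h5
    rw [Nat.mod_eq_of_lt (by omega)] at h5
    omega

end NearM

open scoped Classical in
theorem expect_near_of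
    (prob : ∀ (n : ℕ) (F : Finset (Sym2 (Fin n))) (_ : F.card ≤ 20) (_ : 100 ≤ n),
      n ^ F.card * (cub n F).card ≤ 9 ^ F.card * (cub n ∅).card) : ∃ C : ℕ, ∀ n : ℕ,
    ∑ H ∈ cub n ∅, (Finset.univ.filter fun x => NearShort H x).card ≤ C * (cub n ∅).card := by
  refine ⟨100 + 4 ^ 10 * ∑ k ∈ Finset.Ico 2 20, 9 ^ (k + 1), fun n => ?_⟩
  rcases lt_or_ge n 100 with hn | hn
  · calc ∑ H ∈ cub n ∅, (Finset.univ.filter fun x => NearShort H x).card
        ≤ ∑ H ∈ cub n ∅, 100 := by
          refine Finset.sum_le_sum fun H _ => ?_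
          refine (Finset.card_filter_le _ _).trans ?_
          rw [Finset.card_univ, Fintype.card_fin]; omega
      _ = 100 * (cub n ∅).card := by rw [Finset.sum_const, smul_eq_mul, mul_comm]
      _ ≤ _ := Nat.mul_le_mul_right _ (Nat.le_add_right _ _)
  · have key : ∀ k ∈ Finset.Ico 2 20, ∑ H ∈ cub n ∅, (Finset.univ.filter
        fun f : Fin (k + 1) → Fin n => NearM.IsCyc H k f).card ≤
          9 ^ (k + 1) * (cub n ∅).card := by
      intro k hk
      rw [Finset.mem_Ico] at hk
      have h1 : ∑ H ∈ cub n ∅, (Finset.univ.filter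
          fun f : Fin (k + 1) → Fin n => NearM.IsCyc H k f).card =
          ∑ f : Fin (k + 1) → Fin n, ((cub n ∅).filter fun H => NearM.IsCyc H k f).card := by
        simp only [Finset.card_filter]
        rw [Finset.sum_comm]
      have h2 : ∀ f : Fin (k + 1) → Fin n,
          n ^ (k + 1) * ((cub n ∅).filter fun H => NearM.IsCyc H k f).card ≤
            9 ^ (k + 1) * (cub n ∅).card := by
        intro f
        by_cases hf : Function.Injective f
        · have hc := NearM.card_edg (n := n) hk.1 hf
          have := prob n (NearM.edg k f) (by omega) hn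
          rw [hc] at this
          refine le_trans (Nat.mul_le_mul_left _ (Finset.card_le_card ?_)) this
          intro H hH
          rw [Finset.mem_filter] at hH
          unfold cub at hH ⊢
          simp only [Finset.mem_filter, Finset.mem_univ, true_and] at hH ⊢
          refine ⟨hH.1.1, fun e he => ?_⟩
          unfold NearM.edg at he
          rw [Finset.mem_image] at he
          obtain ⟨i, _, rfl⟩ := he
          rw [SimpleGraph.mem_edgeSet]
          exact hH.2.2 i
        · have : ((cub n ∅).filter fun H => NearM.IsCyc H k f) = ∅ := by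
            rw [Finset.filter_eq_empty_iff]
            intro H _ h
            exact hf h.1
          rw [this]; simp
      have h3 : n ^ (k + 1) * ∑ f : Fin (k + 1) → Fin n,
          ((cub n ∅).filter fun H => NearM.IsCyc H k f).card ≤
            n ^ (k + 1) * (9 ^ (k + 1) * (cub n ∅).card) := by
        rw [Finset.mul_sum]
        refine (Finset.sum_le_sum fun f _ => h2 f).trans ?_
        rw [Finset.sum_const, smul_eq_mul, Finset.card_univ, Fintype.card_fun, Fintype.card_fin,
          Fintype.card_fin]
      rw [h1]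
      exact Nat.le_of_mul_le_mul_left h3 (pow_pos (by omega) _)
    calc ∑ H ∈ cub n ∅, (Finset.univ.filter fun x => NearShort H x).card
        ≤ ∑ H ∈ cub n ∅, 4 ^ 10 * ∑ k ∈ Finset.Ico 2 20, (Finset.univ.filter
          fun f : Fin (k + 1) → Fin n => NearM.IsCyc H k f).card := by
          refine Finset.sum_le_sum fun H hH => ?_
          refine NearM.card_near_le ?_
          unfold cub at hH
          simp only [Finset.mem_filter, Finset.mem_univ, true_and] at hH
          exact hH.1
      _ = 4 ^ 10 * ∑ k ∈ Finset.Ico 2 20, ∑ H ∈ cub n ∅, (Finset.univ.filter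
          fun f : Fin (k + 1) → Fin n => NearM.IsCyc H k f).card := by
          rw [← Finset.mul_sum, Finset.sum_comm]
      _ ≤ 4 ^ 10 * ∑ k ∈ Finset.Ico 2 20, 9 ^ (k + 1) * (cub n ∅).card :=
          Nat.mul_le_mul_left _ (Finset.sum_le_sum key)
      _ = (4 ^ 10 * ∑ k ∈ Finset.Ico 2 20, 9 ^ (k + 1)) * (cub n ∅).card := by
          rw [← Finset.sum_mul, mul_assoc]
      _ ≤ _ := Nat.mul_le_mul_right _ (Nat.le_add_left _ _)

end Pool.Agent.OLD
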