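import Pool.Agent.OLD.Defs

set_option autoImplicit false

namespace Pool.Agent.OLD

section Switch

open scoped Classical in
theorem mem_cub {n : ℕ} {F : Finset (Sym2 (Fin n))} {H : SimpleGraph (Fin n)} :
    H ∈ cub n F ↔ (∀ v, H.degree v = 3) ∧ ∀ e ∈ F, e ∈ H.edgeSet := by
  simp [cub]

/-- the switched graph -/
def sw {n : ℕ} (H : SimpleGraph (Fin n)) (a b c d : Fin n) : SimpleGraph (Fin n) where
  Adj x y := x ≠ y ∧ ((H.Adj x y ∧ s(x, y) ≠ s(a, b) ∧ s(x, y) ≠ s(c, d)) ∨
    s(x, y) = s(a, c) ∨ s(x, y) = s(b, d))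
  symm := ⟨by
    intro x y h
    rw [Sym2.eq_swap (a := y) (b := x)]
    exact ⟨h.1.symm, h.2.imp_left fun h' => ⟨h'.1.symm, h'.2⟩⟩⟩
  loopless := ⟨fun x h => h.1 rfl⟩

theorem sw_adj {n : ℕ} (H : SimpleGraph (Fin n)) (a b c d x y : Fin n) :
    (sw H a b c d).Adj x y ↔ x ≠ y ∧ ((H.Adj x y ∧ s(x, y) ≠ s(a, b) ∧ s(x, y) ≠ s(c, d)) ∨
    s(x, y) = s(a, c) ∨ s(x, y) = s(b, d)) := Iff.rfl

/-- admissible darts for the switching at `a b` -/
def Adm {n : ℕ} (F : Finset (Sym2 (Fin n))) (H : SimpleGraph (Fin n)) (a b c d : Fin n) : Prop :=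
  H.Adj c d ∧ c ≠ a ∧ c ≠ b ∧ d ≠ a ∧ d ≠ b ∧ ¬ H.Adj a c ∧ ¬ H.Adj b d ∧ s(c, d) ∉ F

open scoped Classical in
/-- number of admissible darts -/
theorem card_adm {n : ℕ} (F : Finset (Sym2 (Fin n))) (hF : F.card ≤ 20) (H : SimpleGraph (Fin n))
    (hH : ∀ v, H.degree v = 3) (a b : Fin n) :
    3 * n - 100 ≤ (Finset.univ.filter fun p : Fin n × Fin n => Adm F H a b p.1 p.2).card := by
  have h3 : ∀ v, (H.neighborFinset v).card = 3 := hH
  -- all darts
  set T : Finset (Fin n × Fin n) := Finset.univ.filter fun p => H.Adj p.1 p.2 with hT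
  have hTc : T.card = 3 * n := by
    have h1 : T = Finset.univ.biUnion fun c => ({c} : Finset (Fin n)) ×ˢ H.neighborFinset c := by
      ext p
      simp only [hT, Finset.mem_filter, Finset.mem_univ, true_and, Finset.mem_biUnion,
        Finset.mem_product, Finset.mem_singleton, SimpleGraph.mem_neighborFinset]
      constructor
      · intro h
        exact ⟨p.1, rfl, h⟩
      · rintro ⟨c, rfl, h⟩
        exact h
    rw [h1, Finset.card_biUnion]
    · simp [hH, mul_comm]
    · intro x _ y _ hxy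
      rw [Function.onFun, Finset.disjoint_left]
      intro p hp hq
      simp only [Finset.mem_product, Finset.mem_singleton] at hp hq
      exact hxy (hp.1.symm.trans hq.1)
  have hx : ∀ x : Fin n, (({x} : Finset (Fin n)) ×ˢ H.neighborFinset x).card = 3 := by
    intro x
    rw [Finset.card_product, h3]
    simp
  have hx' : ∀ x : Fin n, (H.neighborFinset x ×ˢ ({x} : Finset (Fin n))).card = 3 := by
    intro x
    rw [Finset.card_product, h3]
    simp
  -- bad sets
  let B1 := ({a} : Finset (Fin n)) ×ˢ H.neighborFinset a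
  let B2 := ({b} : Finset (Fin n)) ×ˢ H.neighborFinset b
  let B3 := H.neighborFinset a ×ˢ ({a} : Finset (Fin n))
  let B4 := H.neighborFinset b ×ˢ ({b} : Finset (Fin n))
  let B5 := (H.neighborFinset a).biUnion fun c => ({c} : Finset (Fin n)) ×ˢ H.neighborFinset c
  let B6 := (H.neighborFinset b).biUnion fun d => H.neighborFinset d ×ˢ ({d} : Finset (Fin n))
  let B7 : Finset (Fin n × Fin n) := F.biUnion fun f => Finset.univ.filter fun p => s(p.1, p.2) = f
  have hB5 : B5.card ≤ 9 := by
    refine Finset.card_biUnion_le.trans ?_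
    rw [Finset.sum_congr rfl fun x _ => hx x]
    simp [hH]
  have hB6 : B6.card ≤ 9 := by
    refine Finset.card_biUnion_le.trans ?_
    rw [Finset.sum_congr rfl fun x _ => hx' x]
    simp [hH]
  have hB7 : B7.card ≤ 40 := by
    refine Finset.card_biUnion_le.trans ?_
    have : ∀ f ∈ F, (Finset.univ.filter fun p : Fin n × Fin n => s(p.1, p.2) = f).card ≤ 2 := by
      intro f _
      induction f using Sym2.ind with
      | _ x y =>
        refine (Finset.card_le_card (t := {(x, y), (y, x)}) ?_).trans Finset.card_le_two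
        intro p hp
        simp only [Finset.mem_filter, Finset.mem_univ, true_and, Sym2.eq_iff] at hp
        rcases hp with hp | hp
        · simp [Prod.ext_iff, hp.1, hp.2]
        · simp [Prod.ext_iff, hp.1, hp.2]
    refine (Finset.sum_le_sum this).trans ?_
    simp only [Finset.sum_const, smul_eq_mul]
    omega
  have hsub : T ⊆ (Finset.univ.filter fun p : Fin n × Fin n => Adm F H a b p.1 p.2) ∪
      (B1 ∪ B2 ∪ B3 ∪ B4 ∪ B5 ∪ B6 ∪ B7) := by
    rintro ⟨c, d⟩ hp
    simp only [hT, Finset.mem_filter, Finset.mem_univ, true_and] at hp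
    simp only [Finset.mem_union, Finset.mem_filter, Finset.mem_univ, true_and, Adm, B1, B2, B3,
      B4, B5, B6, B7, Finset.mem_product, Finset.mem_singleton, Finset.mem_biUnion,
      SimpleGraph.mem_neighborFinset]
    by_cases h1 : c = a
    · subst h1; tauto
    by_cases h2 : c = b
    · subst h2; tauto
    by_cases h3 : d = a
    · subst h3
      have := hp.symm
      tauto
    by_cases h4 : d = b
    · subst h4
      have := hp.symm
      tauto
    by_cases h5 : H.Adj a c
    · right; left; left; right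
      exact ⟨c, h5, rfl, hp⟩
    by_cases h6 : H.Adj b d
    · right; left; right
      exact ⟨d, h6, hp.symm, rfl⟩
    by_cases h7 : s(c, d) ∈ F
    · right; right
      exact ⟨s(c, d), h7, rfl⟩
    left
    exact ⟨hp, h1, h2, h3, h4, h5, h6, h7⟩
  have hcard := Finset.card_le_card hsub
  have u0 := Finset.card_union_le (Finset.univ.filter fun p : Fin n × Fin n => Adm F H a b p.1 p.2)
    (B1 ∪ B2 ∪ B3 ∪ B4 ∪ B5 ∪ B6 ∪ B7)
  have u1 := Finset.card_union_le (B1 ∪ B2 ∪ B3 ∪ B4 ∪ B5 ∪ B6) B7
  have u2 := Finset.card_union_le (B1 ∪ B2 ∪ B3 ∪ B4 ∪ B5) B6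
  have u3 := Finset.card_union_le (B1 ∪ B2 ∪ B3 ∪ B4) B5
  have u4 := Finset.card_union_le (B1 ∪ B2 ∪ B3) B4
  have u5 := Finset.card_union_le (B1 ∪ B2) B3
  have u6 := Finset.card_union_le B1 B2
  have e1 : B1.card = 3 := hx a
  have e2 : B2.card = 3 := hx b
  have e3 : B3.card = 3 := hx' a
  have e4 : B4.card = 3 := hx' b
  omega

open scoped Classical in
/-- the switched graph is cubic -/
theorem sw_degree {n : ℕ} {H : SimpleGraph (Fin n)} (hH : ∀ v, H.degree v = 3)
    {a b c d : Fin n} (hab : H.Adj a b) (hcd : H.Adj c d) (hca : c ≠ a) (hcb : c ≠ b)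
    (hda : d ≠ a) (hdb : d ≠ b) (hac : ¬ H.Adj a c) (hbd : ¬ H.Adj b d) (v : Fin n) :
    (sw H a b c d).degree v = 3 := by
  have hab' := hab.ne
  have hcd' := hcd.ne
  have h3 : ∀ v, (H.neighborFinset v).card = 3 := hH
  have key : ∀ x y z : Fin n, H.Adj x y → ¬ H.Adj x z → 
      (insert z ((H.neighborFinset x).erase y)).card = 3 := by
    intro x y z hxy hxz
    rw [Finset.card_insert_of_notMem, Finset.card_erase_of_mem, h3]
    · simpa using hxy
    · simp [hxz]
  rw [← SimpleGraph.card_neighborFinset_eq_degree]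
  by_cases hva : v = a
  · subst hva
    rw [← key v b c hab hac]
    congr 1
    ext y
    simp only [SimpleGraph.mem_neighborFinset, sw_adj, Finset.mem_insert, Finset.mem_erase,
      Sym2.eq_iff]
    have hne := fun h : H.Adj v y => h.ne
    clear key h3 hH
    grind
  by_cases hvb : v = b
  · subst hvb
    rw [← key v a d hab.symm hbd]
    congr 1
    ext y
    simp only [SimpleGraph.mem_neighborFinset, sw_adj, Finset.mem_insert, Finset.mem_erase,
      Sym2.eq_iff]
    have hne := fun h : H.Adj v y => h.ne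
    clear key h3 hH
    grind
  by_cases hvc : v = c
  · subst hvc
    rw [← key v d a hcd (fun h => hac h.symm)]
    congr 1
    ext y
    simp only [SimpleGraph.mem_neighborFinset, sw_adj, Finset.mem_insert, Finset.mem_erase,
      Sym2.eq_iff]
    have hne := fun h : H.Adj v y => h.ne
    clear key h3 hH
    grind
  by_cases hvd : v = d
  · subst hvd
    rw [← key v c b hcd.symm (fun h => hbd h.symm)]
    congr 1
    ext y
    simp only [SimpleGraph.mem_neighborFinset, sw_adj, Finset.mem_insert, Finset.mem_erase,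
      Sym2.eq_iff]
    have hne := fun h : H.Adj v y => h.ne
    clear key h3 hH
    grind
  · rw [← h3 v]
    congr 1
    ext y
    simp only [SimpleGraph.mem_neighborFinset, sw_adj, Sym2.eq_iff]
    have := fun h : H.Adj v y => h.ne
    grind

/-- the switched graph determines the graph -/
theorem sw_inj {n : ℕ} {H H' : SimpleGraph (Fin n)} 
    {a b c d : Fin n} (hab : H.Adj a b) (hcd : H.Adj c d) (hac : ¬ H.Adj a c) (hbd : ¬ H.Adj b d)
    (hab' : H'.Adj a b) (hcd' : H'.Adj c d) (hac' : ¬ H'.Adj a c) (hbd' : ¬ H'.Adj b d)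
    (h : sw H a b c d = sw H' a b c d) : H = H' := by
  have key : ∀ H : SimpleGraph (Fin n), H.Adj a b → H.Adj c d → ¬ H.Adj a c → ¬ H.Adj b d →
      ∀ x y, H.Adj x y ↔ ((sw H a b c d).Adj x y ∧ s(x, y) ≠ s(a, c) ∧ s(x, y) ≠ s(b, d)) ∨
        s(x, y) = s(a, b) ∨ s(x, y) = s(c, d) := by
    intro H h1 h2 h3 h4 x y
    have e1 : s(x, y) = s(a, b) → H.Adj x y := by
      intro h
      rw [← SimpleGraph.mem_edgeSet, h]; exact h1
    have e2 : s(x, y) = s(c, d) → H.Adj x y := by
      intro h
      rw [← SimpleGraph.mem_edgeSet, h]; exact h2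
    have e3 : s(x, y) = s(a, c) → ¬ H.Adj x y := by
      intro h
      rw [← SimpleGraph.mem_edgeSet, h]; exact h3
    have e4 : s(x, y) = s(b, d) → ¬ H.Adj x y := by
      intro h
      rw [← SimpleGraph.mem_edgeSet, h]; exact h4
    have e5 : H.Adj x y → x ≠ y := fun h => h.ne
    rw [sw_adj]
    tauto
  ext x y
  rw [key H hab hcd hac hbd, key H' hab' hcd' hac' hbd', h]

/-- switching -/
theorem switching (n : ℕ) (F : Finset (Sym2 (Fin n))) (e : Sym2 (Fin n)) (he : e ∉ F)
    (hF : F.card ≤ 20) (hdiag : ¬ e.IsDiag) :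
    (3 * n - 100) * (cub n (insert e F)).card ≤ 9 * (cub n F).card := by
  classical
  induction e using Sym2.ind with
  | _ a b =>
  have hab : a ≠ b := by simpa using hdiag
  let A : Finset (SimpleGraph (Fin n) × (Fin n × Fin n)) :=
    (cub n (insert s(a, b) F)).biUnion fun H => ({H} : Finset (SimpleGraph (Fin n))) ×ˢ
      (Finset.univ.filter fun p : Fin n × Fin n => Adm F H a b p.1 p.2)
  let B : Finset (SimpleGraph (Fin n) × (Fin n × Fin n)) :=
    (cub n F).biUnion fun H => ({H} : Finset (SimpleGraph (Fin n))) ×ˢ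
      (H.neighborFinset a ×ˢ H.neighborFinset b)
  have hA : (3 * n - 100) * (cub n (insert s(a, b) F)).card ≤ A.card := by
    rw [Finset.card_biUnion]
    · rw [mul_comm, ← smul_eq_mul, ← Finset.sum_const]
      refine Finset.sum_le_sum fun H hH => ?_
      rw [Finset.card_product, Finset.card_singleton, one_mul]
      exact card_adm F hF H (mem_cub.1 hH).1 a b
    · intro x _ y _ hxy
      rw [Function.onFun, Finset.disjoint_left]
      intro p hp hq
      simp only [Finset.mem_product, Finset.mem_singleton] at hp hq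
      exact hxy (hp.1.symm.trans hq.1)
  have hB : B.card ≤ 9 * (cub n F).card := by
    refine Finset.card_biUnion_le.trans ?_
    rw [mul_comm, ← smul_eq_mul, ← Finset.sum_const]
    refine Finset.sum_le_sum fun H hH => ?_
    rw [Finset.card_product, Finset.card_singleton, one_mul, Finset.card_product,
      SimpleGraph.card_neighborFinset_eq_degree, SimpleGraph.card_neighborFinset_eq_degree,
      (mem_cub.1 hH).1, (mem_cub.1 hH).1]
  refine hA.trans (le_trans ?_ hB)
  have memA : ∀ q : SimpleGraph (Fin n) × (Fin n × Fin n), q ∈ A →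
      ((∀ v, q.1.degree v = 3) ∧ (∀ f ∈ F, f ∈ q.1.edgeSet) ∧ q.1.Adj a b) ∧
        Adm F q.1 a b q.2.1 q.2.2 := by
    rintro ⟨H, c, d⟩ hq
    simp only [A, Finset.mem_biUnion, Finset.mem_product, Finset.mem_singleton,
      Finset.mem_filter, Finset.mem_univ, true_and] at hq
    obtain ⟨H', hH', rfl, h⟩ := hq
    rw [mem_cub] at hH'
    refine ⟨⟨hH'.1, fun f hf => hH'.2 f (Finset.mem_insert_of_mem hf), ?_⟩, h⟩
    exact hH'.2 _ (Finset.mem_insert_self _ _)
  refine Finset.card_le_card_of_injOn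
    (fun q : SimpleGraph (Fin n) × (Fin n × Fin n) => (sw q.1 a b q.2.1 q.2.2, q.2)) ?_ ?_
  · rintro ⟨H, c, d⟩ hq
    obtain ⟨⟨h1, h2, h3⟩, hcd, hca, hcb, hda, hdb, hac, hbd, hcF⟩ := memA _ hq
    simp only at h1 h2 h3 hcd hca hcb hda hdb hac hbd hcF
    simp only [B, Finset.coe_biUnion, Finset.mem_coe, Set.mem_iUnion, Finset.mem_product,
      Finset.mem_singleton, SimpleGraph.mem_neighborFinset]
    refine ⟨sw H a b c d, ?_, rfl, ?_, ?_⟩
    · rw [mem_cub]
      refine ⟨fun v => sw_degree h1 h3 hcd hca hcb hda hdb hac hbd v, ?_⟩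
      intro f hf
      have hf1 := h2 f hf
      have hf2 : f ≠ s(a, b) := fun h => he (h ▸ hf)
      have hf3 : f ≠ s(c, d) := fun h => hcF (h ▸ hf)
      induction f using Sym2.ind with
      | _ x y =>
      rw [SimpleGraph.mem_edgeSet] at hf1 ⊢
      rw [sw_adj]
      exact ⟨hf1.ne, Or.inl ⟨hf1, hf2, hf3⟩⟩
    · rw [sw_adj]
      exact ⟨hca.symm, Or.inr (Or.inl rfl)⟩
    · rw [sw_adj]
      exact ⟨hdb.symm, Or.inr (Or.inr rfl)⟩
  · rintro ⟨H, c, d⟩ hq ⟨H', c', d'⟩ hq' h
    simp only [Prod.mk.injEq] at h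
    obtain ⟨h, rfl, rfl⟩ := h
    obtain ⟨⟨-, -, h3⟩, hcd, hca, hcb, hda, hdb, hac, hbd, hcF⟩ := memA _ hq
    obtain ⟨⟨-, -, h3'⟩, hcd', -, -, -, -, hac', hbd', -⟩ := memA _ hq'
    simp only [Prod.mk.injEq, and_true]
    exact sw_inj h3 hcd hac hbd h3' hcd' hac' hbd' h

/-- the probability of containing a fixed edge set -/
theorem prob (n : ℕ) (F : Finset (Sym2 (Fin n))) (hF : F.card ≤ 20) (hn : 100 ≤ n) :
    n ^ F.card * (cub n F).card ≤ 9 ^ F.card * (cub n ∅).card := by
  classical
  induction F using Finset.induction_on with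
  | empty => simp
  | insert e F he ih =>
    rw [Finset.card_insert_of_notMem he] at hF ⊢
    have ih := ih (by omega)
    by_cases hd : e.IsDiag
    · have : cub n (insert e F) = ∅ := by
        rw [Finset.eq_empty_iff_forall_notMem]
        intro H hH
        rw [mem_cub] at hH
        exact H.not_isDiag_of_mem_edgeSet (hH.2 e (Finset.mem_insert_self _ _)) hd
      rw [this]
      simp
    · have h1 := switching n F e he (by omega) hd
      have h2 : n * (cub n (insert e F)).card ≤ 9 * (cub n F).card :=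
        (Nat.mul_le_mul_right _ (by omega)).trans h1
      calc n ^ (F.card + 1) * (cub n (insert e F)).card
          = n ^ F.card * (n * (cub n (insert e F)).card) := by ring
        _ ≤ n ^ F.card * (9 * (cub n F).card) := Nat.mul_le_mul_left _ h2
        _ = 9 * (n ^ F.card * (cub n F).card) := by ring
        _ ≤ 9 * (9 ^ F.card * (cub n ∅).card) := Nat.mul_le_mul_left _ ih
        _ = 9 ^ (F.card + 1) * (cub n ∅).card := by ring

end Switch

end Pool.Agent.OLD
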