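import Pool.Agent.OLD.Defs

/-!
# Twins are rare (module OLD/Twins)
-/

set_option autoImplicit false
set_option linter.unusedVariables false

namespace Pool.Agent.OLD

namespace TwinsM

/-- the six edges of `K_{2,3}` -/
def E6 : Finset (Sym2 (Fin 5)) := {s(0, 2), s(0, 3), s(0, 4), s(1, 2), s(1, 3), s(1, 4)}

theorem card_E6 : E6.card = 6 := by decide

theorem card_image {n : ℕ} {f : Fin 5 → Fin n} (hf : Function.Injective f) :
    (E6.image (Sym2.map f)).card = 6 := by
  rw [Finset.card_image_of_injective _ (Sym2.map.injective hf), card_E6]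

open scoped Classical in
theorem exists_of_twins {n : ℕ} {H : SimpleGraph (Fin n)} (hH : ∀ v, H.degree v = 3)
    (ht : HasTwins H) :
    ∃ f : Fin 5 → Fin n, Function.Injective f ∧ ∀ e ∈ E6.image (Sym2.map f), e ∈ H.edgeSet := by
  obtain ⟨u, v, huv, hN⟩ := ht
  have h3 := hH u
  rw [← SimpleGraph.card_neighborFinset_eq_degree, Finset.card_eq_three] at h3
  obtain ⟨a, b, c, hab, hac, hbc, hu⟩ := h3
  have hua : H.Adj u a := by
    rw [← SimpleGraph.mem_neighborFinset, hu]; simp
  have hub : H.Adj u b := by
    rw [← SimpleGraph.mem_neighborFinset, hu]; simp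
  have huc : H.Adj u c := by
    rw [← SimpleGraph.mem_neighborFinset, hu]; simp
  have hva : H.Adj v a := by
    rw [← SimpleGraph.mem_neighborFinset, ← hN, hu]; simp
  have hvb : H.Adj v b := by
    rw [← SimpleGraph.mem_neighborFinset, ← hN, hu]; simp
  have hvc : H.Adj v c := by
    rw [← SimpleGraph.mem_neighborFinset, ← hN, hu]; simp
  refine ⟨![u, v, a, b, c], ?_, ?_⟩
  · have e1 := hua.ne
    have e2 := hub.ne
    have e3 := huc.ne
    have e4 := hva.ne
    have e5 := hvb.ne
    have e6 := hvc.ne
    intro i j hij
    fin_cases i <;> fin_cases j <;> first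
      | rfl
      | (exfalso; simp at hij; first
          | exact huv hij | exact huv hij.symm | exact hab hij | exact hab hij.symm
          | exact hac hij | exact hac hij.symm | exact hbc hij | exact hbc hij.symm
          | exact e1 hij | exact e1 hij.symm | exact e2 hij | exact e2 hij.symm
          | exact e3 hij | exact e3 hij.symm | exact e4 hij | exact e4 hij.symm
          | exact e5 hij | exact e5 hij.symm | exact e6 hij | exact e6 hij.symm)
  · intro e he
    rw [Finset.mem_image] at he
    obtain ⟨e', he', rfl⟩ := he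
    unfold E6 at he'
    simp only [Finset.mem_insert, Finset.mem_singleton] at he'
    rcases he' with rfl | rfl | rfl | rfl | rfl | rfl <;>
      simp only [Sym2.map_mk, SimpleGraph.mem_edgeSet] <;>
      first
        | exact hua | exact hub | exact huc | exact hva | exact hvb | exact hvc

end TwinsM

open scoped Classical in
theorem expect_twins_of
    (prob : ∀ (n : ℕ) (F : Finset (Sym2 (Fin n))) (_ : F.card ≤ 20) (_ : 100 ≤ n),
      n ^ F.card * (cub n F).card ≤ 9 ^ F.card * (cub n ∅).card) : ∃ C : ℕ, ∀ n : ℕ,
    n * ((cub n ∅).filter fun H => HasTwins H).card ≤ C * (cub n ∅).card := by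
  refine ⟨100 + 9 ^ 6, fun n => ?_⟩
  rcases lt_or_ge n 100 with hn | hn
  · exact Nat.mul_le_mul (by omega) (Finset.card_filter_le _ _)
  · have hsub : ((cub n ∅).filter fun H => HasTwins H) ⊆
        (Finset.univ.filter fun f : Fin 5 → Fin n => Function.Injective f).biUnion
          fun f => cub n (TwinsM.E6.image (Sym2.map f)) := by
      intro H hH
      rw [Finset.mem_filter] at hH
      have h1 := hH.1
      unfold cub at h1
      simp only [Finset.mem_filter, Finset.mem_univ, true_and] at h1
      obtain ⟨f, hf, hE⟩ := TwinsM.exists_of_twins h1.1 hH.2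
      rw [Finset.mem_biUnion]
      refine ⟨f, by rw [Finset.mem_filter]; exact ⟨Finset.mem_univ _, hf⟩, ?_⟩
      unfold cub
      simp only [Finset.mem_filter, Finset.mem_univ, true_and]
      exact ⟨h1.1, hE⟩
    have h1 : ((cub n ∅).filter fun H => HasTwins H).card ≤
        ∑ f ∈ Finset.univ.filter (fun f : Fin 5 → Fin n => Function.Injective f),
          (cub n (TwinsM.E6.image (Sym2.map f))).card :=
      (Finset.card_le_card hsub).trans Finset.card_biUnion_le
    have h2 : n ^ 6 * ((cub n ∅).filter fun H => HasTwins H).card ≤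
        n ^ 5 * (9 ^ 6 * (cub n ∅).card) := by
      refine (Nat.mul_le_mul_left _ h1).trans ?_
      rw [Finset.mul_sum]
      refine (Finset.sum_le_sum (g := fun _ => 9 ^ 6 * (cub n ∅).card) fun f hf => ?_).trans ?_
      · rw [Finset.mem_filter] at hf
        have hc := TwinsM.card_image hf.2
        have := prob n (TwinsM.E6.image (Sym2.map f)) (by omega) hn
        rw [hc] at this
        exact this
      · rw [Finset.sum_const, smul_eq_mul]
        refine Nat.mul_le_mul_right _ ?_
        refine (Finset.card_filter_le _ _).trans ?_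
        rw [Finset.card_univ, Fintype.card_fun, Fintype.card_fin, Fintype.card_fin]
    have h3 : n ^ 5 * (n * ((cub n ∅).filter fun H => HasTwins H).card) ≤
        n ^ 5 * (9 ^ 6 * (cub n ∅).card) := by
      refine le_trans (le_of_eq ?_) h2
      ring
    refine (Nat.le_of_mul_le_mul_left h3 (pow_pos (by omega) _)).trans ?_
    exact Nat.mul_le_mul_right _ (by omega)

end Pool.Agent.OLD
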