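import Pool.Agent.OLD.Final
import Pool.Agent.OLD.Switch
import Pool.Agent.OLD.Near
import Pool.Agent.OLD.Twins

/-!
# Almost all cubic graphs
-/

set_option autoImplicit false

namespace Pool.Agent.OLD

open scoped Classical in
theorem expect_near : ∃ C : ℕ, ∀ n : ℕ,
    ∑ H ∈ cub n ∅, (Finset.univ.filter fun x => NearShort H x).card ≤ C * (cub n ∅).card :=
  expect_near_of prob

open scoped Classical in
theorem expect_twins : ∃ C : ℕ, ∀ n : ℕ,
    n * ((cub n ∅).filter fun H => HasTwins H).card ≤ C * (cub n ∅).card :=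
  expect_twins_of prob

open scoped Classical in
theorem good_of_few {n : ℕ} {H : SimpleGraph (Fin n)} (hH : H ∈ cub n ∅) (ht : ¬ HasTwins H)
    (hb : 10000 * (Finset.univ.filter fun x => NearShort H x).card ≤ n) :
    ∃ S : Finset (Fin n), IsOLD H S ∧ 2000 * S.card ≤ 1199 * n := by
  have hG : H.IsRegularOfDegree 3 := by
    intro v
    unfold cub at hH
    simp only [Finset.mem_filter, Finset.mem_univ, true_and] at hH
    exact hH.1 v
  obtain ⟨S, hS, hc⟩ := main hG ht
  refine ⟨S, hS, ?_⟩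
  rw [Fintype.card_subtype, Fintype.card_fin] at hc
  omega

open scoped Classical in
theorem almost_all : ∀ ε : ℝ, 0 < ε → ∃ N : ℕ, ∀ n ≥ N,
    (1 - ε) * ((cub n ∅).card : ℝ) ≤
      (((cub n ∅).filter fun H => ¬ HasTwins H ∧
        ∃ S : Finset (Fin n), IsOLD H S ∧ 2000 * S.card ≤ 1199 * n).card : ℝ) := by
  intro ε hε
  obtain ⟨C₁, hC₁⟩ := expect_near
  obtain ⟨C₂, hC₂⟩ := expect_twins
  obtain ⟨N, hN⟩ := exists_nat_gt ((10000 * C₁ + C₂ : ℝ) / ε)
  refine ⟨N + 1, fun n hn => ?_⟩
  set M := (cub n ∅).card with hM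
  set A := (cub n ∅).filter fun H => ¬ HasTwins H ∧
        ∃ S : Finset (Fin n), IsOLD H S ∧ 2000 * S.card ≤ 1199 * n with hA
  set B := (cub n ∅).filter fun H => HasTwins H with hB
  set C := (cub n ∅).filter fun H => n < 10000 * (Finset.univ.filter fun x => NearShort H x).card
    with hC
  -- everything is in one of the three sets
  have hcover : cub n ∅ ⊆ A ∪ (B ∪ C) := by
    intro H hH
    rw [Finset.mem_union, Finset.mem_union]
    by_cases ht : HasTwins H
    · exact Or.inr (Or.inl (Finset.mem_filter.mpr ⟨hH, ht⟩))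
    · by_cases hb : n < 10000 * (Finset.univ.filter fun x => NearShort H x).card
      · exact Or.inr (Or.inr (Finset.mem_filter.mpr ⟨hH, hb⟩))
      · exact Or.inl (Finset.mem_filter.mpr ⟨hH, ht, good_of_few hH ht (by omega)⟩)
  have h1 : M ≤ A.card + (B.card + C.card) :=
    (Finset.card_le_card hcover).trans ((Finset.card_union_le _ _).trans
      (Nat.add_le_add_left (Finset.card_union_le _ _) _))
  have h2 : n * B.card ≤ C₂ * M := hC₂ n
  have h3 : n * C.card ≤ 10000 * (C₁ * M) := by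
    calc n * C.card = ∑ H ∈ C, n := by rw [Finset.sum_const, smul_eq_mul, mul_comm]
      _ ≤ ∑ H ∈ C, 10000 * (Finset.univ.filter fun x => NearShort H x).card :=
          Finset.sum_le_sum fun H hH => (Finset.mem_filter.mp hH).2.le
      _ ≤ ∑ H ∈ cub n ∅, 10000 * (Finset.univ.filter fun x => NearShort H x).card :=
          Finset.sum_le_sum_of_subset (Finset.filter_subset _ _)
      _ = 10000 * ∑ H ∈ cub n ∅, (Finset.univ.filter fun x => NearShort H x).card := by
          rw [Finset.mul_sum]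
      _ ≤ 10000 * (C₁ * M) := Nat.mul_le_mul_left _ (hC₁ n)
  have hn0 : (0 : ℝ) < n := by
    have : 0 < n := by omega
    exact_mod_cast this
  have hnN : ((10000 * C₁ + C₂ : ℝ) / ε) < n := by
    refine hN.trans ?_
    exact_mod_cast (by omega : N < n)
  rw [div_lt_iff₀ hε] at hnN
  have h1' : (M : ℝ) ≤ A.card + (B.card + C.card) := by exact_mod_cast h1
  have h2' : (n : ℝ) * B.card ≤ C₂ * M := by exact_mod_cast h2
  have h3' : (n : ℝ) * C.card ≤ 10000 * (C₁ * M) := by exact_mod_cast h3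
  have hM0 : (0 : ℝ) ≤ M := Nat.cast_nonneg _
  have h4 : (n : ℝ) * ((1 - ε) * M) ≤ n * A.card := by
    have h5 : (10000 * C₁ + C₂ : ℝ) * M ≤ n * ε * M := mul_le_mul_of_nonneg_right hnN.le hM0
    nlinarith [mul_le_mul_of_nonneg_left h1' hn0.le]
  exact le_of_mul_le_mul_left h4 hn0

end Pool.Agent.OLD
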