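import Pool.Agent.OLD.Defs

/-!
# Basic facts on lines of cubic graphs and on non-backtracking walks
-/

set_option autoImplicit false

namespace Pool.Agent.OLD

/-! ## Segments -/
section Seg
variable {V : Type*} {G : SimpleGraph V}

/-- `Seg G x a b y n`: there is a non-backtracking walk of length `n ≥ 1` from `x` to `y` whose
second vertex is `a` and whose last but one vertex is `b`. -/
inductive Seg (G : SimpleGraph V) : V → V → V → V → ℕ → Prop
  | one {x y : V} (h : G.Adj x y) : Seg G x y x y 1
  | cons {x a a' b y : V} {n : ℕ} (h : G.Adj x a) (hne : x ≠ a') (s : Seg G a a' b y n) :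
      Seg G x a b y (n + 1)

theorem Seg.pos {x a b y : V} {n : ℕ} (h : Seg G x a b y n) : 1 ≤ n := by
  induction h <;> omega

theorem Seg.adj {x a b y : V} {n : ℕ} (h : Seg G x a b y n) : G.Adj x a := by
  cases h <;> assumption

theorem Seg.adj' {x a b y : V} {n : ℕ} (h : Seg G x a b y n) : G.Adj b y := by
  induction h <;> assumption

theorem Seg.trans {x a b y c d z : V} {n m : ℕ} (h : Seg G x a b y n) (h' : Seg G y c d z m)
    (hne : b ≠ c) : Seg G x a d z (n + m) := by
  induction h with
  | one h => rw [add_comm]; exact Seg.cons h hne h'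
  | cons h hne' s ih => rw [add_right_comm]; exact Seg.cons h hne' (ih h' hne)

theorem Seg.symm {x a b y : V} {n : ℕ} (h : Seg G x a b y n) : Seg G y b a x n := by
  induction h with
  | one h => exact Seg.one h.symm
  | cons h hne s ih => exact ih.trans (Seg.one h.symm) hne.symm

theorem Seg.two {x l y : V} (hx : G.Adj l x) (hy : G.Adj l y) (hxy : x ≠ y) :
    Seg G x l l y 2 :=
  Seg.cons hx.symm hxy (Seg.one hy)

theorem Seg.four {x l z l' y : V} (hx : G.Adj l x) (hz : G.Adj l z) (hz' : G.Adj l' z)
    (hy : G.Adj l' y) (hxz : x ≠ z) (hl : l ≠ l') (hzy : z ≠ y) : Seg G x l l' y 4 :=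
  (Seg.two hx hz hxz).trans (Seg.two hz' hy hzy) hl

theorem Seg.toWalk {x a b y : V} {n : ℕ} (h : Seg G x a b y n) :
    ∃ w : G.Walk x y, NBW G w ∧ w.length = n ∧ w.getVert 1 = a ∧ w.getVert (n - 1) = b := by
  induction h with
  | one h => exact ⟨SimpleGraph.Walk.cons h SimpleGraph.Walk.nil, by simp [NBW], by simp,
      by simp, by simp⟩
  | @cons x a a' b y n h hne s ih =>
    obtain ⟨w, hw, hl, h1, h2⟩ := ih
    have hn := s.pos
    refine ⟨SimpleGraph.Walk.cons h w, ?_, by simp [hl], by simp, ?_⟩
    · unfold NBW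
      rw [SimpleGraph.Walk.edges_cons, List.isChain_cons]
      refine ⟨?_, hw⟩
      intro e he
      cases w with
      | nil => simp at he
      | cons h' w' =>
        simp only [SimpleGraph.Walk.edges_cons, List.head?_cons, Option.mem_def,
          Option.some.injEq] at he
        simp only [SimpleGraph.Walk.getVert_cons_succ, SimpleGraph.Walk.getVert_zero] at h1
        subst h1
        rw [← he]
        intro hh
        rw [Sym2.eq_iff] at hh
        rcases hh with ⟨h3, h4⟩ | ⟨h3, -⟩
        · exact h.ne h3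
        · exact hne h3
    · obtain ⟨m, rfl⟩ : ∃ m, n = m + 1 := ⟨n - 1, by omega⟩
      simpa using h2

/-- the main property of good points -/
theorem Good.seg {x a b y a' b' : V} {n n' : ℕ} (hx : Good G x) (h : Seg G x a b y n)
    (h' : Seg G x a' b' y n') (hn : n + n' ≤ 20) : n = n' ∧ a = a' ∧ b = b' := by
  obtain ⟨w, hw, hl, h1, h2⟩ := h.toWalk
  obtain ⟨w', hw', hl', h1', h2'⟩ := h'.toWalk
  have := hx y w w' hw hw' (by omega)
  subst this
  refine ⟨by omega, by rw [← h1, ← h1'], ?_⟩
  rw [← h2, ← h2', ← hl, ← hl']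

/-- there is no short closed non-backtracking walk at a good point -/
theorem Good.not_seg {x a b : V} {n : ℕ} (hx : Good G x) (h : Seg G x a b x n) (hn : n ≤ 20) :
    False := by
  obtain ⟨w, hw, hl, -, -⟩ := h.toWalk
  have := hx x w SimpleGraph.Walk.nil hw (by simp [NBW]) (by simp [hl, hn])
  subst this
  have := h.pos
  simp at hl
  omega

/-- two lines through a good point have no other common point -/
theorem Good.two_lines {x s l l' : V} (hx : Good G x) (h1 : G.Adj l x) (h2 : G.Adj l' x)
    (h3 : G.Adj l s) (h4 : G.Adj l' s) (hs : s ≠ x) : l = l' :=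
  (hx.seg (Seg.two h1 h3 hs.symm) (Seg.two h2 h4 hs.symm) (by norm_num)).2.1

end Seg

variable {V : Type*} [Fintype V] [DecidableEq V] {G : SimpleGraph V} [DecidableRel G.Adj]

/-! ## Lines -/

/-- the three points of a line, `x` being one of them -/
theorem line_eq (hG : G.IsRegularOfDegree 3) {l x : V} (hx : G.Adj l x) :
    ∃ y z, y ≠ x ∧ z ≠ x ∧ z ≠ y ∧ G.Adj l y ∧ G.Adj l z ∧ G.neighborFinset l = {x, y, z} := by
  have h3 : (G.neighborFinset l).card = 3 := by
    rw [SimpleGraph.card_neighborFinset_eq_degree]; exact hG l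
  have hx' : x ∈ G.neighborFinset l := by simpa using hx
  have h2 : ((G.neighborFinset l).erase x).card = 2 := by
    rw [Finset.card_erase_of_mem hx', h3]
  obtain ⟨y, z, hyz, he⟩ := Finset.card_eq_two.mp h2
  have hy : y ∈ (G.neighborFinset l).erase x := by rw [he]; simp
  have hz : z ∈ (G.neighborFinset l).erase x := by rw [he]; simp
  rw [Finset.mem_erase, SimpleGraph.mem_neighborFinset] at hy hz
  refine ⟨y, z, hy.1, hz.1, hyz.symm, hy.2, hz.2, ?_⟩
  rw [← Finset.insert_erase hx', he]

/-- the third point of a line -/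
theorem exists_third (hG : G.IsRegularOfDegree 3) {l x y : V} (hx : G.Adj l x)
    (hy : G.Adj l y) (hxy : y ≠ x) :
    ∃ z, G.Adj l z ∧ z ≠ x ∧ z ≠ y ∧ ∀ w, G.Adj l w → w = x ∨ w = y ∨ w = z := by
  obtain ⟨a, b, hax, hbx, hba, ha, hb, he⟩ := line_eq hG hx
  have hy' : y ∈ G.neighborFinset l := by simpa using hy
  rw [he] at hy'
  simp only [Finset.mem_insert, Finset.mem_singleton] at hy'
  have hw : ∀ w, G.Adj l w → w = x ∨ w = a ∨ w = b := by
    intro w hw
    have : w ∈ G.neighborFinset l := by simpa using hw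
    rw [he] at this
    simpa using this
  rcases hy' with h | h | h
  · exact absurd h hxy
  · subst h
    exact ⟨b, hb, hbx, hba, hw⟩
  · subst h
    exact ⟨a, ha, hax, hba.symm, fun w h => by
      rcases hw w h with h | h | h
      · exact Or.inl h
      · exact Or.inr (Or.inr h)
      · exact Or.inr (Or.inl h)⟩

theorem cnt_eq_of_line {D : Finset V} {l x y z : V} (hyx : y ≠ x) (hzx : z ≠ x) (hzy : z ≠ y)
    (he : G.neighborFinset l = {x, y, z}) :
    cnt G D l = (if x ∈ D then 1 else 0) + (if y ∈ D then 1 else 0) + (if z ∈ D then 1 else 0) := by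
  unfold cnt
  rw [he]
  by_cases h1 : x ∈ D <;> by_cases h2 : y ∈ D <;> by_cases h3 : z ∈ D <;>
    simp [Finset.insert_inter_of_mem, Finset.insert_inter_of_notMem,
      Finset.singleton_inter_of_mem, Finset.singleton_inter_of_notMem, h1, h2, h3, hyx.symm,
      hzx.symm, hzy.symm]

theorem cnt_pos {D : Finset V} {l x : V} (hl : G.Adj l x) (hx : x ∈ D) : 1 ≤ cnt G D l :=
  Finset.card_pos.mpr ⟨x, by simp [hl, hx]⟩

theorem cnt_one_unique {D : Finset V} {l x y : V} (h : cnt G D l = 1) (hx : x ∈ D) (hy : y ∈ D)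
    (hlx : G.Adj l x) (hly : G.Adj l y) : x = y := by
  unfold cnt at h
  exact Finset.card_le_one.mp h.le x (by simp [hlx, hx]) y (by simp [hly, hy])

/-- if a line has at least two points in `D`, then it is `Hv` for each of its points outside -/
theorem hv_of_two_le (hG : G.IsRegularOfDegree 3) {D : Finset V} {l s : V} (h : 2 ≤ cnt G D l)
    (hl : G.Adj l s) (hs : s ∉ D) : Hv G D l s := by
  obtain ⟨y, z, hy, hz, hzy, hly, hlz, he⟩ := line_eq hG hl
  rw [cnt_eq_of_line hy hz hzy he] at h
  refine ⟨hl, fun w hw hws => ?_⟩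
  have hw' : w ∈ G.neighborFinset l := by simpa using hw
  rw [he] at hw'
  simp only [Finset.mem_insert, Finset.mem_singleton] at hw'
  rw [if_neg hs] at h
  have h1 : y ∈ D := by
    by_contra h1; rw [if_neg h1] at h; split_ifs at h <;> omega
  have h2 : z ∈ D := by
    by_contra h2; rw [if_neg h2] at h; split_ifs at h <;> omega
  rcases hw' with h | h | h
  · exact absurd h hws
  · rwa [h]
  · rwa [h]

/-- a line with two points in `D` is `Hv` for its third point -/
theorem exists_hv_of_cnt (hG : G.IsRegularOfDegree 3) {D : Finset V} {l : V}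
    (h : cnt G D l = 2) : ∃ s, s ∉ D ∧ Hv G D l s := by
  have h3 : (G.neighborFinset l).card = 3 := by
    rw [SimpleGraph.card_neighborFinset_eq_degree]; exact hG l
  have : ∃ s ∈ G.neighborFinset l, s ∉ D := by
    by_contra hcon
    push Not at hcon
    unfold cnt at h
    rw [Finset.inter_eq_left.mpr hcon, h3] at h
    omega
  obtain ⟨s, hs, hsD⟩ := this
  rw [SimpleGraph.mem_neighborFinset] at hs
  exact ⟨s, hsD, hv_of_two_le hG h.ge hs hsD⟩

theorem Hv.cnt_eq (hG : G.IsRegularOfDegree 3) {D : Finset V} {l s : V} (h : Hv G D l s)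
    (hs : s ∉ D) : cnt G D l = 2 := by
  obtain ⟨y, z, hy, hz, hzy, hly, hlz, he⟩ := line_eq hG h.1
  rw [cnt_eq_of_line hy hz hzy he, if_neg hs, if_pos (h.2 y hly hy), if_pos (h.2 z hlz hz)]

theorem Valid.notMem {D : Finset V} (hD : Valid G D) {l s : V} (h : Hv G D l s) : s ∉ D :=
  fun hs => hD.none s hs l h

theorem Valid.cnt_le (hG : G.IsRegularOfDegree 3) {D : Finset V} (hD : Valid G D) (l : V) :
    cnt G D l ≤ 2 := by
  have h3 : (G.neighborFinset l).card = 3 := by
    rw [SimpleGraph.card_neighborFinset_eq_degree]; exact hG l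
  by_contra hcon
  have h4 : cnt G D l = 3 := by
    have : cnt G D l ≤ 3 := by
      unfold cnt
      rw [← h3]
      exact Finset.card_le_card Finset.inter_subset_left
    omega
  have h5 : G.neighborFinset l ∩ D = G.neighborFinset l :=
    Finset.eq_of_subset_of_card_le Finset.inter_subset_left (by unfold cnt at h4; omega)
  have h6 : (G.neighborFinset l).Nonempty := Finset.card_pos.mp (by omega)
  obtain ⟨s, hs⟩ := h6
  have h7 : G.neighborFinset l ⊆ D := by
    rw [← h5]; exact Finset.inter_subset_right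
  refine hD.none s (h7 hs) l ⟨by simpa using hs, fun w hw _ => h7 (by simpa using hw)⟩

/-- the lines of an uncharged point have at most one point in `D` -/
theorem S0.cnt_le (hG : G.IsRegularOfDegree 3) {D : Finset V} {l x : V} (hx : S0 G D x)
    (hl : G.Adj l x) : cnt G D l ≤ 1 := by
  by_contra hcon
  exact hx.2 l (hv_of_two_le hG (by omega) hl hx.1)

/-- a light line has exactly one point in `D` -/
theorem exists_mem_of_cnt_one {D : Finset V} {l : V} (h : cnt G D l = 1) :
    ∃ y ∈ D, G.Adj l y := by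
  unfold cnt at h
  obtain ⟨y, hy⟩ := Finset.card_pos.mp (by omega : 0 < (G.neighborFinset l ∩ D).card)
  simp only [Finset.mem_inter, SimpleGraph.mem_neighborFinset] at hy
  exact ⟨y, hy.2, hy.1⟩

/-- the shape of a light line through a given point outside `D` -/
theorem light_shape (hG : G.IsRegularOfDegree 3) {D : Finset V} {l x : V} (h : cnt G D l = 1)
    (hl : G.Adj l x) (hx : x ∉ D) :
    ∃ y z, y ∈ D ∧ z ∉ D ∧ y ≠ x ∧ z ≠ x ∧ z ≠ y ∧ G.Adj l y ∧ G.Adj l z ∧
      ∀ w, G.Adj l w → w = x ∨ w = y ∨ w = z := by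
  obtain ⟨y, hy, hly⟩ := exists_mem_of_cnt_one h
  have hyx : y ≠ x := fun h => hx (h ▸ hy)
  obtain ⟨z, hlz, hzx, hzy, hall⟩ := exists_third hG hl hly hyx
  refine ⟨y, z, hy, ?_, hyx, hzx, hzy, hly, hlz, hall⟩
  intro hz
  exact hzy (cnt_one_unique h hz hy hlz hly)

/-- the shape of a blocking line -/
theorem BLine.shape (hG : G.IsRegularOfDegree 3) {D : Finset V} {l x : V} (h : BLine G D x l) :
    ∃ y z, y ∈ D ∧ S1 G D z ∧ y ≠ x ∧ z ≠ x ∧ z ≠ y ∧ G.Adj l y ∧ G.Adj l z ∧
      ∀ w, G.Adj l w → w = x ∨ w = y ∨ w = z := by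
  obtain ⟨hl, hx, hc, z', hz', hzx', hS⟩ := h
  obtain ⟨y, z, hy, hz, hyx, hzx, hzy, hly, hlz, hall⟩ := light_shape hG hc hl hx
  rcases hall z' hz' with h | h | h
  · exact absurd h hzx'
  · subst h; exact absurd hy hS.1
  · subst h; exact ⟨y, z', hy, hS, hyx, hzx, hzy, hly, hlz, hall⟩

/-- the lines through a point: exactly three -/
theorem card_lines (hG : G.IsRegularOfDegree 3) (x : V) :
    (Finset.univ.filter fun l => G.Adj l x).card = 3 := by
  have : (Finset.univ.filter fun l => G.Adj l x) = G.neighborFinset x := by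
    ext l; simp [SimpleGraph.adj_comm]
  rw [this, SimpleGraph.card_neighborFinset_eq_degree]
  exact hG x

theorem anum_add_bnum_add_tnum (hG : G.IsRegularOfDegree 3) {D : Finset V} {x : V}
    (hx : S0 G D x) : anum G D x + bnum G D x + tnum G D x = 3 := by
  classical
  rw [← card_lines hG x]
  have h1 : (Finset.univ.filter fun l => G.Adj l x) =
      ((Finset.univ.filter fun l => G.Adj l x ∧ cnt G D l = 1 ∧ ¬ BLine G D x l) ∪
        (Finset.univ.filter fun l => BLine G D x l)) ∪
        (Finset.univ.filter fun l => G.Adj l x ∧ cnt G D l = 0) := by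
    ext l
    simp only [Finset.mem_filter, Finset.mem_univ, true_and, Finset.mem_union]
    constructor
    · intro h
      have := hx.cnt_le hG h
      by_cases hb : BLine G D x l
      · exact Or.inl (Or.inr hb)
      · rcases Nat.lt_or_ge 0 (cnt G D l) with hc | hc
        · exact Or.inl (Or.inl ⟨h, by omega, hb⟩)
        · exact Or.inr ⟨h, by omega⟩
    · rintro ((h | h) | h)
      · exact h.1
      · exact h.1
      · exact h.1
  rw [h1, Finset.card_union_of_disjoint, Finset.card_union_of_disjoint]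
  · unfold anum bnum tnum
    congr!
  · rw [Finset.disjoint_filter]
    rintro l - h h'
    exact h.2.2 h'
  · rw [Finset.disjoint_left]
    intro l hl hl'
    simp only [Finset.mem_filter, Finset.mem_univ, true_and, Finset.mem_union] at hl hl'
    rcases hl with h | h
    · omega
    · have := h.2.2.1
      omega

end Pool.Agent.OLD
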