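import Pool.Agent.OLD.Valid

/-!
# Candidates can be swapped in; two exclusion rules
-/

set_option autoImplicit false

namespace Pool.Agent.OLD

variable {V : Type*} [Fintype V] [DecidableEq V] {G : SimpleGraph V} [DecidableRel G.Adj]

theorem bline_unique {D : Finset V} {x l l' : V} (h1 : bnum G D x = 1) (h : BLine G D x l)
    (h' : BLine G D x l') : l = l' := by
  classical
  unfold bnum at h1
  exact Finset.card_le_one.mp h1.le l (by simpa using h) l' (by simpa using h')

/-- an uncharged point can be added to a smaller set which destroys all its blocking lines -/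
theorem S0.addable (hG : G.IsRegularOfDegree 3) {D E : Finset V} {x : V} (hx : S0 G D x)
    (hE : E ⊆ D)
    (hb : ∀ l y z, BLine G D x l → G.Adj l y → G.Adj l z → y ∈ E → S1 G D z → ∀ l', ¬ Hv G E l' z) :
    Addable G E x := by
  have hmono : ∀ {l s}, Hv G E l s → Hv G D l s := fun h => ⟨h.1, fun w h1 h2 => hE (h.2 w h1 h2)⟩
  refine ⟨fun l h => hx.2 l (hmono h), ?_⟩
  intro l y s hlx hly hls hyx hsx hsy hy l' hl'
  have hc : cnt G D l = 1 := by
    have h1 := hx.cnt_le hG hlx
    have h2 := cnt_pos hly (hE hy)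
    omega
  have hs : s ∉ D := fun hs => hsy (cnt_one_unique hc hs (hE hy) hls hly)
  have hS : S1 G D s := ⟨hs, l', hmono hl'⟩
  exact hb l y s ⟨hlx, hx.1, hc, s, hls, hsx, hS⟩ hly hls hy hS l' hl'

theorem Cand.mem {D : Finset V} {v l c : V} (h : Cand G D v l c) : v ∈ D := by
  rcases h with h | ⟨z, l', h⟩ | h <;> exact h.1

theorem Cand.adj {D : Finset V} {v l c : V} (h : Cand G D v l c) : G.Adj l v := by
  rcases h with h | ⟨z, l', h⟩ | h <;> exact h.2.1

theorem Cand.good {D : Finset V} {v l c : V} (h : Cand G D v l c) : Good G c := by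
  rcases h with h | ⟨z, l', h⟩ | h
  · exact h.2.2.1.1
  · exact h.2.2.2.2.1.1
  · exact h.2.2.2.2.1

theorem Cand.notMem {D : Finset V} {v l c : V} (h : Cand G D v l c) : c ∉ D := by
  rcases h with h | ⟨z, l', h⟩ | h
  · exact h.2.2.1.2.1.1
  · exact h.2.2.2.2.1.2.1.1
  · exact h.2.2.1

theorem Cand.addable (hG : G.IsRegularOfDegree 3) {D : Finset V} (hD : Valid G D) {v l c : V}
    (h : Cand G D v l c) : Addable G (D.erase v) c := by
  rcases h with h | ⟨z, l', h⟩ | h
  · obtain ⟨hv, hlv, hX, hB⟩ := h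
    refine hX.2.1.addable hG (Finset.erase_subset _ _) ?_
    intro m y z hm hmy hmz hy hz l' hl'
    have : m = l := bline_unique hX.2.2 hm hB
    subst this
    have hyv : y = v := cnt_one_unique hB.2.2.1 (Finset.mem_of_mem_erase hy) hv hmy hlv
    exact Finset.ne_of_mem_erase hy hyv
  · obtain ⟨hv, hlv, hz, hH, hX, hB, hlz, hzc⟩ := h
    refine hX.2.1.addable hG (Finset.erase_subset _ _) ?_
    intro m y z' hm hmy hmz hy hz' k hk
    have hml : m = l' := bline_unique hX.2.2 hm hB
    subst hml
    -- `z' = z`: both are the charged points of the blocking line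
    have hk' : Hv G D k z' := ⟨hk.1, fun w h1 h2 => Finset.mem_of_mem_erase (hk.2 w h1 h2)⟩
    have hzz : z' = z := by
      obtain ⟨y0, z0, hy0, hz0, hy0c, hz0c, hz0y0, hly0, hlz0, hall⟩ := hB.shape hG
      have hcS : c ≠ z' := by
        rintro rfl; exact hX.2.1.2 k hk'
      have e1 : z' = z0 := by
        rcases hall z' hmz with h | h | h
        · exact absurd h.symm hcS
        · subst h; exact absurd hy0 hz'.1
        · exact h
      have e2 : z = z0 := by
        rcases hall z hlz with h | h | h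
        · exact absurd h hzc
        · subst h; exact absurd hy0 hz
        · exact h
      rw [e1, e2]
    subst hzz
    have hkl : k = l := hD.uniq _ _ _ hk' hH
    subst hkl
    have hvz : v ≠ z' := fun h => hz (h ▸ hv)
    exact Finset.ne_of_mem_erase (hk.2 v hlv hvz) rfl
  · obtain ⟨hv, hlv, hc, hH, hg, hb⟩ := h
    have hvc : v ≠ c := fun h => hc (h ▸ hv)
    have hmono : ∀ {l s}, Hv G (D.erase v) l s → Hv G D l s :=
      fun h => ⟨h.1, fun w h1 h2 => Finset.mem_of_mem_erase (h.2 w h1 h2)⟩
    refine ⟨?_, ?_⟩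
    · intro k hk
      have hkl : k = l := hD.uniq _ _ _ (hmono hk) hH
      subst hkl
      exact Finset.ne_of_mem_erase (hk.2 v hlv hvc) rfl
    · intro m y s hmc hmy hms hyc hsc hsy hy k hk
      have hk' := hmono hk
      have hsD : s ∉ D := hD.notMem hk'
      have hyD : y ∈ D := Finset.mem_of_mem_erase hy
      by_cases hml : m = l
      · subst hml
        exact hsD (hH.2 s hms hsc)
      · have hcnt : cnt G D m = 1 := by
          have h1 := hD.cnt_le hG m
          have h2 := cnt_pos hmy hyD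
          rcases Nat.lt_or_ge (cnt G D m) 2 with h3 | h3
          · omega
          · exact absurd (hD.uniq _ _ _ (hv_of_two_le hG h3 hmc hc) hH) hml
        exact hb m ⟨hmc, hc, hcnt, s, hms, hsc, hsD, k, hk'⟩

/-- a candidate can be swapped in -/
theorem cand_swap (hG : G.IsRegularOfDegree 3) {D : Finset V} (hD : Opt G D) {v l c : V}
    (h : Cand G D v l c) :
    c ∉ D ∧ Good G c ∧ Valid G (insert c (D.erase v)) ∧ Addable G (D.erase v) c := by
  refine ⟨h.notMem, h.good, ?_, h.addable hG hD.valid⟩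
  have h1 : insert c (D.erase v) = D.erase v ∪ {c} := by
    rw [Finset.insert_eq, Finset.union_comm]
  rw [h1]
  refine valid_union hG (hD.valid.mono (Finset.erase_subset _ _)) ?_ ?_ ?_ ?_
  · intro x hx; rw [Finset.mem_singleton] at hx; rw [hx]; exact h.good
  · rw [Finset.disjoint_singleton_right]
    exact fun hc => h.notMem (Finset.mem_of_mem_erase hc)
  · intro x hx; rw [Finset.mem_singleton] at hx; rw [hx]; exact h.addable hG hD.valid
  · intro x hx y hy hxy
    rw [Finset.mem_singleton] at hx hy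
    exact absurd (hx.trans hy.symm) hxy

/-- the segment from a point of `D` to a candidate -/
theorem Cand.seg {D : Finset V} {v l c : V} (h : Cand G D v l c) :
    Seg G v l l c 2 ∨ ∃ b, Seg G v l b c 4 := by
  rcases h with h | ⟨z, l', h⟩ | h
  · obtain ⟨hv, hlv, hX, hB⟩ := h
    exact Or.inl (Seg.two hlv hB.1 fun h => hX.2.1.1 (h ▸ hv))
  · obtain ⟨hv, hlv, hz, hH, hX, hB, hlz, hzc⟩ := h
    refine Or.inr ⟨l', Seg.four hlv hH.1 hlz hB.1 (fun h => hz (h ▸ hv)) ?_ hzc⟩
    rintro rfl
    exact hX.2.1.1 (hH.2 c hB.1 hzc.symm)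
  · obtain ⟨hv, hlv, hc, hH, -⟩ := h
    exact Or.inl (Seg.two hlv hH.1 fun h => hc (h ▸ hv))

/-- the segment between a blocked point and a point of `D` whose removal helps -/
theorem Tow.seg {D : Finset V} {p l v k : V} (h : Tow G D p l v k) :
    (k = l ∧ Seg G p l l v 2) ∨ (k ≠ l ∧ Seg G p l k v 4) := by
  obtain ⟨hB, hv, hkv, hk⟩ := h
  have hp : p ∉ D := hB.2.1
  by_cases hkl : k = l
  · subst hkl
    exact Or.inl ⟨rfl, Seg.two hB.1 hkv fun h => hp (h ▸ hv)⟩
  · rcases hk with h | ⟨z, hlz, hzp, hz, hH⟩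
    · exact absurd h hkl
    · exact Or.inr ⟨hkl, Seg.four hB.1 hlz hH.1 hkv hzp.symm (Ne.symm hkl)
        (fun h => hz (h ▸ hv))⟩

omit [Fintype V] [DecidableEq V] [DecidableRel G.Adj] in
theorem Inter.symm {E : Finset V} {x y : V} (h : Inter G E x y) : Inter G E y x := by
  rcases h with ⟨l, h1, h2⟩ | ⟨l, l', s, h1, h2, h3, h4, h5, h6, h7, h8, h9⟩
  · exact Or.inl ⟨l, h2, h1⟩
  · exact Or.inr ⟨l', l, s, h1.symm, h3, h2, h6, h7, h4, h5, h9, h8⟩

omit [Fintype V] [DecidableEq V] [DecidableRel G.Adj] in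
/-- the segments given by an obstruction -/
theorem Inter.seg {E : Finset V} {x y : V} (h : Inter G E x y) (hxy : x ≠ y) :
    (∃ m, Seg G x m m y 2) ∨ ∃ l l' s, Seg G x l l' y 4 ∧ l ≠ l' ∧ s ≠ x ∧ s ≠ y ∧ G.Adj l s ∧
      G.Adj l' s ∧ (∀ w, G.Adj l w → w ≠ x → w ≠ s → w ∈ E) ∧
      (∀ w, G.Adj l' w → w ≠ y → w ≠ s → w ∈ E) := by
  rcases h with ⟨l, h1, h2⟩ | ⟨l, l', s, h1, h2, h3, h4, h5, h6, h7, h8, h9⟩
  · exact Or.inl ⟨l, Seg.two h1 h2 hxy⟩
  · exact Or.inr ⟨l, l', s, Seg.four h4 h5 h7 h6 h2.symm h1 h3, h1, h2, h3, h5, h7, h8, h9⟩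

theorem Cand.seg' {D : Finset V} {v l c : V} (h : Cand G D v l c) :
    ∃ b n, Seg G v l b c n ∧ (n = 2 ∧ b = l ∨ n = 4) := by
  rcases h.seg with h | ⟨b, h⟩
  · exact ⟨l, 2, h, Or.inl ⟨rfl, rfl⟩⟩
  · exact ⟨b, 4, h, Or.inr rfl⟩

theorem Tow.seg' {D : Finset V} {p l v k : V} (h : Tow G D p l v k) :
    ∃ n, Seg G p l k v n ∧ (n = 2 ∧ k = l ∨ n = 4) := by
  rcases h.seg with ⟨rfl, h⟩ | ⟨-, h⟩
  · exact ⟨2, h, Or.inl ⟨rfl, rfl⟩⟩
  · exact ⟨4, h, Or.inr rfl⟩

/-- a candidate on a line whose third point is also in `D` is of type gamma -/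
theorem Cand.candC {D : Finset V} {v l c w : V} (h : Cand G D v l c) (hc : G.Adj l c)
    (hw : G.Adj l w) (hwv : w ≠ v) (hwD : w ∈ D) : CandC G D v l c := by
  rcases h with h | ⟨z, l', h⟩ | h
  · obtain ⟨hv, hlv, hX, hB⟩ := h
    exact absurd (cnt_one_unique hB.2.2.1 hwD hv hw hlv) hwv
  · obtain ⟨hv, hlv, hz, hH, hX, hB, hlz, hzc⟩ := h
    exact absurd (hH.2 c hc hzc.symm) hX.2.1.1
  · exact h

/-- R1 -/
theorem cand_two (hG : G.IsRegularOfDegree 3) {D : Finset V} (hD : Opt G D) {v l c l' c' : V}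
    (h : Cand G D v l c) (h' : Cand G D v l' c') (hl : l ≠ l') : CandC G D v l c := by
  by_contra hcon
  obtain ⟨b, n, hs, hn⟩ := h.seg'
  obtain ⟨b', n', hs', hn'⟩ := h'.seg'
  have hv := h.mem
  have hgv := hD.good v hv
  have hcc : c ≠ c' := by
    rintro rfl
    exact hl (hgv.seg hs hs' (by omega)).2.1
  have hlong := hs.symm.trans hs' hl
  have hni : ¬ Inter G (D.erase v) c c' := by
    intro hi
    rcases hi.seg hcc with ⟨m, hm⟩ | ⟨m, m', s, hm, hmm, hsc, hsc', hms, hms', hE, hE'⟩
    · have := (h.good.seg hlong hm (by omega)).1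
      omega
    · obtain ⟨h1, h2, h3⟩ := h.good.seg hlong hm (by omega)
      have hb : b = l := by
        rcases hn with ⟨-, h0⟩ | h0
        · exact h0
        · exfalso; omega
      have hb' : b' = l' := by
        rcases hn' with ⟨-, h0⟩ | h0
        · exact h0
        · exfalso; omega
      subst hb
      subst hb'
      subst h2
      subst h3
      have hsv : s = v := by
        by_contra hsv
        exact hl (hgv.two_lines h.adj h'.adj hms hms' hsv)
      subst hsv
      obtain ⟨w, hw, hwc, hwv, -⟩ := exists_third hG hs.adj' h.adj (fun h0 => h.notMem (h0 ▸ hv))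
      exact hcon (h.candC hs.adj' hw hwv (Finset.mem_of_mem_erase (hE w hw hwc hwv)))
  have hval : Valid G (D.erase v ∪ {c, c'}) := by
    refine valid_union hG (hD.valid.mono (Finset.erase_subset _ _)) ?_ ?_ ?_ ?_
    · intro x hx
      simp only [Finset.mem_insert, Finset.mem_singleton] at hx
      rcases hx with rfl | rfl
      exacts [h.good, h'.good]
    · rw [Finset.disjoint_right]
      intro x hx
      simp only [Finset.mem_insert, Finset.mem_singleton] at hx
      rcases hx with rfl | rfl
      exacts [fun hc => h.notMem (Finset.mem_of_mem_erase hc),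
        fun hc => h'.notMem (Finset.mem_of_mem_erase hc)]
    · intro x hx
      simp only [Finset.mem_insert, Finset.mem_singleton] at hx
      rcases hx with rfl | rfl
      exacts [h.addable hG hD.valid, h'.addable hG hD.valid]
    · intro x hx y hy hxy
      simp only [Finset.mem_insert, Finset.mem_singleton] at hx hy
      rcases hx with rfl | rfl <;> rcases hy with rfl | rfl
      · exact absurd rfl hxy
      · exact hni
      · exact fun hi => hni hi.symm
      · exact absurd rfl hxy
  have hcard : (D.erase v ∪ {c, c'}).card = D.card + 1 := by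
    rw [Finset.card_union_of_disjoint, Finset.card_pair hcc, Finset.card_erase_of_mem hv]
    · have := Finset.card_pos.mpr ⟨v, hv⟩
      omega
    · rw [Finset.disjoint_right]
      intro x hx
      simp only [Finset.mem_insert, Finset.mem_singleton] at hx
      rcases hx with rfl | rfl
      exacts [fun hc => h.notMem (Finset.mem_of_mem_erase hc),
        fun hc => h'.notMem (Finset.mem_of_mem_erase hc)]
  have hmax := hD.max _ hval (by
    intro x hx
    simp only [Finset.mem_union, Finset.mem_insert, Finset.mem_singleton] at hx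
    rcases hx with hx | rfl | rfl
    exacts [hD.good x (Finset.mem_of_mem_erase hx), h.good, h'.good])
  omega

/-- a candidate on another line than the line towards `p` does not obstruct `p` -/
theorem not_inter_toward {D E : Finset V} (hD : ∀ x ∈ D, Good G x) (hE : E ⊆ D)
    {p l v k m c : V} (ht : Tow G D p l v k) (h : Cand G D v m c) (hmk : m ≠ k) :
    ¬ Inter G E c p := by
  obtain ⟨b, n, hs, hn⟩ := h.seg'
  obtain ⟨n', hs', hn'⟩ := ht.seg'
  have hlong := hs.symm.trans hs'.symm hmk
  have hcp : c ≠ p := by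
    rintro rfl
    exact h.good.not_seg hlong (by omega)
  have hv := h.mem
  intro hi
  rcases hi.seg hcp with ⟨m', hm⟩ | ⟨m1, m2, s, hm, hmm, hsc, hsp, hms, hms', hE1, hE2⟩
  · have := (h.good.seg hlong hm (by omega)).1
    omega
  · obtain ⟨h1, h2, h3⟩ := h.good.seg hlong hm (by omega)
    have hb : b = m := by
      rcases hn with ⟨-, h0⟩ | h0
      · exact h0
      · exfalso; omega
    have hk : k = l := by
      rcases hn' with ⟨-, h0⟩ | h0
      · exact h0
      · exfalso; omega
    subst hb
    subst hk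
    subst h2
    subst h3
    have hsv : s = v := by
      by_contra hsv
      exact hmk ((hD v hv).two_lines h.adj ht.2.2.1 hms hms' hsv)
    subst hsv
    obtain ⟨z, hz, hzp, hzS⟩ := ht.1.2.2.2
    exact hzS.1 (hE (hE2 z hz hzp fun h0 => hzS.1 (h0 ▸ hv)))

/-- removing a point of `Tow` destroys the obstruction -/
theorem Tow.kills (hG : G.IsRegularOfDegree 3) {D E : Finset V} (hD : Valid G D) (hE : E ⊆ D)
    {p l v k : V} (ht : Tow G D p l v k) (hv : v ∉ E) {y z : V} (hy : G.Adj l y)
    (hz : G.Adj l z) (hyE : y ∈ E) (hzS : S1 G D z) (hp : S0 G D p) (k' : V) :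
    ¬ Hv G E k' z := by
  intro hk'
  obtain ⟨hB, hvD, hkv, hk⟩ := ht
  have hk'' : Hv G D k' z := ⟨hk'.1, fun w h1 h2 => hE (hk'.2 w h1 h2)⟩
  rcases hk with rfl | ⟨z', hlz', hz'p, hz', hH⟩
  · have : y = v := cnt_one_unique hB.2.2.1 (hE hyE) hvD hy hkv
    exact hv (this ▸ hyE)
  · obtain ⟨y0, z0, hy0, hz0, hy0c, hz0c, hz0y0, hly0, hlz0, hall⟩ := hB.shape hG
    have e1 : z = z0 := by
      rcases hall z hz with h | h | h
      · exact absurd (h ▸ hk'') (hp.2 k')
      · exact absurd (h ▸ hy0) hzS.1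
      · exact h
    have e2 : z' = z0 := by
      rcases hall z' hlz' with h | h | h
      · exact absurd h hz'p
      · exact absurd (h ▸ hy0) hz'
      · exact h
    rw [← e1] at e2
    subst e2
    have hkk : k' = k := hD.uniq _ _ _ hk'' hH
    subst hkk
    exact hv (hk'.2 v hkv fun h => hz' (h ▸ hvD))

/-- Rule C -/
theorem clean_or_clean (hG : G.IsRegularOfDegree 3) {D : Finset V} (hD : Opt G D) {p l l' : V}
    (hp : YY G D p) (h : BLine G D p l) (h' : BLine G D p l') (hl : l ≠ l') :
    Clean G D p l ∨ Clean G D p l' := by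
  classical
  by_contra hcon
  push Not at hcon
  obtain ⟨hc1, hc2⟩ := hcon
  have hx1 : ∃ v k, Tow G D p l v k ∧ ∃ m c, m ≠ k ∧ Cand G D v m c := by
    by_contra hx
    push Not at hx
    exact hc1 ⟨h, fun v k hv m c hm => hx v k hv m c hm⟩
  have hx2 : ∃ v k, Tow G D p l' v k ∧ ∃ m c, m ≠ k ∧ Cand G D v m c := by
    by_contra hx
    push Not at hx
    exact hc2 ⟨h', fun v k hv m c hm => hx v k hv m c hm⟩
  obtain ⟨v1, k1, ht1, m1, c1, hm1, hk1⟩ := hx1
  obtain ⟨v2, k2, ht2, m2, c2, hm2, hk2⟩ := hx2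
  obtain ⟨b1, a1, hs1, ha1⟩ := hk1.seg'
  obtain ⟨b2, a2, hs2, ha2⟩ := hk2.seg'
  obtain ⟨n1, hr1, hn1⟩ := ht1.seg'
  obtain ⟨n2, hr2, hn2⟩ := ht2.seg'
  have hgp : Good G p := hp.1
  have hv12 : v1 ≠ v2 := by
    rintro rfl
    exact hl (hgp.seg hr1 hr2 (by omega)).2.1
  have hL1 := hs1.symm.trans hr1.symm hm1
  have hL2 := hs2.symm.trans hr2.symm hm2
  have hL := hL1.trans hL2.symm hl
  have hcc : c1 ≠ c2 := by
    rintro rfl
    exact hk1.good.not_seg hL (by omega)
  have hc1p : c1 ≠ p := by
    rintro rfl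
    exact hk1.good.not_seg hL1 (by omega)
  have hc2p : c2 ≠ p := by
    rintro rfl
    exact hk2.good.not_seg hL2 (by omega)
  set E := (D.erase v1).erase v2 with hEdef
  have hED : E ⊆ D := (Finset.erase_subset _ _).trans (Finset.erase_subset _ _)
  have hE1 : E ⊆ D.erase v1 := Finset.erase_subset _ _
  have hE2 : E ⊆ D.erase v2 := by
    rw [hEdef, Finset.erase_right_comm]; exact Finset.erase_subset _ _
  have hni1 := not_inter_toward hD.good hED ht1 hk1 hm1
  have hni2 := not_inter_toward hD.good hED ht2 hk2 hm2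
  have hni : ¬ Inter G E c1 c2 := by
    intro hi
    rcases hi.seg hcc with ⟨m', hm⟩ | ⟨m1, m2, s, hm, -⟩
    · have := (hk1.good.seg hL hm (by omega)).1
      omega
    · have := (hk1.good.seg hL hm (by omega)).1
      omega
  have hpa : Addable G E p := by
    refine hp.2.1.addable hG hED ?_
    intro l0 y z hB hy hz hyE hzS k'
    have hl0 : l0 = l ∨ l0 = l' := by
      have hb := hp.2.2
      unfold bnum at hb
      by_contra hne
      push Not at hne
      have h3 : ({l0, l, l'} : Finset V) ⊆ Finset.univ.filter fun l => BLine G D p l := by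
        intro x hx
        simp only [Finset.mem_insert, Finset.mem_singleton] at hx
        simp only [Finset.mem_filter, Finset.mem_univ, true_and]
        rcases hx with rfl | rfl | rfl
        exacts [hB, h, h']
      have h4 := Finset.card_le_card h3
      rw [Finset.card_eq_three.mpr ⟨l0, l, l', hne.1, hne.2, hl, rfl⟩] at h4
      omega
    rcases hl0 with rfl | rfl
    · exact ht1.kills hG hD.valid hED (by simp [hEdef]) hy hz hyE hzS hp.2.1 k'
    · exact ht2.kills hG hD.valid hED (by simp [hEdef]) hy hz hyE hzS hp.2.1 k'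
  have hdis : Disjoint E {c1, c2, p} := by
    rw [Finset.disjoint_right]
    intro x hx
    simp only [Finset.mem_insert, Finset.mem_singleton] at hx
    rcases hx with rfl | rfl | rfl
    exacts [fun hc => hk1.notMem (hED hc), fun hc => hk2.notMem (hED hc),
      fun hc => hp.2.1.1 (hED hc)]
  have hgA : ∀ x ∈ ({c1, c2, p} : Finset V), Good G x := by
    intro x hx
    simp only [Finset.mem_insert, Finset.mem_singleton] at hx
    rcases hx with rfl | rfl | rfl
    exacts [hk1.good, hk2.good, hgp]
  have hval : Valid G (E ∪ {c1, c2, p}) := by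
    refine valid_union hG (hD.valid.mono hED) hgA hdis ?_ ?_
    · intro x hx
      simp only [Finset.mem_insert, Finset.mem_singleton] at hx
      rcases hx with rfl | rfl | rfl
      exacts [(hk1.addable hG hD.valid).mono hE1, (hk2.addable hG hD.valid).mono hE2, hpa]
    · intro x hx y hy hxy
      simp only [Finset.mem_insert, Finset.mem_singleton] at hx hy
      rcases hx with rfl | rfl | rfl <;> rcases hy with rfl | rfl | rfl
      · exact absurd rfl hxy
      · exact hni
      · exact hni1
      · exact fun hi => hni hi.symm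
      · exact absurd rfl hxy
      · exact hni2
      · exact fun hi => hni1 hi.symm
      · exact fun hi => hni2 hi.symm
      · exact absurd rfl hxy
  have hv1 := hk1.mem
  have hv2 := hk2.mem
  have hcard : (E ∪ {c1, c2, p}).card = D.card + 1 := by
    rw [Finset.card_union_of_disjoint hdis, hEdef, Finset.card_erase_of_mem,
      Finset.card_erase_of_mem hv1, Finset.card_eq_three.mpr ⟨c1, c2, p, hcc, hc1p, hc2p, rfl⟩]
    · have : 2 ≤ D.card := by
        have := Finset.card_le_card (show ({v1, v2} : Finset V) ⊆ D by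
          intro x hx
          simp only [Finset.mem_insert, Finset.mem_singleton] at hx
          rcases hx with rfl | rfl
          exacts [hv1, hv2])
        rwa [Finset.card_pair hv12] at this
      omega
    · exact Finset.mem_erase.mpr ⟨hv12.symm, hv2⟩
  have hmax := hD.max _ hval (by
    intro x hx
    rw [Finset.mem_union] at hx
    rcases hx with hx | hx
    exacts [hD.good x (hED hx), hgA x hx])
  omega

end Pool.Agent.OLD
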