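import Mathlib

/-!
# Open locating-dominating sets in cubic graphs with few short cycles (MP_3363dc_co)

`G` is a finite cubic graph.  Every vertex plays two roles: as a *point* and as a *line*
(the line `l` is the set `N(l)` of its three neighbours).  `G.Adj l x` is read: `x` is on the
line `l`.  `D` is the complement of the set we construct.
-/

set_option autoImplicit false

namespace Pool.Agent.OLD

section
variable {V : Type*} (G : SimpleGraph V)

/-- a walk is non-backtracking if consecutive edges are different -/
def NBW {x y : V} (p : G.Walk x y) : Prop := p.edges.IsChain (· ≠ ·)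

/-- `x` is *good*: two non-backtracking walks from `x` with the same end and total length at
most `20` are equal. -/
def Good (x : V) : Prop :=
  ∀ (y : V) (p q : G.Walk x y), NBW G p → NBW G q → p.length + q.length ≤ 20 → p = q

/-- `x` is at distance at most `10` from a cycle of length at most `20` -/
def NearShort (x : V) : Prop :=
  ∃ (u : V) (c : G.Walk u u) (p : G.Walk x u), c.IsCycle ∧ c.length ≤ 20 ∧ p.length ≤ 10

end

variable {V : Type*} [Fintype V] [DecidableEq V] (G : SimpleGraph V) [DecidableRel G.Adj]

/-- `Hv G D l s`: the line `l` contains `s` and all its other points are in `D`. -/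
def Hv (D : Finset V) (l s : V) : Prop := G.Adj l s ∧ ∀ w, G.Adj l w → w ≠ s → w ∈ D

/-- valid sets: no line inside `D`, and every point is the only point outside `D` of at most one
line. -/
structure Valid (D : Finset V) : Prop where
  none : ∀ s ∈ D, ∀ l, ¬ Hv G D l s
  uniq : ∀ s l l', Hv G D l s → Hv G D l' s → l = l'

/-- number of points of the line `l` in `D` -/
def cnt (D : Finset V) (l : V) : ℕ := (G.neighborFinset l ∩ D).card

/-- charged points: outside `D`, and the only point outside `D` of some line -/
def S1 (D : Finset V) (z : V) : Prop := z ∉ D ∧ ∃ l, Hv G D l z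

/-- uncharged points outside `D` -/
def S0 (D : Finset V) (z : V) : Prop := z ∉ D ∧ ∀ l, ¬ Hv G D l z

/-- number of heavy lines (two points in `D`) -/
def hc (D : Finset V) : ℕ := (Finset.univ.filter fun l => cnt G D l = 2).card

/-- number of light lines (one point in `D`) -/
def h1 (D : Finset V) : ℕ := (Finset.univ.filter fun l => cnt G D l = 1).card

/-- `D` is optimal among the valid sets consisting of good points: largest size and, for this
size, fewest heavy lines -/
structure Opt (D : Finset V) : Prop where
  valid : Valid G D
  good : ∀ x ∈ D, Good G x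
  max : ∀ D', Valid G D' → (∀ x ∈ D', Good G x) → D'.card ≤ D.card
  min : ∀ D', Valid G D' → (∀ x ∈ D', Good G x) → D'.card = D.card → hc G D ≤ hc G D'

/-- `BLine G D x l`: `l` is a light line (one point in `D`) through `x ∉ D` whose third point is
charged; such a line blocks `x`. -/
def BLine (D : Finset V) (x l : V) : Prop :=
  G.Adj l x ∧ x ∉ D ∧ cnt G D l = 1 ∧ ∃ z, G.Adj l z ∧ z ≠ x ∧ S1 G D z

open scoped Classical in
/-- number of blocking lines of `x` -/
noncomputable def bnum (D : Finset V) (x : V) : ℕ := (Finset.univ.filter fun l => BLine G D x l).card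

open scoped Classical in
/-- number of light lines at `x` which are not blocking -/
noncomputable def anum (D : Finset V) (x : V) : ℕ :=
  (Finset.univ.filter fun l => G.Adj l x ∧ cnt G D l = 1 ∧ ¬ BLine G D x l).card

/-- number of empty lines at `x` -/
def tnum (D : Finset V) (x : V) : ℕ :=
  (Finset.univ.filter fun l => G.Adj l x ∧ cnt G D l = 0).card

open scoped Classical in
/-- number of light lines with two charged points -/
noncomputable def s11 (D : Finset V) : ℕ :=
  (Finset.univ.filter fun l => ∃ x, S1 G D x ∧ BLine G D x l).card

open scoped Classical in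
/-- number of points which are not good -/
noncomputable def bad : ℕ := (Finset.univ.filter fun x => ¬ Good G x).card

open scoped Classical in
/-- the finset of uncharged points outside `D` -/
noncomputable def S0s (D : Finset V) : Finset V := Finset.univ.filter fun x => S0 G D x

/-- uncharged good points outside `D` with exactly one blocking line -/
def XX (D : Finset V) (x : V) : Prop := Good G x ∧ S0 G D x ∧ bnum G D x = 1

/-- uncharged good points outside `D` with exactly two blocking lines -/
def YY (D : Finset V) (x : V) : Prop := Good G x ∧ S0 G D x ∧ bnum G D x = 2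

/-- candidate of type alpha at `(v, l)`: `v ∈ D` is the point in `D` of the blocking line `l` of
`c`, which has no other blocking line -/
def CandA (D : Finset V) (v l c : V) : Prop :=
  v ∈ D ∧ G.Adj l v ∧ XX G D c ∧ BLine G D c l

/-- candidate of type beta at `(v, l)`: `l` is heavy, `z` is its point outside `D`, and `z` is on
the only blocking line `l'` of `c` -/
def CandB (D : Finset V) (v l c z l' : V) : Prop :=
  v ∈ D ∧ G.Adj l v ∧ z ∉ D ∧ Hv G D l z ∧ XX G D c ∧ BLine G D c l' ∧ G.Adj l' z ∧ z ≠ c

/-- candidate of type gamma at `(v, l)`: `l` is heavy and its point `c` outside `D` is good and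
not on a light line with another charged point -/
def CandC (D : Finset V) (v l c : V) : Prop :=
  v ∈ D ∧ G.Adj l v ∧ c ∉ D ∧ Hv G D l c ∧ Good G c ∧ ∀ l', ¬ BLine G D c l'

/-- candidate `c` at `(v, l)` -/
def Cand (D : Finset V) (v l c : V) : Prop :=
  CandA G D v l c ∨ (∃ z l', CandB G D v l c z l') ∨ CandC G D v l c

/-- `Tow G D p l v k`: `l` is a blocking line of `p`, and `v` is one of the three points of `D`
whose removal destroys this obstruction; `k` is the line at `v` towards `p`. -/
def Tow (D : Finset V) (p l v k : V) : Prop :=
  BLine G D p l ∧ v ∈ D ∧ G.Adj k v ∧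
    (k = l ∨ ∃ z, G.Adj l z ∧ z ≠ p ∧ z ∉ D ∧ Hv G D k z)

/-- the blocking line `l` of `p` is clean: no point of `Tow` has a candidate on another line -/
def Clean (D : Finset V) (p l : V) : Prop :=
  BLine G D p l ∧ ∀ v k, Tow G D p l v k → ∀ m c, m ≠ k → ¬ Cand G D v m c

/-- open locating-dominating set -/
def IsOLD (S : Finset V) : Prop :=
  (∀ v, ∃ s ∈ S, G.Adj v s) ∧
    ∀ u v, u ≠ v → G.neighborFinset u ∩ S ≠ G.neighborFinset v ∩ S

/-- open twins -/
def HasTwins : Prop := ∃ u v, u ≠ v ∧ G.neighborFinset u = G.neighborFinset v

open scoped Classical in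
/-- the labelled cubic graphs on `Fin n` containing the edges in `F` -/
noncomputable def cub (n : ℕ) (F : Finset (Sym2 (Fin n))) : Finset (SimpleGraph (Fin n)) :=
  Finset.univ.filter fun H => (∀ v, H.degree v = 3) ∧ ∀ e ∈ F, e ∈ H.edgeSet

end Pool.Agent.OLD
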