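import Pool.Agent.OLD.Pot

/-!
# The discharging
-/

set_option autoImplicit false

namespace Pool.Agent.OLD

open scoped Classical in
section

variable {V : Type*} [Fintype V] [DecidableEq V] (G : SimpleGraph V) [DecidableRel G.Adj]

/-- uncharged good points with at least two blocking lines -/
def ZZ (D : Finset V) (p : V) : Prop := Good G p ∧ S0 G D p ∧ 2 ≤ bnum G D p

/-- K gates -/
def Kt (D : Finset V) (z : V) : Prop :=
  S1 G D z ∧ (¬ Good G z ∨ ∃ l, BLine G D z l) ∧ ¬ ∃ x l, XX G D x ∧ BLine G D x l ∧ G.Adj l z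

/-- lines with a K gate -/
def KtL (D : Finset V) (l : V) : Prop := ∃ z, G.Adj l z ∧ Kt G D z

/-- there is a clean line at `z` -/
def HasClean (D : Finset V) (z : V) : Prop := ∃ p l, ZZ G D p ∧ Clean G D p l ∧ G.Adj l z

/-- the amount a line gives to each of its points in `D` -/
noncomputable def ff (D : Finset V) (k : V) : ℕ :=
  if cnt G D k = 1 then
    (if ∃ p, ZZ G D p ∧ BLine G D p k then
      (if ∃ p, ZZ G D p ∧ Clean G D p k then 0 else 7) else 8)
  else if cnt G D k = 2 ∧ ∃ z, Hv G D k z ∧ Kt G D z ∧ ¬ HasClean G D z then 4 else 0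

/-- the amount a point of `D` receives -/
noncomputable def RR (D : Finset V) (v : V) : ℕ := ∑ k ∈ G.neighborFinset v, ff G D k

/-- active pairs -/
def Act (D : Finset V) (p l : V) : Prop :=
  (XX G D p ∧ BLine G D p l) ∨ (ZZ G D p ∧ Clean G D p l ∧ ¬ KtL G D l)

/-- the claim of an active pair on a point of `D`, in halves -/
noncomputable def om (D : Finset V) (q : V × V) (v : V) : ℕ :=
  if Act G D q.1 q.2 ∧ ∃ k, k ≠ q.2 ∧ Tow G D q.1 q.2 v k then 1
  else if XX G D q.1 ∧ BLine G D q.1 q.2 ∧ v ∈ D ∧ G.Adj q.2 v then 2 else 0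

/-- the demand of a pair -/
noncomputable def pp (D : Finset V) (q : V × V) : ℕ :=
  (if ZZ G D q.1 ∧ Clean G D q.1 q.2 ∧ ¬ KtL G D q.2 then 8 else 0) +
    (if XX G D q.1 ∧ BLine G D q.1 q.2 then 17 + 8 * tnum G D q.1 else 0)

end

section

variable {V : Type*} [Fintype V] [DecidableEq V] {G : SimpleGraph V} [DecidableRel G.Adj]

theorem Act.bline {D : Finset V} {p l : V} (h : Act G D p l) : BLine G D p l := by
  rcases h with h | h
  · exact h.2
  · exact h.2.1.1

theorem Act.s0 {D : Finset V} {p l : V} (h : Act G D p l) : S0 G D p := by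
  rcases h with h | h
  · exact h.1.2.1
  · exact h.1.2.1

omit [Fintype V] [DecidableEq V] [DecidableRel G.Adj] in
theorem S0.ne_of_hv {D : Finset V} {p z k : V} (hp : S0 G D p) (h : Hv G D k z) : z ≠ p := by
  rintro rfl; exact hp.2 k h

/-- every claim comes with a candidate -/
theorem Act.cand {D : Finset V} {p l v k : V} (h : Act G D p l)
    (ht : Tow G D p l v k) (hk : k ≠ l ∨ XX G D p) :
    ∃ c, Cand G D v k c ∧ (XX G D p → ¬ CandC G D v k c) := by
  obtain ⟨hB, hv, hkv, hkz⟩ := ht
  have hp : S0 G D p := h.s0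
  by_cases hX : XX G D p
  · refine ⟨p, ?_, fun _ hC => hp.2 k hC.2.2.2.1⟩
    rcases hkz with rfl | ⟨z, hlz, hzp, hz, hH⟩
    · exact Or.inl ⟨hv, hkv, hX, hB⟩
    · exact Or.inr (Or.inl ⟨z, l, hv, hkv, hz, hH, hX, hB, hlz, hzp⟩)
  · have hkl : k ≠ l := by
      rcases hk with hk | hk
      · exact hk
      · exact absurd hk hX
    rcases hkz with h0 | ⟨z, hlz, hzp, hz, hH⟩
    · exact absurd h0 hkl
    · have hA : ¬ KtL G D l := by
        rcases h with h | h
        · exact absurd h.1 hX
        · exact h.2.2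
      have hK : ¬ Kt G D z := fun hK => hA ⟨z, hlz, hK⟩
      by_cases hxz : ∃ x l, XX G D x ∧ BLine G D x l ∧ G.Adj l z
      · obtain ⟨x, l', hx, hxl, hlz'⟩ := hxz
        exact ⟨x, Or.inr (Or.inl ⟨z, l', hv, hkv, hz, hH, hx, hxl, hlz', hx.2.1.ne_of_hv hH⟩),
          fun h0 => absurd h0 hX⟩
      · have hgz : Good G z ∧ ∀ l, ¬ BLine G D z l := by
          by_contra hcon
          apply hK
          refine ⟨⟨hz, k, hH⟩, ?_, hxz⟩
          by_cases hg : Good G z
          · right
            by_contra hb
            push Not at hb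
            exact hcon ⟨hg, hb⟩
          · exact Or.inl hg
        exact ⟨z, Or.inr (Or.inr ⟨hv, hkv, hz, hH, hgz.1, hgz.2⟩), fun h0 => absurd h0 hX⟩

/-- no candidates on the other lines -/
theorem Act.no_cand (hG : G.IsRegularOfDegree 3) {D : Finset V} (hD : Opt G D) {p l v k : V}
    (h : Act G D p l) (ht : Tow G D p l v k) (hk : k ≠ l ∨ XX G D p) {m c : V} (hm : m ≠ k) :
    ¬ Cand G D v m c := by
  intro hc
  obtain ⟨c0, hc0, hX0⟩ := h.cand ht hk
  rcases h with h | h
  · exact hX0 h.1 (cand_two hG hD hc0 hc hm.symm)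
  · exact h.2.1.2 v k ht m c hm hc

theorem Act.line_eq (hG : G.IsRegularOfDegree 3) {D : Finset V} (hD : Opt G D)
    {p l v k p' l' k' : V} (h : Act G D p l) (ht : Tow G D p l v k) (hk : k ≠ l ∨ XX G D p)
    (h' : Act G D p' l') (ht' : Tow G D p' l' v k') (hk' : k' ≠ l' ∨ XX G D p') : k = k' := by
  by_contra hne
  obtain ⟨c0, hc0, -⟩ := h'.cand ht' hk'
  exact h.no_cand hG hD ht hk (Ne.symm hne) hc0

/-- the other lines give at least `4`, and at least `7` if light -/
theorem Act.ff_lower (hG : G.IsRegularOfDegree 3) {D : Finset V} (hD : Opt G D) {p l v k : V}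
    (h : Act G D p l) (ht : Tow G D p l v k) (hk : k ≠ l ∨ XX G D p) {m : V} (hmv : G.Adj m v)
    (hm : m ≠ k) : 4 + (if cnt G D m = 1 then 3 else 0) ≤ ff G D m := by
  obtain ⟨c0, hc0, -⟩ := h.cand ht hk
  have hno : ∀ c, ¬ Cand G D v m c := fun c => h.no_cand hG hD ht hk hm
  have hv := ht.2.1
  have h1 := cnt_pos hmv hv
  have h2 := hD.valid.cnt_le hG m
  unfold ff
  by_cases hc : cnt G D m = 1
  · rw [if_pos hc, if_pos hc]
    by_cases hz : ∃ p, ZZ G D p ∧ BLine G D p m
    · rw [if_pos hz, if_neg]
      rintro ⟨p', -, hcl⟩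
      exact hcl.2 v m ⟨hcl.1, hv, hmv, Or.inl rfl⟩ k c0 (Ne.symm hm) hc0
    · rw [if_neg hz]; norm_num
  · rw [if_neg hc, if_neg hc]
    have hc2 : cnt G D m = 2 := by omega
    obtain ⟨z, hz, hH⟩ := exists_hv_of_cnt hG hc2
    have hxz : ¬ ∃ x l, XX G D x ∧ BLine G D x l ∧ G.Adj l z := by
      rintro ⟨x, l', hx, hxl, hlz'⟩
      exact hno x (Or.inr (Or.inl ⟨z, l', hv, hmv, hz, hH, hx, hxl, hlz', hx.2.1.ne_of_hv hH⟩))
    have hgz : ¬ Good G z ∨ ∃ l, BLine G D z l := by
      by_contra hcon
      push Not at hcon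
      exact hno z (Or.inr (Or.inr ⟨hv, hmv, hz, hH, hcon.1, hcon.2⟩))
    have hcl : ¬ HasClean G D z := by
      rintro ⟨p', l', hZ, hcl, hlz⟩
      exact hcl.2 v m ⟨hcl.1, hv, hmv, Or.inr ⟨z, hlz, hZ.2.1.ne_of_hv hH, hz, hH⟩⟩ k c0
        (Ne.symm hm) hc0
    rw [if_pos ⟨hc2, z, hH, ⟨⟨hz, m, hH⟩, hgz, hxz⟩, hcl⟩]

/-- the amount received by a claimed point -/
theorem Act.RR_lower (hG : G.IsRegularOfDegree 3) {D : Finset V} (hD : Opt G D) {p l v k : V}
    (h : Act G D p l) (ht : Tow G D p l v k) (hk : k ≠ l ∨ XX G D p) :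
    ff G D k + 8 + 3 * (Finset.univ.filter fun m => G.Adj m v ∧ m ≠ k ∧ cnt G D m = 1).card ≤
      RR G D v := by
  have hkv : k ∈ G.neighborFinset v := by simpa using ht.2.2.1.symm
  unfold RR
  rw [← Finset.add_sum_erase _ _ hkv]
  have h1 : ∑ m ∈ (G.neighborFinset v).erase k, (4 + (if cnt G D m = 1 then 3 else 0)) ≤
      ∑ m ∈ (G.neighborFinset v).erase k, ff G D m := by
    refine Finset.sum_le_sum fun m hm => ?_
    rw [Finset.mem_erase, SimpleGraph.mem_neighborFinset] at hm
    exact h.ff_lower hG hD ht hk hm.2.symm hm.1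
  have h2 : ((G.neighborFinset v).erase k).card = 2 := by
    rw [Finset.card_erase_of_mem hkv, SimpleGraph.card_neighborFinset_eq_degree, hG v]
  rw [Finset.sum_add_distrib, Finset.sum_const, h2, ← Finset.sum_filter, Finset.sum_const] at h1
  have h3 : ((G.neighborFinset v).erase k).filter (fun m => cnt G D m = 1) =
      Finset.univ.filter fun m => G.Adj m v ∧ m ≠ k ∧ cnt G D m = 1 := by
    ext m
    simp only [Finset.mem_filter, Finset.mem_erase, SimpleGraph.mem_neighborFinset,
      Finset.mem_univ, true_and, G.adj_comm v m]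
    tauto
  rw [h3] at h1
  simp only [smul_eq_mul] at h1
  omega

/-- the uncharged point on a blocking line is unique -/
theorem bline_s0_unique (hG : G.IsRegularOfDegree 3) {D : Finset V} {p p' l : V}
    (h : BLine G D p l) (h' : BLine G D p' l) (hp' : S0 G D p') : p' = p := by
  obtain ⟨y, z, hy, hz, -, -, -, -, -, hall⟩ := h.shape hG
  rcases hall p' h'.1 with h0 | h0 | h0
  · exact h0
  · exact absurd (h0 ▸ hy) hp'.1
  · obtain ⟨k, hk⟩ := hz.2
    exact absurd (h0 ▸ hk) (hp'.2 k)

theorem XX.ff_eq (hG : G.IsRegularOfDegree 3) {D : Finset V} {x l : V} (hx : XX G D x)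
    (hl : BLine G D x l) : ff G D l = 8 := by
  unfold ff
  rw [if_pos hl.2.2.1, if_neg]
  rintro ⟨p, hZ, hB⟩
  have := bline_s0_unique hG hl hB hZ.2.1
  subst this
  have h1 := hx.2.2
  have h2 := hZ.2.2
  omega

/-- the endpoints of the gate of a blocking line -/
theorem BLine.ends (hG : G.IsRegularOfDegree 3) {D : Finset V} {p l : V}
    (h : BLine G D p l) :
    ∃ m u w, m ≠ l ∧ u ≠ w ∧ Tow G D p l u m ∧ Tow G D p l w m := by
  obtain ⟨y, z, hy, hz, hyp, hzp, hzy, hly, hlz, hall⟩ := h.shape hG
  obtain ⟨m, hm⟩ := hz.2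
  obtain ⟨u, w, hu, hw, hwu, hmu, hmw, he⟩ := Pool.Agent.OLD.line_eq hG hm.1
  have hml : m ≠ l := by
    rintro rfl
    have := hm.cnt_eq hG hz.1
    have := h.2.2.1
    omega
  exact ⟨m, u, w, hml, hwu.symm, ⟨h, hm.2 u hmu hu, hmu, Or.inr ⟨z, hlz, hzp, hz.1, hm⟩⟩,
    ⟨h, hm.2 w hmw hw, hmw, Or.inr ⟨z, hlz, hzp, hz.1, hm⟩⟩⟩

theorem tnum_le (hG : G.IsRegularOfDegree 3) {D : Finset V} {x : V} (hx : XX G D x) :
    tnum G D x ≤ 2 := by
  have h1 := anum_add_bnum_add_tnum hG hx.2.1
  have h2 := hx.2.2
  omega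

/-- an active pair receives at least twice its demand (in halves) -/
theorem Act.demand (hG : G.IsRegularOfDegree 3) {D : Finset V} (hD : Opt G D) {p l : V}
    (h : Act G D p l) : 2 * pp G D (p, l) ≤ ∑ v ∈ D, om G D (p, l) v * RR G D v := by
  classical
  obtain ⟨m, u, w, hml, huw, htu, htw⟩ := h.bline.ends hG
  have hu := htu.2.1
  have hw := htw.2.1
  have hou : om G D (p, l) u = 1 := by
    unfold om; rw [if_pos ⟨h, m, hml, htu⟩]
  have how : om G D (p, l) w = 1 := by
    unfold om; rw [if_pos ⟨h, m, hml, htw⟩]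
  have hRu := h.RR_lower hG hD htu (Or.inl hml)
  have hRw := h.RR_lower hG hD htw (Or.inl hml)
  by_cases hX : XX G D p
  · have hB := h.bline
    obtain ⟨y, hy, hly⟩ := exists_mem_of_cnt_one hB.2.2.1
    have hty : Tow G D p l y l := ⟨hB, hy, hly, Or.inl rfl⟩
    have hRy := h.RR_lower hG hD hty (Or.inr hX)
    rw [hX.ff_eq hG hB] at hRy
    have hpu := pot hG hD hX hB htu
    have hpw := pot hG hD hX hB htw
    have hpy := pot hG hD hX hB hty
    have ht2 := tnum_le hG hX
    have hny : ¬ ∃ k, k ≠ l ∧ Tow G D p l y k := by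
      rintro ⟨k, hkl, hk⟩
      exact hkl (h.line_eq hG hD hk (Or.inr hX) h hty (Or.inr hX))
    have hyu : y ≠ u := by
      rintro rfl; exact hny ⟨m, hml, htu⟩
    have hyw : y ≠ w := by
      rintro rfl; exact hny ⟨m, hml, htw⟩
    have hoy : om G D (p, l) y = 2 := by
      unfold om
      rw [if_neg (fun h0 => hny h0.2), if_pos ⟨hX, hB, hy, hly⟩]
    have hsub : ({y, u, w} : Finset V) ⊆ D := by
      intro x hx
      simp only [Finset.mem_insert, Finset.mem_singleton] at hx
      rcases hx with rfl | rfl | rfl <;> assumption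
    have hsum : ∑ v ∈ ({y, u, w} : Finset V), om G D (p, l) v * RR G D v ≤
        ∑ v ∈ D, om G D (p, l) v * RR G D v :=
      Finset.sum_le_sum_of_subset hsub
    rw [Finset.sum_insert (by simp [hyu, hyw]), Finset.sum_insert (by simp [huw]),
      Finset.sum_singleton, hoy, hou, how] at hsum
    have hpp : pp G D (p, l) = 17 + 8 * tnum G D p := by
      unfold pp
      rw [if_neg, if_pos ⟨hX, hB⟩, zero_add]
      rintro ⟨hZ, -⟩
      have h1 := hX.2.2
      have h2 := hZ.2.2
      simp only at h2
      omega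
    rw [hpp]
    omega
  · have hpp : pp G D (p, l) ≤ 8 := by
      unfold pp
      simp only [hX, false_and, if_false]
      split_ifs <;> omega
    have hsub : ({u, w} : Finset V) ⊆ D := by
      intro x hx
      simp only [Finset.mem_insert, Finset.mem_singleton] at hx
      rcases hx with rfl | rfl <;> assumption
    have hsum : ∑ v ∈ ({u, w} : Finset V), om G D (p, l) v * RR G D v ≤
        ∑ v ∈ D, om G D (p, l) v * RR G D v :=
      Finset.sum_le_sum_of_subset hsub
    rw [Finset.sum_insert (by simp [huw]), Finset.sum_singleton, hou, how] at hsum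
    omega

/-- every point of `D` is claimed at most twice (in halves) -/
theorem sum_om_le (hG : G.IsRegularOfDegree 3) {D : Finset V} (hD : Opt G D) {v : V}
    (hv : v ∈ D) : ∑ q : V × V, om G D q v ≤ 2 := by
  classical
  -- every pair with a positive claim gives an active pair with a toward line
  have hpos : ∀ q : V × V, om G D q v ≠ 0 → Act G D q.1 q.2 ∧ ∃ k, Tow G D q.1 q.2 v k ∧
      (k ≠ q.2 ∨ XX G D q.1) ∧ (om G D q v = 2 → k = q.2) ∧ (om G D q v = 1 → k ≠ q.2) ∧
      om G D q v ≤ 2 := by
    intro q hq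
    unfold om at hq ⊢
    by_cases h1 : Act G D q.1 q.2 ∧ ∃ k, k ≠ q.2 ∧ Tow G D q.1 q.2 v k
    · rw [if_pos h1]
      obtain ⟨hA, k, hk, ht⟩ := h1
      exact ⟨hA, k, ht, Or.inl hk, by simp, fun _ => hk, by norm_num⟩
    · rw [if_neg h1] at hq ⊢
      by_cases h2 : XX G D q.1 ∧ BLine G D q.1 q.2 ∧ v ∈ D ∧ G.Adj q.2 v
      · rw [if_pos h2]
        exact ⟨Or.inl ⟨h2.1, h2.2.1⟩, q.2, ⟨h2.2.1, hv, h2.2.2.2, Or.inl rfl⟩, Or.inr h2.1,
          fun _ => rfl, by simp, le_refl _⟩
      · rw [if_neg h2] at hq
        exact absurd rfl hq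
  by_cases h2 : ∃ q : V × V, om G D q v = 2
  · obtain ⟨q, hq⟩ := h2
    obtain ⟨hA, k, ht, hk, hk2, -, -⟩ := hpos q (by omega)
    have hkq := hk2 hq
    have hrest : ∀ q' : V × V, q' ≠ q → om G D q' v = 0 := by
      intro q' hq'
      by_contra hne
      obtain ⟨hA', k', ht', hk', -, -, -⟩ := hpos q' hne
      have hkk := hA.line_eq hG hD ht hk hA' ht' hk'
      -- `k = q.2` is light
      have hl : k' = q'.2 := by
        rcases ht'.2.2.2 with h0 | ⟨z, -, -, hz, hH⟩
        · exact h0
        · exfalso
          have h3 := hH.cnt_eq hG hz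
          rw [← hkk, hkq] at h3
          have h4 := hA.bline.2.2.1
          omega
      have h5 : q'.2 = q.2 := by rw [← hl, ← hkk, hkq]
      have h6 : q'.1 = q.1 := by
        refine bline_s0_unique hG hA.bline ?_ hA'.s0
        rw [← h5]; exact hA'.bline
      exact hq' (Prod.ext h6 h5)
    rw [Finset.sum_eq_single q (fun q' _ hq' => hrest q' hq') (fun h0 => absurd (Finset.mem_univ q) h0),
      hq]
  · push Not at h2
    have hle : ∀ q : V × V, om G D q v = if om G D q v ≠ 0 then 1 else 0 := by
      intro q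
      by_cases h0 : om G D q v = 0
      · simp [h0]
      · obtain ⟨-, k, -, -, -, -, h3⟩ := hpos q h0
        have := h2 q
        rw [if_pos h0]
        omega
    rw [Finset.sum_congr rfl fun q _ => hle q, ← Finset.sum_filter, Finset.sum_const, smul_eq_mul,
      mul_one]
    set P := Finset.univ.filter fun q : V × V => om G D q v ≠ 0 with hP
    rcases P.eq_empty_or_nonempty with h0 | ⟨q, hq⟩
    · rw [h0]; simp
    · have hq' : om G D q v ≠ 0 := by simpa [hP] using hq
      obtain ⟨hA, k, ht, hk, -, hk1, h3⟩ := hpos q hq'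
      have hkq : k ≠ q.2 := hk1 (by have := h2 q; omega)
      obtain ⟨z, hlz, hzp, hz, hH⟩ : ∃ z, G.Adj q.2 z ∧ z ≠ q.1 ∧ z ∉ D ∧ Hv G D k z := by
        rcases ht.2.2.2 with h0 | h0
        · exact absurd h0 hkq
        · exact h0
      have himg : P.card ≤ ((G.neighborFinset z).erase k).card := by
        refine Finset.card_le_card_of_injOn (fun q' => q'.2) ?_ ?_
        · intro q' hq'
          have hq0 : om G D q' v ≠ 0 := by simpa [hP] using hq'
          obtain ⟨hA', k', ht', hk', -, hk1', h3'⟩ := hpos q' hq0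
          have hkq' : k' ≠ q'.2 := hk1' (by have := h2 q'; omega)
          have hkk := hA.line_eq hG hD ht hk hA' ht' hk'
          obtain ⟨z', hlz', -, hz', hH'⟩ : ∃ z, G.Adj q'.2 z ∧ z ≠ q'.1 ∧ z ∉ D ∧
              Hv G D k' z := by
            rcases ht'.2.2.2 with h0 | h0
            · exact absurd h0 hkq'
            · exact h0
          have hzz : z' = z := by
            by_contra hne
            rw [← hkk] at hH'
            exact hz' (hH.2 z' hH'.1 hne)
          subst hzz
          rw [Finset.mem_coe, Finset.mem_erase, SimpleGraph.mem_neighborFinset]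
          exact ⟨fun h0 => hkq' (hkk ▸ h0.symm), hlz'.symm⟩
        · intro q1 h1 q2 h2' h12
          have hq1 : om G D q1 v ≠ 0 := by simpa [hP] using h1
          have hq2 : om G D q2 v ≠ 0 := by simpa [hP] using h2'
          have hA1 := (hpos q1 hq1).1
          have hA2 := (hpos q2 hq2).1
          simp only at h12
          refine Prod.ext ?_ h12
          refine bline_s0_unique hG hA2.bline ?_ hA1.s0
          rw [← h12]; exact hA1.bline
      have hcard : ((G.neighborFinset z).erase k).card = 2 := by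
        rw [Finset.card_erase_of_mem (by simpa using hH.1.symm),
          SimpleGraph.card_neighborFinset_eq_degree, hG z]
      omega

/-- the demands of the active pairs are paid by the points of `D` -/
theorem sum_pp_le (hG : G.IsRegularOfDegree 3) {D : Finset V} (hD : Opt G D) :
    ∑ q : V × V, pp G D q ≤ ∑ v ∈ D, RR G D v := by
  classical
  have h1 : ∀ q : V × V, 2 * pp G D q ≤ ∑ v ∈ D, om G D q v * RR G D v := by
    intro q
    by_cases hA : Act G D q.1 q.2
    · exact hA.demand hG hD
    · have : pp G D q = 0 := by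
        unfold pp
        rw [if_neg, if_neg]
        · exact fun h => hA (Or.inl h)
        · exact fun h => hA (Or.inr h)
      rw [this]; simp
  have h2 : ∑ q : V × V, 2 * pp G D q ≤ ∑ v ∈ D, 2 * RR G D v := by
    calc ∑ q : V × V, 2 * pp G D q ≤ ∑ q : V × V, ∑ v ∈ D, om G D q v * RR G D v :=
          Finset.sum_le_sum fun q _ => h1 q
      _ = ∑ v ∈ D, ∑ q : V × V, om G D q v * RR G D v := Finset.sum_comm
      _ ≤ ∑ v ∈ D, 2 * RR G D v := by
          refine Finset.sum_le_sum fun v hv => ?_
          rw [← Finset.sum_mul]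
          exact Nat.mul_le_mul_right _ (sum_om_le hG hD hv)
  rw [← Finset.mul_sum, ← Finset.mul_sum] at h2
  omega

/-! ### The supply -/

/-- what the points of `D` receive is what the lines give -/
theorem sum_RR (hG : G.IsRegularOfDegree 3) {D : Finset V} (hD : Valid G D) :
    ∑ v ∈ D, RR G D v = ∑ k ∈ Finset.univ.filter (fun k => cnt G D k = 1), ff G D k +
      ∑ k ∈ Finset.univ.filter (fun k => cnt G D k = 2), 2 * ff G D k := by
  classical
  have h1 : ∑ v ∈ D, RR G D v = ∑ k, cnt G D k * ff G D k := by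
    unfold RR cnt
    have : ∀ v ∈ D, ∑ k ∈ G.neighborFinset v, ff G D k =
        ∑ k, if G.Adj k v then ff G D k else 0 := by
      intro v _
      rw [← Finset.sum_filter]
      refine Finset.sum_congr ?_ fun _ _ => rfl
      ext k; simp [G.adj_comm v k]
    rw [Finset.sum_congr rfl this, Finset.sum_comm]
    refine Finset.sum_congr rfl fun k _ => ?_
    rw [← Finset.sum_filter, Finset.sum_const, smul_eq_mul]
    congr 2
    ext v; simp [and_comm]
  rw [h1, Finset.sum_filter, Finset.sum_filter, ← Finset.sum_add_distrib]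
  refine Finset.sum_congr rfl fun k _ => ?_
  have h2 := hD.cnt_le hG k
  rcases (by omega : cnt G D k = 0 ∨ cnt G D k = 1 ∨ cnt G D k = 2) with h | h | h <;> simp [h]

open scoped Classical in
/-- the light lines -/
theorem light_supply (hG : G.IsRegularOfDegree 3) {D : Finset V} (k : V) :
    ∑ p, (8 * (if ZZ G D p ∧ Clean G D p k then 1 else 0) +
      (if ZZ G D p ∧ BLine G D p k ∧ ¬ Clean G D p k then 1 else 0)) +
      (if cnt G D k = 1 then ff G D k else 0) ≤ 8 * (if cnt G D k = 1 then 1 else 0) := by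
  by_cases hc : cnt G D k = 1
  · rw [if_pos hc, if_pos hc]
    by_cases hz : ∃ p, ZZ G D p ∧ BLine G D p k
    · obtain ⟨p, hp, hb⟩ := hz
      have huniq : ∀ p', ZZ G D p' → BLine G D p' k → p' = p := fun p' h1 h2 =>
        bline_s0_unique hG hb h2 h1.2.1
      rw [Finset.sum_eq_single p]
      · by_cases hcl : Clean G D p k
        · have hf : ff G D k = 0 := by
            unfold ff
            rw [if_pos hc, if_pos ⟨p, hp, hb⟩, if_pos ⟨p, hp, hcl⟩]
          simp [hp, hcl, hf]
        · have hf : ff G D k = 7 := by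
            unfold ff
            rw [if_pos hc, if_pos ⟨p, hp, hb⟩, if_neg]
            rintro ⟨p', hp', hcl'⟩
            have := huniq p' hp' hcl'.1
            exact hcl (this ▸ hcl')
          simp [hp, hb, hcl, hf]
      · intro p' _ hp'
        have n1 : ¬ (ZZ G D p' ∧ Clean G D p' k) := fun h => hp' (huniq p' h.1 h.2.1)
        have n2 : ¬ (ZZ G D p' ∧ BLine G D p' k ∧ ¬ Clean G D p' k) :=
          fun h => hp' (huniq p' h.1 h.2.1)
        simp [n1, n2]
      · intro h; exact absurd (Finset.mem_univ p) h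
    · have hf : ff G D k = 8 := by
        unfold ff
        rw [if_pos hc, if_neg hz]
      rw [Finset.sum_eq_zero, hf]
      intro p _
      have n1 : ¬ (ZZ G D p ∧ Clean G D p k) := fun h => hz ⟨p, h.1, h.2.1⟩
      have n2 : ¬ (ZZ G D p ∧ BLine G D p k ∧ ¬ Clean G D p k) :=
        fun h => hz ⟨p, h.1, h.2.1⟩
      simp [n1, n2]
  · rw [if_neg hc, if_neg hc, Finset.sum_eq_zero]
    intro p _
    have n1 : ¬ (ZZ G D p ∧ Clean G D p k) := fun h => hc h.2.1.2.2.1
    have n2 : ¬ (ZZ G D p ∧ BLine G D p k ∧ ¬ Clean G D p k) := fun h => hc h.2.1.2.2.1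
    simp [n1, n2]

/-- a blocking line of an uncharged point is not a light line with two charged points -/
theorem BLine.not_bline (hG : G.IsRegularOfDegree 3) {D : Finset V} {p z l : V}
    (h : BLine G D p l) (hp : S0 G D p) (hz : S1 G D z) : ¬ BLine G D z l := by
  intro h'
  obtain ⟨y, z', hy, hz', -, -, -, -, -, hall⟩ := h'.shape hG
  rcases hall p h.1 with h0 | h0 | h0
  · obtain ⟨k, hk⟩ := hz.2
    exact hp.2 k (h0 ▸ hk)
  · exact hp.1 (h0 ▸ hy)
  · obtain ⟨k, hk⟩ := hz'.2
    exact hp.2 k (h0 ▸ hk)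

open scoped Classical in
/-- the gate `z` with heavy line `m` -/
theorem gate_supply (hG : G.IsRegularOfDegree 3) {D : Finset V} (hD : Valid G D) {z m : V}
    (hm : Hv G D m z) :
    2 * ff G D m + ∑ l ∈ G.neighborFinset z, ∑ p,
      8 * (if ZZ G D p ∧ Clean G D p l ∧ KtL G D l then 1 else 0) ≤
      8 * (Finset.univ.filter fun l => BLine G D z l).card + 16 * (if Good G z then 0 else 1) := by
  have hz := hD.notMem hm
  have hS : S1 G D z := ⟨hz, m, hm⟩
  have hcm : cnt G D m = 2 := hm.cnt_eq hG hz
  have hmz : m ∈ G.neighborFinset z := by simpa using hm.1.symm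
  -- the K gate of a clean line at `z` is `z`
  have hKz : ∀ p l, ZZ G D p → Clean G D p l → G.Adj l z → KtL G D l → Kt G D z := by
    intro p l hp hcl hlz ⟨z', hlz', hK⟩
    obtain ⟨y, z0, hy, hz0, -, -, -, -, -, hall⟩ := hcl.1.shape hG
    have e1 : z = z0 := by
      rcases hall z hlz with h0 | h0 | h0
      · exact absurd (h0 ▸ hm) (hp.2.1.2 m)
      · exact absurd (h0 ▸ hy) hz
      · exact h0
    have e2 : z' = z0 := by
      obtain ⟨k, hk⟩ := hK.1.2
      rcases hall z' hlz' with h0 | h0 | h0
      · exact absurd (h0 ▸ hk) (hp.2.1.2 k)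
      · exact absurd (h0 ▸ hy) hK.1.1
      · exact h0
    rw [e1, ← e2]; exact hK
  by_cases hK : Kt G D z
  · -- bound for the clean lines: each line has at most one pair
    have hline : ∀ l, ∑ p, 8 * (if ZZ G D p ∧ Clean G D p l ∧ KtL G D l then 1 else 0) ≤
        8 * (if ∃ p, ZZ G D p ∧ Clean G D p l then 1 else 0) := by
      intro l
      by_cases h : ∃ p, ZZ G D p ∧ Clean G D p l
      · obtain ⟨p, hp, hcl⟩ := h
        rw [Finset.sum_eq_single p]
        · rw [if_pos (⟨p, hp, hcl⟩ : ∃ p, ZZ G D p ∧ Clean G D p l)]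
          split_ifs <;> norm_num
        · intro p' _ hp'
          rw [if_neg (fun h => hp' (bline_s0_unique hG hcl.1 h.2.1.1 h.1.2.1)), mul_zero]
        · intro h; exact absurd (Finset.mem_univ p) h
      · rw [if_neg h, mul_zero, Nat.le_zero]
        refine Finset.sum_eq_zero fun p _ => ?_
        rw [if_neg (fun h0 => h ⟨p, h0.1, h0.2.1⟩), mul_zero]
    have hsum : ∑ l ∈ G.neighborFinset z, ∑ p,
        8 * (if ZZ G D p ∧ Clean G D p l ∧ KtL G D l then 1 else 0) ≤
        8 * ((G.neighborFinset z).filter fun l => ∃ p, ZZ G D p ∧ Clean G D p l).card := by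
      refine (Finset.sum_le_sum fun l _ => hline l).trans ?_
      rw [← Finset.mul_sum, Finset.sum_boole, Nat.cast_id]
    by_cases hcl : HasClean G D z
    · have hf : ff G D m = 0 := by
        unfold ff
        rw [if_neg (by omega), if_neg]
        rintro ⟨-, z', hz', hK', hn⟩
        have : z' = z := by
          by_contra hne
          exact hK'.1.1 (hm.2 z' hz'.1 hne)
        subst this
        exact hn hcl
      rw [hf, mul_zero, zero_add]
      refine hsum.trans ?_
      have h2 : ((G.neighborFinset z).erase m).card = 2 := by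
        rw [Finset.card_erase_of_mem hmz, SimpleGraph.card_neighborFinset_eq_degree, hG z]
      have hsub : ((G.neighborFinset z).filter fun l => ∃ p, ZZ G D p ∧ Clean G D p l) ⊆
          (G.neighborFinset z).erase m := by
        intro l hl
        rw [Finset.mem_filter] at hl
        obtain ⟨hl, p, -, hcl⟩ := hl
        rw [Finset.mem_erase]
        refine ⟨?_, hl⟩
        rintro rfl
        have := hcl.1.2.2.1
        omega
      by_cases hg : Good G z
      · rw [if_pos hg, mul_zero, add_zero]
        obtain ⟨l0, hl0⟩ : ∃ l, BLine G D z l := by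
          rcases hK.2.1 with h | h
          · exact absurd hg h
          · exact h
        have h1 : 1 ≤ (Finset.univ.filter fun l => BLine G D z l).card :=
          Finset.card_pos.mpr ⟨l0, by simpa using hl0⟩
        have hl0m : l0 ∈ (G.neighborFinset z).erase m := by
          rw [Finset.mem_erase]
          refine ⟨?_, by simpa using hl0.1.symm⟩
          rintro rfl
          have := hl0.2.2.1
          omega
        have hsub' : ((G.neighborFinset z).filter fun l => ∃ p, ZZ G D p ∧ Clean G D p l) ⊆
            ((G.neighborFinset z).erase m).erase l0 := by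
          intro l hl
          rw [Finset.mem_erase]
          refine ⟨?_, hsub hl⟩
          rintro rfl
          rw [Finset.mem_filter] at hl
          obtain ⟨-, p, hp, hcl⟩ := hl
          exact hcl.1.not_bline hG hp.2.1 hS hl0
        have h3 := Finset.card_le_card hsub'
        rw [Finset.card_erase_of_mem hl0m, h2] at h3
        omega
      · rw [if_neg hg]
        have h3 := Finset.card_le_card hsub
        omega
    · have hzero : ((G.neighborFinset z).filter fun l => ∃ p, ZZ G D p ∧ Clean G D p l) = ∅ := by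
        rw [Finset.filter_eq_empty_iff]
        rintro l hl ⟨p, hp, hcl'⟩
        exact hcl ⟨p, l, hp, hcl', by simpa using (by simpa using hl : G.Adj z l).symm⟩
      rw [hzero, Finset.card_empty, mul_zero, Nat.le_zero] at hsum
      rw [hsum, add_zero]
      have hf : ff G D m ≤ 4 := by
        unfold ff
        rw [if_neg (by omega)]
        split_ifs <;> norm_num
      by_cases hg : Good G z
      · rw [if_pos hg]
        obtain ⟨l0, hl0⟩ : ∃ l, BLine G D z l := by
          rcases hK.2.1 with h | h
          · exact absurd hg h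
          · exact h
        have h1 : 1 ≤ (Finset.univ.filter fun l => BLine G D z l).card :=
          Finset.card_pos.mpr ⟨l0, by simpa using hl0⟩
        omega
      · rw [if_neg hg]
        omega
  · have hf : ff G D m = 0 := by
      unfold ff
      rw [if_neg (by omega), if_neg]
      rintro ⟨-, z', hz', hK', hn⟩
      have : z' = z := by
        by_contra hne
        exact hK'.1.1 (hm.2 z' hz'.1 hne)
      subst this
      exact hK hK'
    rw [hf, Finset.sum_eq_zero]
    · omega
    · intro l hl
      refine Finset.sum_eq_zero fun p _ => ?_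
      rw [if_neg, mul_zero]
      rintro ⟨hp, hcl, hKl⟩
      exact hK (hKz p l hp hcl (by simpa using (by simpa using hl : G.Adj z l).symm) hKl)

open scoped Classical in
/-- lines with two charged points: each is counted for at most two charged points -/
theorem sum_bline_le (hG : G.IsRegularOfDegree 3) {D : Finset V} :
    ∑ z ∈ Finset.univ.filter (fun z => S1 G D z), (Finset.univ.filter fun l => BLine G D z l).card ≤
      2 * s11 G D := by
  have h1 : ∑ z ∈ Finset.univ.filter (fun z => S1 G D z),
      (Finset.univ.filter fun l => BLine G D z l).card =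
      ∑ l, (Finset.univ.filter fun z => S1 G D z ∧ BLine G D z l).card := by
    calc _ = ∑ z ∈ Finset.univ.filter (fun z => S1 G D z), ∑ l, (if BLine G D z l then 1 else 0) :=
          Finset.sum_congr rfl fun z _ => Finset.card_filter _ _
      _ = ∑ l, ∑ z ∈ Finset.univ.filter (fun z => S1 G D z), (if BLine G D z l then 1 else 0) :=
          Finset.sum_comm
      _ = _ := by
          refine Finset.sum_congr rfl fun l _ => ?_
          rw [← Finset.card_filter, Finset.filter_filter]
  rw [h1]
  have h2 : ∀ l, (Finset.univ.filter fun z => S1 G D z ∧ BLine G D z l).card ≤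
      if ∃ x, S1 G D x ∧ BLine G D x l then 2 else 0 := by
    intro l
    by_cases h : ∃ x, S1 G D x ∧ BLine G D x l
    · rw [if_pos h]
      obtain ⟨x, -, hx⟩ := h
      have h3 : (G.neighborFinset l \ D).card = 2 := by
        have h4 := Finset.card_sdiff_add_card_inter (G.neighborFinset l) D
        have h5 := hx.2.2.1
        unfold cnt at h5
        rw [SimpleGraph.card_neighborFinset_eq_degree, hG l] at h4
        omega
      rw [← h3]
      refine Finset.card_le_card fun z hz => ?_
      simp only [Finset.mem_filter, Finset.mem_univ, true_and] at hz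
      rw [Finset.mem_sdiff, SimpleGraph.mem_neighborFinset]
      exact ⟨hz.2.1, hz.1.1⟩
    · rw [if_neg h, Nat.le_zero, Finset.card_eq_zero, Finset.filter_eq_empty_iff]
      exact fun z _ hz => h ⟨z, hz⟩
  refine (Finset.sum_le_sum fun l _ => h2 l).trans ?_
  unfold s11
  rw [Finset.card_filter, Finset.mul_sum]
  refine Finset.sum_le_sum fun l _ => ?_
  split_ifs <;> simp

open scoped Classical in
/-- the demand of an uncharged point -/
theorem dem_le (hG : G.IsRegularOfDegree 3) {D : Finset V} (hD : Opt G D) {x : V}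
    (hx : S0 G D x) :
    8 * (anum G D x + 2 * tnum G D x) + 1 ≤
      ∑ l, (16 * (if ZZ G D x ∧ Clean G D x l then 1 else 0) +
        (if ZZ G D x ∧ BLine G D x l ∧ ¬ Clean G D x l then 1 else 0) +
        (if XX G D x ∧ BLine G D x l then 17 + 8 * tnum G D x else 0)) +
      49 * (if Good G x then 0 else 1) := by
  have habt := anum_add_bnum_add_tnum hG hx
  by_cases hg : Good G x
  · rw [if_pos hg, mul_zero, add_zero]
    have hb := one_le_bnum hG hD hx hg
    by_cases hX : XX G D x
    · have h1 : ∃ l, BLine G D x l := by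
        unfold bnum at hb
        obtain ⟨l, hl⟩ := Finset.card_pos.mp hb
        exact ⟨l, by simpa using hl⟩
      obtain ⟨l, hl⟩ := h1
      have h2 : 17 + 8 * tnum G D x ≤ 16 * (if ZZ G D x ∧ Clean G D x l then 1 else 0) +
        (if ZZ G D x ∧ BLine G D x l ∧ ¬ Clean G D x l then 1 else 0) +
        (if XX G D x ∧ BLine G D x l then 17 + 8 * tnum G D x else 0) := by
        rw [if_pos (⟨hX, hl⟩ : XX G D x ∧ BLine G D x l)]; omega
      refine le_trans ?_ (h2.trans (Finset.single_le_sum (f := fun l =>
        16 * (if ZZ G D x ∧ Clean G D x l then 1 else 0) +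
        (if ZZ G D x ∧ BLine G D x l ∧ ¬ Clean G D x l then 1 else 0) +
        (if XX G D x ∧ BLine G D x l then 17 + 8 * tnum G D x else 0))
        (fun _ _ => Nat.zero_le _) (Finset.mem_univ l)))
      have := hX.2.2
      omega
    · have hb2 : 2 ≤ bnum G D x := by
        by_contra hcon
        exact hX ⟨hg, hx, by omega⟩
      have hZ : ZZ G D x := ⟨hg, hx, hb2⟩
      have h3 : ∑ l, (if BLine G D x l then 1 else 0) = bnum G D x := by
        unfold bnum
        rw [Finset.card_filter]
      have h4 : ∀ l, (if BLine G D x l then 1 else 0) + 15 * (if Clean G D x l then 1 else 0) ≤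
          16 * (if ZZ G D x ∧ Clean G D x l then 1 else 0) +
          (if ZZ G D x ∧ BLine G D x l ∧ ¬ Clean G D x l then 1 else 0) +
          (if XX G D x ∧ BLine G D x l then 17 + 8 * tnum G D x else 0) := by
        intro l
        by_cases hc : Clean G D x l
        · have := hc.1
          simp [hZ, hc, this]
        · by_cases hB : BLine G D x l
          · simp [hZ, hc, hB]
          · simp [hZ, hc, hB]
      refine le_trans ?_ (Finset.sum_le_sum fun l _ => h4 l)
      rw [Finset.sum_add_distrib, h3, ← Finset.mul_sum]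
      by_cases hb3 : bnum G D x = 2
      · -- one of the two blocking lines is clean
        have hcl : 1 ≤ ∑ l, (if Clean G D x l then 1 else 0) := by
          have h5 := hb3
          unfold bnum at h5
          obtain ⟨l, l', hl, he⟩ := Finset.card_eq_two.mp h5
          have hBl : BLine G D x l := by
            have : l ∈ Finset.univ.filter fun l => BLine G D x l := by rw [he]; simp
            simpa using this
          have hBl' : BLine G D x l' := by
            have : l' ∈ Finset.univ.filter fun l => BLine G D x l := by rw [he]; simp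
            simpa using this
          rcases clean_or_clean hG hD ⟨hg, hx, hb3⟩ hBl hBl' hl with h | h
          · refine le_trans ?_ (Finset.single_le_sum (f := fun l => if Clean G D x l then 1 else 0)
              (fun _ _ => Nat.zero_le _) (Finset.mem_univ l))
            simp [h]
          · refine le_trans ?_ (Finset.single_le_sum (f := fun l => if Clean G D x l then 1 else 0)
              (fun _ _ => Nat.zero_le _) (Finset.mem_univ l'))
            simp [h]
        omega
      · omega
  · rw [if_neg hg]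
    omega

open scoped Classical in
theorem discharge (hG : G.IsRegularOfDegree 3) {D : Finset V} (hD : Opt G D) :
    8 * ∑ x ∈ S0s G D, (anum G D x + 2 * tnum G D x) + (S0s G D).card ≤
      8 * h1 G D + 16 * s11 G D + 49 * bad G := by
  -- demand
  have hdem : 8 * ∑ x ∈ S0s G D, (anum G D x + 2 * tnum G D x) + (S0s G D).card ≤
      ∑ x, ∑ l, (16 * (if ZZ G D x ∧ Clean G D x l then 1 else 0) +
        (if ZZ G D x ∧ BLine G D x l ∧ ¬ Clean G D x l then 1 else 0) +
        (if XX G D x ∧ BLine G D x l then 17 + 8 * tnum G D x else 0)) +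
      49 * ∑ x ∈ S0s G D, (if Good G x then 0 else 1) := by
    have h1 : 8 * ∑ x ∈ S0s G D, (anum G D x + 2 * tnum G D x) + (S0s G D).card =
        ∑ x ∈ S0s G D, (8 * (anum G D x + 2 * tnum G D x) + 1) := by
      rw [Finset.mul_sum, Finset.card_eq_sum_ones, ← Finset.sum_add_distrib]
    rw [h1, Finset.mul_sum]
    refine (Finset.sum_le_sum fun x hx => dem_le hG hD (by simpa [S0s] using hx)).trans ?_
    rw [Finset.sum_add_distrib]
    exact Nat.add_le_add_right (Finset.sum_le_sum_of_subset (Finset.subset_univ _)) _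
  -- light lines
  have hlight : ∑ l, ∑ x, (8 * (if ZZ G D x ∧ Clean G D x l then 1 else 0) +
      (if ZZ G D x ∧ BLine G D x l ∧ ¬ Clean G D x l then 1 else 0)) +
      ∑ k ∈ Finset.univ.filter (fun k => cnt G D k = 1), ff G D k ≤ 8 * h1 G D := by
    have h1 := Finset.sum_le_sum fun k (_ : k ∈ (Finset.univ : Finset V)) =>
      light_supply hG (D := D) k
    rw [Finset.sum_add_distrib, ← Finset.mul_sum] at h1
    rw [Finset.sum_filter]
    unfold Pool.Agent.OLD.h1
    rw [Finset.card_filter]
    convert h1 using 3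
  -- gates
  have hgate : ∑ k ∈ Finset.univ.filter (fun k => cnt G D k = 2), 2 * ff G D k +
      ∑ l, ∑ x, 8 * (if ZZ G D x ∧ Clean G D x l ∧ KtL G D l then 1 else 0) ≤
      16 * s11 G D + 16 * ∑ z ∈ Finset.univ.filter (fun z => S1 G D z),
        (if Good G z then 0 else 1) := by
    have h1 := fun z (hz : z ∈ Finset.univ.filter (fun z => S1 G D z)) =>
      (show ∃ m, Hv G D m z from ((Finset.mem_filter.mp hz).2).2)
    choose! mm hmm using h1
    have h2 : ∑ z ∈ Finset.univ.filter (fun z => S1 G D z), (2 * ff G D (mm z) +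
        ∑ l ∈ G.neighborFinset z, ∑ p,
          8 * (if ZZ G D p ∧ Clean G D p l ∧ KtL G D l then 1 else 0)) ≤
        ∑ z ∈ Finset.univ.filter (fun z => S1 G D z),
          (8 * (Finset.univ.filter fun l => BLine G D z l).card +
            16 * (if Good G z then 0 else 1)) :=
      Finset.sum_le_sum fun z hz => gate_supply hG hD.valid (hmm z hz)
    rw [Finset.sum_add_distrib, Finset.sum_add_distrib, ← Finset.mul_sum, ← Finset.mul_sum] at h2
    have h3 := sum_bline_le hG (D := D)
    have h8 : ∑ z ∈ Finset.univ.filter (fun z => S1 G D z), 16 * (if Good G z then 0 else 1) =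
        16 * ∑ z ∈ Finset.univ.filter (fun z => S1 G D z), (if Good G z then 0 else 1) :=
      (Finset.mul_sum _ _ _).symm
    have h4 : ∑ k ∈ Finset.univ.filter (fun k => cnt G D k = 2), 2 * ff G D k ≤
        2 * ∑ z ∈ Finset.univ.filter (fun z => S1 G D z), ff G D (mm z) := by
      rw [← Finset.mul_sum]
      refine Nat.mul_le_mul_left _ ?_
      have h5 : Finset.univ.filter (fun k => cnt G D k = 2) ⊆
          (Finset.univ.filter (fun z => S1 G D z)).image mm := by
        intro k hk
        rw [Finset.mem_filter] at hk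
        obtain ⟨z, hz, hH⟩ := exists_hv_of_cnt hG hk.2
        have hzm : z ∈ Finset.univ.filter (fun z => S1 G D z) := by
          simp only [Finset.mem_filter, Finset.mem_univ, true_and]
          exact ⟨hz, k, hH⟩
        rw [Finset.mem_image]
        exact ⟨z, hzm, hD.valid.uniq _ _ _ (hmm z hzm) hH⟩
      refine (Finset.sum_le_sum_of_subset h5).trans ?_
      exact Finset.sum_image_le_of_nonneg (fun _ _ => Nat.zero_le _)
    have h6 : ∑ l, ∑ x, 8 * (if ZZ G D x ∧ Clean G D x l ∧ KtL G D l then 1 else 0) ≤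
        ∑ z ∈ Finset.univ.filter (fun z => S1 G D z), ∑ l ∈ G.neighborFinset z, ∑ p,
          8 * (if ZZ G D p ∧ Clean G D p l ∧ KtL G D l then 1 else 0) := by
      have h7 : ∑ z ∈ Finset.univ.filter (fun z => S1 G D z), ∑ l ∈ G.neighborFinset z, ∑ p,
          8 * (if ZZ G D p ∧ Clean G D p l ∧ KtL G D l then 1 else 0) =
          ∑ l, ∑ z ∈ Finset.univ.filter (fun z => S1 G D z ∧ G.Adj l z), ∑ p,
          8 * (if ZZ G D p ∧ Clean G D p l ∧ KtL G D l then 1 else 0) := by
        refine Finset.sum_comm' ?_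
        intro z l
        simp only [Finset.mem_filter, Finset.mem_univ, true_and, SimpleGraph.mem_neighborFinset,
          and_true, G.adj_comm z l]
      rw [h7]
      refine Finset.sum_le_sum fun l _ => ?_
      by_cases hl : ∃ z, S1 G D z ∧ G.Adj l z
      · obtain ⟨z, hz⟩ := hl
        exact Finset.single_le_sum (f := fun _ : V => ∑ p,
          8 * (if ZZ G D p ∧ Clean G D p l ∧ KtL G D l then 1 else 0))
          (fun _ _ => Nat.zero_le _) (by simpa using hz)
      · refine le_of_eq_of_le (Finset.sum_eq_zero fun p _ => ?_) (Nat.zero_le _)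
        rw [if_neg, mul_zero]
        rintro ⟨-, -, z, hlz, hK⟩
        exact hl ⟨z, hK.1, hlz⟩
    omega
  -- active pairs
  have hact := sum_pp_le hG hD
  have hRR := sum_RR hG hD.valid
  -- comparison
  have hcomm : ∀ f : V → V → ℕ, ∑ l, ∑ x, f x l = ∑ x, ∑ l, f x l := fun f => Finset.sum_comm
  rw [hcomm (fun x l => 8 * (if ZZ G D x ∧ Clean G D x l then 1 else 0) +
      (if ZZ G D x ∧ BLine G D x l ∧ ¬ Clean G D x l then 1 else 0))] at hlight
  rw [hcomm (fun x l => 8 * (if ZZ G D x ∧ Clean G D x l ∧ KtL G D l then 1 else 0))] at hgate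
  have hpp : ∑ q : V × V, pp G D q = ∑ x, ∑ l, pp G D (x, l) := Fintype.sum_prod_type _
  have hsplit : ∑ x, ∑ l, (16 * (if ZZ G D x ∧ Clean G D x l then 1 else 0) +
        (if ZZ G D x ∧ BLine G D x l ∧ ¬ Clean G D x l then 1 else 0) +
        (if XX G D x ∧ BLine G D x l then 17 + 8 * tnum G D x else 0)) =
      ∑ x, ∑ l, (8 * (if ZZ G D x ∧ Clean G D x l then 1 else 0) +
        (if ZZ G D x ∧ BLine G D x l ∧ ¬ Clean G D x l then 1 else 0)) +
      ∑ x, ∑ l, 8 * (if ZZ G D x ∧ Clean G D x l ∧ KtL G D l then 1 else 0) +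
      ∑ x, ∑ l, pp G D (x, l) := by
    rw [← Finset.sum_add_distrib, ← Finset.sum_add_distrib]
    refine Finset.sum_congr rfl fun x _ => ?_
    rw [← Finset.sum_add_distrib, ← Finset.sum_add_distrib]
    refine Finset.sum_congr rfl fun l _ => ?_
    unfold pp
    by_cases hK : KtL G D l <;> by_cases hZ : ZZ G D x <;> by_cases hC : Clean G D x l <;>
      simp [hK, hZ, hC] <;> omega
  -- bad points
  have hbad : ∑ x ∈ S0s G D, (if Good G x then 0 else 1) +
      ∑ z ∈ Finset.univ.filter (fun z => S1 G D z), (if Good G z then 0 else 1) ≤ bad G := by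
    rw [← Finset.sum_union]
    · unfold bad
      rw [Finset.card_filter]
      refine (Finset.sum_le_sum_of_subset (Finset.subset_univ _)).trans (le_of_eq ?_)
      refine Finset.sum_congr rfl fun x _ => ?_
      by_cases hg : Good G x <;> simp [hg]
    · rw [Finset.disjoint_left]
      intro x hx hx'
      simp only [S0s, Finset.mem_filter, Finset.mem_univ, true_and] at hx hx'
      obtain ⟨k, hk⟩ := hx'.2
      exact hx.2 k hk
  omega

end

end Pool.Agent.OLD
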