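import Pool.Agent.OLD.Basic

/-!
# Valid sets: unions, optimal sets, and the open locating-dominating complement
-/

set_option autoImplicit false
set_option linter.unusedVariables false

namespace Pool.Agent.OLD

variable {V : Type*} [Fintype V] [DecidableEq V] (G : SimpleGraph V) [DecidableRel G.Adj]

/-- `x` can be added to `E` -/
def Addable (E : Finset V) (x : V) : Prop :=
  (∀ l, ¬ Hv G E l x) ∧
    ∀ l y s, G.Adj l x → G.Adj l y → G.Adj l s → y ≠ x → s ≠ x → s ≠ y → y ∈ E →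
      ∀ l', ¬ Hv G E l' s

/-- `x` and `y` obstruct each other -/
def Inter (E : Finset V) (x y : V) : Prop :=
  (∃ l, G.Adj l x ∧ G.Adj l y) ∨
    ∃ l l' s, l ≠ l' ∧ s ≠ x ∧ s ≠ y ∧ G.Adj l x ∧ G.Adj l s ∧ G.Adj l' y ∧ G.Adj l' s ∧
      (∀ w, G.Adj l w → w ≠ x → w ≠ s → w ∈ E) ∧ (∀ w, G.Adj l' w → w ≠ y → w ≠ s → w ∈ E)

variable {G}

theorem Hv.mono {D E : Finset V} {l s : V} (h : Hv G E l s) (hE : E ⊆ D) : Hv G D l s :=
  ⟨h.1, fun w hw hws => hE (h.2 w hw hws)⟩

theorem Valid.mono {D E : Finset V} (h : Valid G D) (hE : E ⊆ D) : Valid G E :=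
  ⟨fun s hs l hl => h.none s (hE hs) l (hl.mono hE),
    fun s l l' hl hl' => h.uniq s l l' (hl.mono hE) (hl'.mono hE)⟩

theorem Addable.mono {D E : Finset V} {x : V} (h : Addable G D x) (hE : E ⊆ D) :
    Addable G E x :=
  ⟨fun l hl => h.1 l (hl.mono hE),
    fun l y s h1 h2 h3 h4 h5 h6 h7 l' hl' => h.2 l y s h1 h2 h3 h4 h5 h6 (hE h7) l' (hl'.mono hE)⟩

/-- the two shapes of a line all of whose points but `s` are in `E ∪ A` -/
theorem hv_union_cases {E A : Finset V}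
    (hint : ∀ x ∈ A, ∀ y ∈ A, x ≠ y → ¬ Inter G E x y) {l s : V} (h : Hv G (E ∪ A) l s) :
    Hv G E l s ∨ ∃ x ∈ A, G.Adj l x ∧ x ≠ s ∧ ∀ w, G.Adj l w → w ≠ x → w ≠ s → w ∈ E := by
  by_cases hx : ∃ x ∈ A, G.Adj l x ∧ x ≠ s
  · obtain ⟨x, hxA, hlx, hxs⟩ := hx
    refine Or.inr ⟨x, hxA, hlx, hxs, fun w hw hwx hws => ?_⟩
    rcases Finset.mem_union.mp (h.2 w hw hws) with hE | hA
    · exact hE
    · exact absurd (Or.inl ⟨l, hw, hlx⟩) (hint w hA x hxA hwx)
  · refine Or.inl ⟨h.1, fun w hw hws => ?_⟩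
    rcases Finset.mem_union.mp (h.2 w hw hws) with hE | hA
    · exact hE
    · exact absurd ⟨w, hA, hw, hws⟩ hx

/-- adding a set of pairwise non-interacting points -/
theorem valid_union (hG : G.IsRegularOfDegree 3) {E A : Finset V} (hE : Valid G E)
    (hA : ∀ x ∈ A, Good G x) (hd : Disjoint E A) (had : ∀ x ∈ A, Addable G E x)
    (hint : ∀ x ∈ A, ∀ y ∈ A, x ≠ y → ¬ Inter G E x y) : Valid G (E ∪ A) := by
  have hnone : ∀ s ∈ E ∪ A, ∀ l, ¬ Hv G (E ∪ A) l s := by
    intro s hs l hl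
    rcases hv_union_cases hint hl with h | ⟨x, hxA, hlx, hxs, hw⟩
    · rcases Finset.mem_union.mp hs with hsE | hsA
      · exact hE.none s hsE l h
      · exact (had s hsA).1 l h
    · rcases Finset.mem_union.mp hs with hsE | hsA
      · refine (had x hxA).1 l ⟨hlx, fun w hlw hwx => ?_⟩
        by_cases hws : w = s
        · rw [hws]; exact hsE
        · exact hw w hlw hwx hws
      · exact hint x hxA s hsA hxs (Or.inl ⟨l, hlx, hl.1⟩)
  have key : ∀ s l l' x, l ≠ l' → G.Adj l s → x ∈ A → G.Adj l x → x ≠ s →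
      (∀ w, G.Adj l w → w ≠ x → w ≠ s → w ∈ E) → ¬ Hv G E l' s := by
    intro s l l' x hll hls hxA hlx hxs hw h'
    obtain ⟨y, hly, hyx, hys, -⟩ := exists_third hG hlx hls hxs.symm
    exact (had x hxA).2 l y s hlx hly hls hyx hxs.symm hys.symm (hw y hly hyx hys) l' h'
  refine ⟨hnone, fun s l l' hl hl' => ?_⟩
  by_contra hll
  rcases hv_union_cases hint hl with h | ⟨x, hxA, hlx, hxs, hw⟩
  · rcases hv_union_cases hint hl' with h' | ⟨x', hxA', hlx', hxs', hw'⟩
    · exact hll (hE.uniq s l l' h h')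
    · exact key s l' l x' (Ne.symm hll) hl'.1 hxA' hlx' hxs' hw' h
  · rcases hv_union_cases hint hl' with h' | ⟨x', hxA', hlx', hxs', hw'⟩
    · exact key s l l' x hll hl.1 hxA hlx hxs hw h'
    · by_cases hxx : x = x'
      · subst hxx
        exact hll ((hA x hxA).two_lines hlx hlx' hl.1 hl'.1 hxs.symm)
      · exact hint x hxA x' hxA' hxx (Or.inr ⟨l, l', s, hll, hxs.symm, hxs'.symm, hlx, hl.1,
          hlx', hl'.1, hw, hw'⟩)

theorem valid_empty (hG : G.IsRegularOfDegree 3) : Valid G (∅ : Finset V) := by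
  refine ⟨fun s hs => absurd hs (Finset.notMem_empty s), fun s l l' hl hl' => ?_⟩
  obtain ⟨y, z, hy, -, -, hly, -, -⟩ := line_eq hG hl.1
  exact absurd (hl.2 y hly hy) (Finset.notMem_empty y)

theorem exists_opt (hG : G.IsRegularOfDegree 3) : ∃ D : Finset V, Opt G D := by
  classical
  let P : Finset (Finset V) := Finset.univ.filter fun D => Valid G D ∧ ∀ x ∈ D, Good G x
  have hP : ∀ D, D ∈ P ↔ Valid G D ∧ ∀ x ∈ D, Good G x := by
    intro D; simp [P]
  have hne : P.Nonempty :=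
    ⟨∅, (hP ∅).mpr ⟨valid_empty hG, fun x hx => absurd hx (Finset.notMem_empty x)⟩⟩
  obtain ⟨D0, hD0, hmax⟩ := Finset.exists_max_image P Finset.card hne
  let Q : Finset (Finset V) := P.filter fun D => D.card = D0.card
  have hQ : ∀ D, D ∈ Q ↔ D ∈ P ∧ D.card = D0.card := by
    intro D; simp [Q]
  obtain ⟨D, hD, hmin⟩ := Finset.exists_min_image Q (fun D => hc G D) ⟨D0, (hQ D0).mpr ⟨hD0, rfl⟩⟩
  obtain ⟨hDP, hDc⟩ := (hQ D).mp hD
  obtain ⟨hv, hg⟩ := (hP D).mp hDP
  exact ⟨D, hv, hg, fun D' h1 h2 => by rw [hDc]; exact hmax D' ((hP D').mpr ⟨h1, h2⟩),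
    fun D' h1 h2 h3 => hmin D' ((hQ D').mpr ⟨(hP D').mpr ⟨h1, h2⟩, by rw [h3, hDc]⟩)⟩

theorem isOLD_compl (hG : G.IsRegularOfDegree 3) (ht : ¬ HasTwins G) {D : Finset V}
    (hD : Valid G D) (hg : ∀ x ∈ D, Good G x) : IsOLD G Dᶜ := by
  have h1 : ∀ v, ∃ s ∈ Dᶜ, G.Adj v s := by
    intro v
    by_contra hcon
    push Not at hcon
    have h3 : 0 < (G.neighborFinset v).card := by
      rw [SimpleGraph.card_neighborFinset_eq_degree, hG v]; norm_num
    obtain ⟨s, hs⟩ := Finset.card_pos.mp h3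
    rw [SimpleGraph.mem_neighborFinset] at hs
    have hall : ∀ w, G.Adj v w → w ∈ D := by
      intro w hw
      by_contra hwD
      exact hcon w (by simpa using hwD) hw
    exact hD.none s (hall s hs) v ⟨hs, fun w hw _ => hall w hw⟩
  refine ⟨h1, fun u v huv heq => ?_⟩
  obtain ⟨s, hs, hus⟩ := h1 u
  have hmem : ∀ w, w ∉ D → (G.Adj u w ↔ G.Adj v w) := by
    intro w hw
    have := Finset.ext_iff.mp heq w
    simpa [hw] using this
  have hsD : s ∉ D := by simpa using hs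
  have hvs : G.Adj v s := (hmem s hsD).mp hus
  by_cases h2 : ∃ s', s' ∉ D ∧ G.Adj u s' ∧ s' ≠ s
  · obtain ⟨s', hs'D, hus', hss⟩ := h2
    have hvs' : G.Adj v s' := (hmem s' hs'D).mp hus'
    have hbad : ∀ a b x, a ≠ b → G.Adj a s → G.Adj b s → G.Adj a s' → G.Adj b s' →
        G.Adj a x → x ∉ D := by
      intro a b x hab has hbs has' hbs' hax hxD
      have hx := hg x hxD
      by_cases hxs : x = s
      · exact hsD (hxs ▸ hxD)
      · by_cases hxs' : x = s'
        · exact hs'D (hxs' ▸ hxD)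
        · have e1 : Seg G x a s b (2 + 1) :=
            Seg.cons hax.symm hxs (Seg.two has.symm hbs.symm hab)
          have e2 : Seg G x a s' b (2 + 1) :=
            Seg.cons hax.symm hxs' (Seg.two has'.symm hbs'.symm hab)
          exact hss (hx.seg e1 e2 (by norm_num)).2.2.symm
    apply ht
    refine ⟨u, v, huv, ?_⟩
    ext w
    simp only [SimpleGraph.mem_neighborFinset]
    constructor
    · intro hw
      exact (hmem w (hbad u v w huv hus hvs hus' hvs' hw)).mp hw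
    · intro hw
      exact (hmem w (hbad v u w huv.symm hvs hus hvs' hus' hw)).mpr hw
  · push Not at h2
    have hu : Hv G D u s := ⟨hus, fun w hw hws => by
      by_contra hwD
      exact hws (h2 w hwD hw)⟩
    have hv : Hv G D v s := ⟨hvs, fun w hw hws => by
      by_contra hwD
      exact hws (h2 w hwD ((hmem w hwD).mpr hw))⟩
    exact huv (hD.uniq s u v hu hv)

end Pool.Agent.OLD
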