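import Pool.Agent.OLD.Basic
import Pool.Agent.OLD.Valid
import Pool.Agent.OLD.Cand

/-!
# The potential argument (fewest heavy lines)
-/

set_option autoImplicit false

namespace Pool.Agent.OLD

variable {V : Type*} [Fintype V] [DecidableEq V] {G : SimpleGraph V} [DecidableRel G.Adj]

theorem one_le_bnum (hG : G.IsRegularOfDegree 3) {D : Finset V} (hD : Opt G D) {x : V}
    (hx : S0 G D x) (hg : Good G x) : 1 ≤ bnum G D x := by
  classical
  by_contra hcon
  have h0 : bnum G D x = 0 := by omega
  have hb : ∀ l, ¬ BLine G D x l := by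
    intro l hl
    unfold bnum at h0
    rw [Finset.card_eq_zero] at h0
    have : l ∈ (Finset.univ.filter fun l => BLine G D x l) := by simpa using hl
    rw [h0] at this
    simp at this
  have hadd : Addable G D x := by
    refine ⟨hx.2, ?_⟩
    intro l y s hlx hly hls hyx hsx hsy hyD l' hl'
    have hc : cnt G D l = 1 := le_antisymm (hx.cnt_le hG hlx) (cnt_pos hly hyD)
    exact hb l ⟨hlx, hx.1, hc, s, hls, hsx, hD.valid.notMem hl', l', hl'⟩
  have hval : Valid G (D ∪ {x}) := by
    refine valid_union hG hD.valid (A := {x}) ?_ ?_ ?_ ?_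
    · intro y hy
      rw [Finset.mem_singleton] at hy
      rw [hy]; exact hg
    · rw [Finset.disjoint_singleton_right]; exact hx.1
    · intro y hy
      rw [Finset.mem_singleton] at hy
      rw [hy]; exact hadd
    · intro y hy y' hy' hne
      rw [Finset.mem_singleton] at hy hy'
      exact absurd (hy.trans hy'.symm) hne
  have hle := hD.max _ hval (by
    intro y hy
    rw [Finset.mem_union, Finset.mem_singleton] at hy
    rcases hy with hy | hy
    · exact hD.good y hy
    · rw [hy]; exact hg)
  rw [Finset.card_union_of_disjoint (by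
    rw [Finset.disjoint_singleton_right]; exact hx.1), Finset.card_singleton] at hle
  omega

/-- the number of points of a line in a swapped set -/
theorem cnt_swap {D : Finset V} {v x m : V} (hv : v ∈ D) (hx : x ∉ D) :
    cnt G (insert x (D.erase v)) m + (if G.Adj m v then 1 else 0) =
      cnt G D m + (if G.Adj m x then 1 else 0) := by
  have hvx : v ≠ x := fun h => hx (h ▸ hv)
  unfold cnt
  have h1 : (G.neighborFinset m ∩ D.erase v).card + (if G.Adj m v then 1 else 0) =
      (G.neighborFinset m ∩ D).card := by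
    by_cases h : G.Adj m v
    · have hmem : v ∈ G.neighborFinset m ∩ D := by simp [h, hv]
      rw [Finset.inter_erase, if_pos h, Finset.card_erase_add_one hmem]
    · have hmem : v ∉ G.neighborFinset m ∩ D := by simp [h]
      rw [Finset.inter_erase, if_neg h, Finset.erase_eq_of_notMem hmem, add_zero]
  have h2 : (G.neighborFinset m ∩ insert x (D.erase v)).card =
      (G.neighborFinset m ∩ D.erase v).card + (if G.Adj m x then 1 else 0) := by
    by_cases h : G.Adj m x
    · rw [Finset.inter_insert_of_mem (by simpa using h), if_pos h,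
        Finset.card_insert_of_notMem (by simp [hx])]
    · rw [Finset.inter_insert_of_notMem (by simpa using h), if_neg h, add_zero]
  omega

/-- the comparison of the numbers of heavy lines after a swap -/
theorem swap_count (hG : G.IsRegularOfDegree 3) {D : Finset V} (hD : Opt G D) {v x : V}
    (hv : v ∈ D) (hx : x ∉ D) (hg : Good G x) (hval : Valid G (insert x (D.erase v))) :
    (Finset.univ.filter fun m => G.Adj m v ∧ ¬ G.Adj m x ∧ cnt G D m = 2).card ≤
      (Finset.univ.filter fun m => G.Adj m x ∧ ¬ G.Adj m v ∧ cnt G D m = 1).card := by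
  have hcard : (insert x (D.erase v)).card = D.card := by
    rw [Finset.card_insert_of_notMem (by simp [hx]), Finset.card_erase_add_one hv]
  have hle := hD.min _ hval (by
    intro y hy
    rw [Finset.mem_insert] at hy
    rcases hy with hy | hy
    · rw [hy]; exact hg
    · exact hD.good y (Finset.mem_of_mem_erase hy)) hcard
  unfold hc at hle
  rw [← Finset.card_sdiff_le_card_sdiff_iff] at hle
  refine le_trans (Finset.card_le_card ?_) (le_trans hle (Finset.card_le_card ?_))
  · intro m hm
    simp only [Finset.mem_filter, Finset.mem_univ, true_and, Finset.mem_sdiff] at hm ⊢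
    obtain ⟨h1, h2, h3⟩ := hm
    have := cnt_swap (G := G) (m := m) hv hx
    rw [if_pos h1, if_neg h2] at this
    exact ⟨h3, by omega⟩
  · intro m hm
    simp only [Finset.mem_filter, Finset.mem_univ, true_and, Finset.mem_sdiff] at hm ⊢
    obtain ⟨h1, h2⟩ := hm
    have h3 := cnt_swap (G := G) (m := m) hv hx
    have h4 := hD.valid.cnt_le hG m
    by_cases hmv : G.Adj m v <;> by_cases hmx : G.Adj m x
    · rw [if_pos hmv, if_pos hmx] at h3
      omega
    · rw [if_pos hmv, if_neg hmx] at h3
      omega
    · rw [if_neg hmv, if_pos hmx] at h3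
      exact ⟨hmx, hmv, by omega⟩
    · rw [if_neg hmv, if_neg hmx] at h3
      omega

/-- splitting the lines through a point of `D` into the light and the heavy ones -/
theorem count_D (hG : G.IsRegularOfDegree 3) {D : Finset V} (hD : Valid G D) {v : V}
    (hv : v ∈ D) :
    (Finset.univ.filter fun m => G.Adj m v ∧ cnt G D m = 1).card +
      (Finset.univ.filter fun m => G.Adj m v ∧ cnt G D m = 2).card = 3 := by
  rw [← card_lines hG v, ← Finset.card_union_of_disjoint]
  · congr 1
    ext m
    simp only [Finset.mem_union, Finset.mem_filter, Finset.mem_univ, true_and]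
    constructor
    · rintro (h | h)
      · exact h.1
      · exact h.1
    · intro h
      have h1 := cnt_pos h hv
      have h2 := hD.cnt_le hG m
      rcases Nat.lt_or_ge (cnt G D m) 2 with h3 | h3
      · exact Or.inl ⟨h, by omega⟩
      · exact Or.inr ⟨h, by omega⟩
  · rw [Finset.disjoint_filter]
    rintro m - h h'
    omega

/-- splitting the lines through a point of `S0` into the light and the empty ones -/
theorem count_S0 (hG : G.IsRegularOfDegree 3) {D : Finset V} {x : V} (hx : S0 G D x) :
    (Finset.univ.filter fun m => G.Adj m x ∧ cnt G D m = 1).card + tnum G D x = 3 := by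
  unfold tnum
  rw [← card_lines hG x, ← Finset.card_union_of_disjoint]
  · congr 1
    ext m
    simp only [Finset.mem_union, Finset.mem_filter, Finset.mem_univ, true_and]
    constructor
    · rintro (h | h)
      · exact h.1
      · exact h.1
    · intro h
      have h1 := hx.cnt_le hG h
      rcases Nat.lt_or_ge (cnt G D m) 1 with h3 | h3
      · exact Or.inr ⟨h, by omega⟩
      · exact Or.inl ⟨h, by omega⟩
  · rw [Finset.disjoint_filter]
    rintro m - h h'
    omega

/-- POT -/
theorem pot (hG : G.IsRegularOfDegree 3) {D : Finset V} (hD : Opt G D) {x l v k : V}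
    (hx : XX G D x) (hl : BLine G D x l) (hv : Tow G D x l v k) :
    tnum G D x ≤ (Finset.univ.filter fun m => G.Adj m v ∧ m ≠ k ∧ cnt G D m = 1).card := by
  obtain ⟨-, hvD, hkv, hk⟩ := hv
  have hvx : v ≠ x := fun h => hx.2.1.1 (h ▸ hvD)
  have h1 := count_D hG hD.valid hvD
  have h2 := count_S0 hG hx.2.1
  by_cases hkl : k = l
  · subst hkl
    obtain ⟨hxD, hgx, hval, -⟩ := cand_swap hG hD
      (show Cand G D v k x from Or.inl ⟨hvD, hkv, hx, hl⟩)
    have h3 := swap_count hG hD hvD hxD hgx hval
    have hkx : G.Adj k x := hl.1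
    have hk1 : cnt G D k = 1 := hl.2.2.1
    have h4 : (Finset.univ.filter fun m => G.Adj m v ∧ ¬ G.Adj m x ∧ cnt G D m = 2) =
        (Finset.univ.filter fun m => G.Adj m v ∧ cnt G D m = 2) := by
      ext m
      simp only [Finset.mem_filter, Finset.mem_univ, true_and]
      constructor
      · rintro ⟨h, -, h'⟩; exact ⟨h, h'⟩
      · rintro ⟨h, h'⟩
        refine ⟨h, fun hmx => ?_, h'⟩
        have := hgx.two_lines hmx hkx h hkv hvx
        rw [this] at h'
        omega
    have h5 : (Finset.univ.filter fun m => G.Adj m x ∧ ¬ G.Adj m v ∧ cnt G D m = 1) =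
        (Finset.univ.filter fun m => G.Adj m x ∧ cnt G D m = 1).erase k := by
      ext m
      simp only [Finset.mem_filter, Finset.mem_univ, true_and, Finset.mem_erase]
      constructor
      · rintro ⟨h, h', h''⟩
        exact ⟨fun h3 => h' (h3 ▸ hkv), h, h''⟩
      · rintro ⟨h, h', h''⟩
        refine ⟨h', fun hmv => h ?_, h''⟩
        exact hgx.two_lines h' hkx hmv hkv hvx
    have h6 : (Finset.univ.filter fun m => G.Adj m v ∧ m ≠ k ∧ cnt G D m = 1) =
        (Finset.univ.filter fun m => G.Adj m v ∧ cnt G D m = 1).erase k := by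
      ext m
      simp only [Finset.mem_filter, Finset.mem_univ, true_and, Finset.mem_erase]
      tauto
    have h7 : k ∈ (Finset.univ.filter fun m => G.Adj m v ∧ cnt G D m = 1) := by
      simp [hkv, hk1]
    have h8 : k ∈ (Finset.univ.filter fun m => G.Adj m x ∧ cnt G D m = 1) := by
      simp [hkx, hk1]
    have h9 := Finset.card_erase_add_one h7
    have h10 := Finset.card_erase_add_one h8
    rw [h4, h5] at h3
    rw [h6]
    omega
  · obtain ⟨z, hlz, hzx, hzD, hkz⟩ : ∃ z, G.Adj l z ∧ z ≠ x ∧ z ∉ D ∧ Hv G D k z := by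
      rcases hk with h | h
      · exact absurd h hkl
      · exact h
    obtain ⟨hxD, hgx, hval, -⟩ := cand_swap hG hD
      (show Cand G D v k x from Or.inr (Or.inl ⟨z, l, hvD, hkv, hzD, hkz, hx, hl, hlz, hzx⟩))
    have h3 := swap_count hG hD hvD hxD hgx hval
    have hzv : z ≠ v := fun h => hzD (h ▸ hvD)
    have hno : ∀ m, G.Adj m x → G.Adj m v → False := by
      intro m hmx hmv
      have := (hgx.seg (Seg.two hmx hmv hvx.symm)
        (Seg.four hl.1 hlz hkz.1 hkv hzx.symm (Ne.symm hkl) hzv) (by norm_num)).1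
      omega
    have hk2 : cnt G D k = 2 := hkz.cnt_eq hG hzD
    have h4 : (Finset.univ.filter fun m => G.Adj m v ∧ ¬ G.Adj m x ∧ cnt G D m = 2) =
        (Finset.univ.filter fun m => G.Adj m v ∧ cnt G D m = 2) := by
      ext m
      simp only [Finset.mem_filter, Finset.mem_univ, true_and]
      constructor
      · rintro ⟨h, -, h'⟩; exact ⟨h, h'⟩
      · rintro ⟨h, h'⟩
        exact ⟨h, fun hmx => hno m hmx h, h'⟩
    have h5 : (Finset.univ.filter fun m => G.Adj m x ∧ ¬ G.Adj m v ∧ cnt G D m = 1) =
        (Finset.univ.filter fun m => G.Adj m x ∧ cnt G D m = 1) := by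
      ext m
      simp only [Finset.mem_filter, Finset.mem_univ, true_and]
      constructor
      · rintro ⟨h, h', h''⟩
        exact ⟨h, h''⟩
      · rintro ⟨h', h''⟩
        exact ⟨h', fun hmv => hno m h' hmv, h''⟩
    have h6 : (Finset.univ.filter fun m => G.Adj m v ∧ m ≠ k ∧ cnt G D m = 1) =
        (Finset.univ.filter fun m => G.Adj m v ∧ cnt G D m = 1) := by
      ext m
      simp only [Finset.mem_filter, Finset.mem_univ, true_and]
      constructor
      · rintro ⟨h, -, h'⟩; exact ⟨h, h'⟩
      · rintro ⟨h, h'⟩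
        exact ⟨h, fun hmk => by rw [hmk] at h'; omega, h'⟩
    rw [h4, h5] at h3
    rw [h6]
    omega

/-- POT for candidates of type gamma -/
theorem potC (hG : G.IsRegularOfDegree 3) {D : Finset V} (hD : Opt G D) {v m z : V}
    (hv : v ∈ D) (h2 : ∀ k, G.Adj k v → cnt G D k = 2) (hm : G.Adj m v)
    (hz : Hv G D m z) (hg : Good G z) (hb : ∀ l, ¬ BLine G D z l) {l : V} (hl : G.Adj l z)
    (hlm : l ≠ m) : ∃ x, S0 G D x ∧ BLine G D x l ∧ x ≠ z := by
  have hzD : z ∉ D := hD.valid.notMem hz
  have hvz : v ≠ z := fun h => hzD (h ▸ hv)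
  obtain ⟨-, -, hval, -⟩ := cand_swap hG hD
    (show Cand G D v m z from Or.inr (Or.inr ⟨hv, hm, hzD, hz, hg, hb⟩))
  have h3 := swap_count hG hD hv hzD hg hval
  have h4 : (Finset.univ.filter fun k => G.Adj k v ∧ ¬ G.Adj k z ∧ cnt G D k = 2) =
      (Finset.univ.filter fun k => G.Adj k v).erase m := by
    ext k
    simp only [Finset.mem_filter, Finset.mem_univ, true_and, Finset.mem_erase]
    constructor
    · rintro ⟨h, h', -⟩
      exact ⟨fun hkm => h' (hkm ▸ hz.1), h⟩
    · rintro ⟨h, h'⟩
      exact ⟨h', fun hkz => h (hg.two_lines hkz hz.1 h' hm hvz), h2 k h'⟩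
  have h5 : (Finset.univ.filter fun k => G.Adj k z ∧ ¬ G.Adj k v ∧ cnt G D k = 1) ⊆
      (Finset.univ.filter fun k => G.Adj k z).erase m := by
    intro k
    simp only [Finset.mem_filter, Finset.mem_univ, true_and, Finset.mem_erase]
    rintro ⟨h, h', -⟩
    exact ⟨fun hkm => h' (hkm ▸ hm), h⟩
  have h6 : m ∈ (Finset.univ.filter fun k => G.Adj k v) := by simpa using hm
  have h7 : m ∈ (Finset.univ.filter fun k => G.Adj k z) := by simpa using hz.1
  have h8 := Finset.card_erase_add_one h6
  have h9 := Finset.card_erase_add_one h7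
  rw [card_lines hG] at h8 h9
  rw [h4] at h3
  have h10 := Finset.eq_of_subset_of_card_le h5 (by omega)
  have hlmem : l ∈ (Finset.univ.filter fun k => G.Adj k z).erase m := by
    simp [hl, hlm]
  rw [← h10] at hlmem
  simp only [Finset.mem_filter, Finset.mem_univ, true_and] at hlmem
  have hc1 := hlmem.2.2
  obtain ⟨y, x, hyD, hxD, hyz, hxz, hxy, hly, hlx, hall⟩ := light_shape hG hc1 hl hzD
  have hS1z : S1 G D z := ⟨hzD, m, hz⟩
  refine ⟨x, ⟨hxD, fun l' hl' => ?_⟩, ⟨hlx, hxD, hc1, z, hl, hxz.symm, hS1z⟩, hxz⟩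
  exact hb l ⟨hl, hzD, hc1, x, hlx, hxz, hxD, l', hl'⟩

end Pool.Agent.OLD
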