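import Pool.Agent.OLD.Basic
import Pool.Agent.OLD.Pot

/-!
# A second inequality for the size of an optimal set
-/

set_option autoImplicit false

namespace Pool.Agent.OLD

open Finset

variable {V : Type*} [Fintype V] [DecidableEq V] {G : SimpleGraph V} [DecidableRel G.Adj]

open scoped Classical in
/-- points of `D` on a light line -/
theorem card_D1 (D : Finset V) :
    (D.filter fun v => ∃ l, G.Adj l v ∧ cnt G D l = 1).card ≤ h1 G D := by
  unfold h1
  refine Finset.card_le_card_of_forall_subsingleton (fun v l => G.Adj l v) ?_ ?_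
  · intro v hv
    simp only [Finset.mem_filter] at hv
    obtain ⟨hv, l, hl, hc⟩ := hv
    exact ⟨l, by simpa using hc, hl⟩
  · intro l hl v hv w hw
    simp only [Finset.mem_filter, Finset.mem_univ, true_and] at hl
    have hv1 : v ∈ (D.filter fun v => ∃ l, G.Adj l v ∧ cnt G D l = 1) := hv.1
    have hw1 : w ∈ (D.filter fun v => ∃ l, G.Adj l v ∧ cnt G D l = 1) := hw.1
    exact cnt_one_unique hl (Finset.mem_filter.mp hv1).1 (Finset.mem_filter.mp hw1).1 hv.2 hw.2

/-- `z` is the gate of a line through `v` -/
def Gate (G : SimpleGraph V) (D : Finset V) (v z : V) : Prop := ∃ m, G.Adj m v ∧ Hv G D m z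

open scoped Classical in
/-- `D3`: the points of `D` not on a light line -/
noncomputable def D3 (G : SimpleGraph V) [DecidableRel G.Adj] (D : Finset V) : Finset V :=
  D.filter fun v => ¬ ∃ l, G.Adj l v ∧ cnt G D l = 1

open scoped Classical in
/-- the set of gates of the points of `D3` -/
noncomputable def Z (G : SimpleGraph V) [DecidableRel G.Adj] (D : Finset V) : Finset V :=
  Finset.univ.filter fun z => ∃ v ∈ D3 G D, Gate G D v z

theorem D3_heavy (hG : G.IsRegularOfDegree 3) {D : Finset V} (hD : Opt G D) {v : V}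
    (hv : v ∈ D3 G D) {l : V} (hl : G.Adj l v) : cnt G D l = 2 := by
  unfold D3 at hv
  rw [Finset.mem_filter] at hv
  obtain ⟨hvD, h⟩ := hv
  have h1 := cnt_pos hl hvD
  have h2 := hD.valid.cnt_le hG l
  by_contra hcon
  exact h ⟨l, hl, by omega⟩

theorem card_D3 (hG : G.IsRegularOfDegree 3) {D : Finset V} (hD : Opt G D) :
    (D3 G D).card * 3 ≤ (Z G D).card * 2 := by
  classical
  refine Finset.card_mul_le_card_mul (Gate G D) ?_ ?_
  · intro v hv
    rw [← card_lines hG v]
    refine Finset.card_le_card_of_forall_subsingleton (fun m z => Hv G D m z) ?_ ?_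
    · intro m hm
      simp only [Finset.mem_filter, Finset.mem_univ, true_and] at hm
      obtain ⟨s, -, hs⟩ := exists_hv_of_cnt hG (D3_heavy hG hD hv hm)
      refine ⟨s, ?_, hs⟩
      rw [Finset.mem_bipartiteAbove]
      refine ⟨?_, m, hm, hs⟩
      unfold Z
      rw [Finset.mem_filter]
      exact ⟨Finset.mem_univ _, v, hv, m, hm, hs⟩
    · intro z hz m hm m' hm'
      exact hD.valid.uniq z m m' hm.2 hm'.2
  · intro z hz
    unfold Z at hz
    rw [Finset.mem_filter] at hz
    obtain ⟨-, v, hv, m, hm, hz⟩ := hz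
    have hc := D3_heavy hG hD hv hm
    rw [← hc]
    unfold cnt
    refine Finset.card_le_card ?_
    intro w hw
    rw [Finset.mem_bipartiteBelow] at hw
    obtain ⟨hw, m', hm', hz'⟩ := hw
    have := hD.valid.uniq z m m' hz hz'
    subst this
    unfold D3 at hw
    rw [Finset.mem_filter] at hw
    simp [hm', hw.1]

open scoped Classical in
theorem card_ZB (hG : G.IsRegularOfDegree 3) (D : Finset V) :
    ((Z G D).filter fun z => S1 G D z ∧ ∃ l, BLine G D z l).card * 1 ≤ s11 G D * 2 := by
  unfold s11
  refine Finset.card_mul_le_card_mul (fun z l => BLine G D z l) ?_ ?_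
  · intro z hz
    rw [Finset.mem_filter] at hz
    obtain ⟨-, hS, l, hl⟩ := hz
    refine Finset.card_pos.mpr ⟨l, ?_⟩
    rw [Finset.mem_bipartiteAbove]
    refine ⟨?_, hl⟩
    rw [Finset.mem_filter]
    exact ⟨Finset.mem_univ _, z, hS, hl⟩
  · intro l hl
    rw [Finset.mem_filter] at hl
    obtain ⟨-, x, -, hx⟩ := hl
    obtain ⟨y, z, hy, hz, hyx, hzx, hzy, hly, hlz, hall⟩ := hx.shape hG
    calc _ ≤ ({x, z} : Finset V).card := by
          refine Finset.card_le_card ?_
          intro w hw
          rw [Finset.mem_bipartiteBelow] at hw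
          obtain ⟨-, hw⟩ := hw
          rcases hall w hw.1 with h | h | h
          · simp [h]
          · exact absurd (h ▸ hy) hw.2.1
          · simp [h]
      _ ≤ 2 := Finset.card_le_two

theorem s11_le_h1 (D : Finset V) : s11 G D ≤ h1 G D := by
  classical
  unfold s11 h1
  refine Finset.card_le_card ?_
  intro l hl
  simp only [Finset.mem_filter, Finset.mem_univ, true_and] at hl ⊢
  obtain ⟨x, -, hx⟩ := hl
  exact hx.2.2.1

open scoped Classical in
theorem card_ZC (hG : G.IsRegularOfDegree 3) {D : Finset V} (hD : Opt G D) :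
    ((Z G D).filter fun z => Good G z ∧ ∀ l, ¬ BLine G D z l).card * 2 ≤
      (S0s G D).card * 3 := by
  refine Finset.card_mul_le_card_mul
    (fun z x => ∃ l, BLine G D x l ∧ G.Adj l z ∧ x ≠ z) ?_ ?_
  · intro z hz
    rw [Finset.mem_filter] at hz
    obtain ⟨hz, hg, hb⟩ := hz
    unfold Z at hz
    rw [Finset.mem_filter] at hz
    obtain ⟨-, v, hv, m, hm, hzm⟩ := hz
    have hvD : v ∈ D := by
      unfold D3 at hv
      exact (Finset.mem_filter.mp hv).1
    have hcard : ((Finset.univ.filter fun l => G.Adj l z).erase m).card = 2 := by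
      rw [Finset.card_erase_of_mem (by simpa using hzm.1), card_lines hG z]
    rw [← hcard]
    refine Finset.card_le_card_of_forall_subsingleton
      (fun l x => BLine G D x l ∧ G.Adj l z ∧ x ≠ z) ?_ ?_
    · intro l hl
      simp only [Finset.mem_filter, Finset.mem_univ, true_and, Finset.mem_erase] at hl
      obtain ⟨x, hx0, hxl, hxz⟩ := potC hG hD hvD (fun k hk => D3_heavy hG hD hv hk) hm hzm hg hb
        hl.2 hl.1
      refine ⟨x, ?_, hxl, hl.2, hxz⟩
      rw [Finset.mem_bipartiteAbove]
      refine ⟨?_, l, hxl, hl.2, hxz⟩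
      unfold S0s
      rw [Finset.mem_filter]
      exact ⟨Finset.mem_univ _, hx0⟩
    · intro x hx l hl l' hl'
      exact hg.two_lines hl.2.2.1 hl'.2.2.1 hl.2.1.1 hl'.2.1.1 hl.2.2.2
  · intro x hx
    rw [← card_lines hG x]
    refine Finset.card_le_card_of_forall_subsingleton
      (fun z l => BLine G D x l ∧ G.Adj l z ∧ x ≠ z ∧ z ∉ D) ?_ ?_
    · intro z hz
      rw [Finset.mem_bipartiteBelow] at hz
      obtain ⟨hz, l, hl, hlz, hxz⟩ := hz
      refine ⟨l, by simpa using hl.1, hl, hlz, hxz, ?_⟩
      rw [Finset.mem_filter] at hz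
      have hz1 := hz.1
      unfold Z at hz1
      rw [Finset.mem_filter] at hz1
      obtain ⟨-, v, hv, m, hm, hzm⟩ := hz1
      exact hD.valid.notMem hzm
    · intro l hl z hz z' hz'
      obtain ⟨-, hB, hlz, hxz, hzD⟩ := hz
      obtain ⟨-, -, hlz', hxz', hzD'⟩ := hz'
      obtain ⟨y, w, hy, hw, hyx, hwx, hwy, hly, hlw, hall⟩ := hB.shape hG
      have h1 : z = w := by
        rcases hall z hlz with h | h | h
        · exact absurd h.symm hxz
        · exact absurd (h ▸ hy) hzD
        · exact h
      have h2 : z' = w := by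
        rcases hall z' hlz' with h | h | h
        · exact absurd h.symm hxz'
        · exact absurd (h ▸ hy) hzD'
        · exact h
      rw [h1, h2]

theorem card_le (hG : G.IsRegularOfDegree 3) {D : Finset V} (hD : Opt G D) :
    3 * D.card ≤ 7 * h1 G D + 3 * (S0s G D).card + 2 * bad G := by
  classical
  have e1 := card_D1 (G := G) D
  have e2 := card_D3 hG hD
  have e3 := card_ZB hG D
  have e4 := s11_le_h1 (G := G) D
  have e5 := card_ZC hG hD
  have e6 : D.card = (D.filter fun v => ∃ l, G.Adj l v ∧ cnt G D l = 1).card + (D3 G D).card := by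
    unfold D3
    rw [Finset.card_filter_add_card_filter_not]
  have e7 : (Z G D).card ≤ bad G +
      (((Z G D).filter fun z => S1 G D z ∧ ∃ l, BLine G D z l).card +
        ((Z G D).filter fun z => Good G z ∧ ∀ l, ¬ BLine G D z l).card) := by
    unfold bad
    refine le_trans (Finset.card_le_card ?_) (le_trans (Finset.card_union_le _ _)
      (Nat.add_le_add_left (Finset.card_union_le _ _) _))
    intro z hz
    simp only [Finset.mem_union, Finset.mem_filter, Finset.mem_univ, true_and]
    by_cases hg : Good G z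
    · right
      by_cases hb : ∃ l, BLine G D z l
      · left
        refine ⟨hz, ?_, hb⟩
        unfold Z at hz
        rw [Finset.mem_filter] at hz
        obtain ⟨-, v, hv, m, hm, hzm⟩ := hz
        exact ⟨hD.valid.notMem hzm, m, hzm⟩
      · right
        push Not at hb
        exact ⟨hz, hg, hb⟩
    · exact Or.inl hg
  omega

end Pool.Agent.OLD
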