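import Pool.Agent.OLD.Basic

/-!
# A point which is not good is near a short cycle
-/

set_option autoImplicit false
set_option linter.unusedVariables false

namespace Pool.Agent.OLD

section Walk
variable {V : Type*} (G : SimpleGraph V)

open SimpleGraph

/-- if `u` is on `p`, then `u` is at distance at most `10` from the start -/
theorem near_of_mem_support {x y u : V} (p q : G.Walk x y) (hu : u ∈ p.support)
    (hlen : p.length + q.length ≤ 20) : ∃ r : G.Walk x u, r.length ≤ 10 := by
  classical
  have h1 : (p.takeUntil u hu).length + (p.dropUntil u hu).length = p.length := by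
    rw [← Walk.length_append, Walk.take_spec]
  by_cases h : (p.takeUntil u hu).length ≤ 10
  · exact ⟨_, h⟩
  · refine ⟨q.append (p.dropUntil u hu).reverse, ?_⟩
    rw [Walk.length_append, Walk.length_reverse]
    omega

theorem nearShort_of_not_good [Finite V] {x : V} (h : ¬ Good G x) : NearShort G x := by
  classical
  unfold Good at h
  push Not at h
  obtain ⟨y, p, q, hp, hq, hlen, hpq⟩ := h
  let H : SimpleGraph V := SimpleGraph.fromEdgeSet {e | e ∈ p.edges ∨ e ∈ q.edges}
  have hmemH : ∀ e, e ∈ H.edgeSet ↔ (e ∈ p.edges ∨ e ∈ q.edges) := by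
    intro e
    rw [SimpleGraph.edgeSet_fromEdgeSet]
    constructor
    · intro he
      exact he.1
    · intro he
      refine ⟨he, ?_⟩
      have : e ∈ G.edgeSet := by
        rcases he with he | he
        · exact p.edges_subset_edgeSet he
        · exact q.edges_subset_edgeSet he
      exact G.not_isDiag_of_mem_edgeSet this
  have hp' : ∀ e ∈ p.edges, e ∈ H.edgeSet := fun e he => (hmemH e).mpr (Or.inl he)
  have hq' : ∀ e ∈ q.edges, e ∈ H.edgeSet := fun e he => (hmemH e).mpr (Or.inr he)
  have hnac : ¬ H.IsAcyclic := by
    intro hac
    have h1 : (p.transfer H hp').IsPath := by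
      rw [hac.isPath_iff_isChain, Walk.edges_transfer]
      exact hp
    have h2 : (q.transfer H hq').IsPath := by
      rw [hac.isPath_iff_isChain, Walk.edges_transfer]
      exact hq
    have h4 : p.transfer H hp' = q.transfer H hq' :=
      congrArg Subtype.val ((hac.subsingleton_path _ _).elim ⟨_, h1⟩ ⟨_, h2⟩)
    apply hpq
    apply Walk.ext_support
    rw [← Walk.support_transfer p hp', ← Walk.support_transfer q hq', h4]
  unfold SimpleGraph.IsAcyclic at hnac
  push Not at hnac
  obtain ⟨u, c, hc⟩ := hnac
  have hcG : ∀ e ∈ c.edges, e ∈ G.edgeSet := by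
    intro e he
    rcases (hmemH e).mp (c.edges_subset_edgeSet he) with h | h
    · exact p.edges_subset_edgeSet h
    · exact q.edges_subset_edgeSet h
  have hclen : c.length ≤ 20 := by
    have h1 : c.edges.Nodup := hc.isTrail.edges_nodup
    have h2 : c.edges ⊆ p.edges ++ q.edges := by
      intro e he
      rw [List.mem_append]
      exact (hmemH e).mp (c.edges_subset_edgeSet he)
    have h3 := (h1.subperm h2).length_le
    rw [List.length_append, Walk.length_edges, Walk.length_edges, Walk.length_edges] at h3
    omega
  have hu : u ∈ p.support ∨ u ∈ q.support := by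
    cases c with
    | nil => exact absurd hc Walk.not_isCycle_nil
    | cons hadj c' =>
      rcases (hmemH _).mp (SimpleGraph.mem_edgeSet H |>.mpr hadj) with h | h
      · exact Or.inl (p.fst_mem_support_of_mem_edges h)
      · exact Or.inr (q.fst_mem_support_of_mem_edges h)
  obtain ⟨r, hr⟩ : ∃ r : G.Walk x u, r.length ≤ 10 := by
    rcases hu with hu | hu
    · exact near_of_mem_support G p q hu hlen
    · exact near_of_mem_support G q p hu (by omega)
  exact ⟨u, c.transfer G hcG, r, hc.transfer hcG, by rw [Walk.length_transfer]; exact hclen, hr⟩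

end Walk

end Pool.Agent.OLD
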