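import Pool.Agent.OLD.Discharge
import Pool.Agent.OLD.Count
import Pool.Agent.OLD.I2
import Pool.Agent.OLD.Walk

/-!
# Cubic graphs with few short cycles
-/

set_option autoImplicit false

namespace Pool.Agent.OLD

variable {V : Type*} [Fintype V] [DecidableEq V] {G : SimpleGraph V} [DecidableRel G.Adj]

theorem final (hG : G.IsRegularOfDegree 3) {D : Finset V} (hD : Opt G D) :
    1660 * Fintype.card V ≤ 4144 * D.card + 1670 * bad G := by
  have h1' := identity1 hG hD.valid
  have h2' := identity2 hG hD.valid
  have h3 := discharge hG hD
  have h4 := card_le hG hD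
  omega

open scoped Classical in
theorem main (hG : G.IsRegularOfDegree 3) (ht : ¬ HasTwins G) :
    ∃ S : Finset V, IsOLD G S ∧
      2072 * S.card ≤ 1242 * Fintype.card V + 835 * Fintype.card {x : V // NearShort G x} := by
  obtain ⟨D, hD⟩ := exists_opt hG
  refine ⟨Dᶜ, isOLD_compl hG ht hD.valid hD.good, ?_⟩
  have h1 := final hG hD
  have h2 : Dᶜ.card = Fintype.card V - D.card := Finset.card_compl D
  have h3 : D.card ≤ Fintype.card V := Finset.card_le_univ D
  have h4 : bad G ≤ Fintype.card {x : V // NearShort G x} := by
    rw [Fintype.card_subtype]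
    unfold bad
    exact Finset.card_le_card fun x hx => by
      simp only [Finset.mem_filter, Finset.mem_univ, true_and] at hx ⊢
      exact nearShort_of_not_good G hx
  omega

end Pool.Agent.OLD
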